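import Pool.Agent.Helper27.Tri.Cheb

/-!
# The recurrences in characteristic `p`
-/

open Finset

namespace H27Tri

theorem D_scale {R : Type*} [CommRing R] (e x f : R) (m : ℕ) :
    D (e * x) (e ^ 2 * f) m = e ^ m * D x f m ∧
    D (e * x) (e ^ 2 * f) (m + 1) = e ^ (m + 1) * D x f (m + 1) := by
  induction m with
  | zero => simp
  | succ m ih =>
    refine ⟨ih.2, ?_⟩
    rw [D_add_two, D_add_two, ih.1, ih.2]
    ring

theorem D_dickson {R : Type*} [CommRing R] (x : R) (m : ℕ) :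
    D x 1 m = (Polynomial.dickson 1 (1 : R) m).eval x ∧
    D x 1 (m + 1) = (Polynomial.dickson 1 (1 : R) (m + 1)).eval x := by
  induction m with
  | zero => simp; norm_num
  | succ m ih =>
    refine ⟨ih.2, ?_⟩
    rw [D_add_two, Polynomial.dickson_add_two, ih.1, ih.2]
    simp

theorem D_zero_arg {R : Type*} [CommRing R] (x : R) (m : ℕ) : D x 0 (m + 1) = x ^ (m + 1) := by
  induction m with
  | zero => simp
  | succ m ih => rw [D_add_two, ih]; ring

theorem D_charP_field {K : Type*} [Field K] (p : ℕ) [Fact p.Prime] [CharP K p] (a e : K) :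
    D a (e ^ 2) p = a ^ p := by
  by_cases he : e = 0
  · subst he
    obtain ⟨m, hm⟩ : ∃ m, p = m + 1 := ⟨p - 1, by have := (Fact.out : p.Prime).pos; omega⟩
    rw [hm]
    simpa using D_zero_arg a m
  · have h := (D_scale e (a / e) 1 p).1
    rw [mul_div_cancel₀ a he, mul_one, (D_dickson (a / e) p).1,
      Polynomial.dickson_one_one_charP] at h
    rw [h, Polynomial.eval_pow, Polynomial.eval_X, ← mul_pow, mul_div_cancel₀ a he]

theorem D_charP {R : Type*} [CommRing R] [IsDomain R] (p : ℕ) [Fact p.Prime] [CharP R p]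
    (a e : R) : D a (e ^ 2) p = a ^ p := by
  have hinj : Function.Injective (algebraMap R (FractionRing R)) :=
    IsFractionRing.injective R (FractionRing R)
  have : CharP (FractionRing R) p := charP_of_injective_algebraMap hinj p
  apply hinj
  rw [map_D, map_pow, map_pow]
  exact D_charP_field p _ _

/-- `U_{p-1}` in characteristic `p`, up to sign. -/
theorem U_charP {R : Type*} [CommRing R] [IsDomain R] (p : ℕ) [Fact p.Prime] [CharP R p]
    (hp : Odd p) (a e : R) (hQ : a ^ 2 - 4 * e ^ 2 ≠ 0) :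
    U a (e ^ 2) (p - 1) = (a ^ 2 - 4 * e ^ 2) ^ ((p - 1) / 2) ∨
    U a (e ^ 2) (p - 1) = - (a ^ 2 - 4 * e ^ 2) ^ ((p - 1) / 2) := by
  have hp1 : p - 1 + 1 = p := by have := (Fact.out : p.Prime).pos; omega
  have h := pell a (e ^ 2) (p - 1)
  rw [hp1, D_charP p a e] at h
  have h4 : (4 : R) ^ p = 4 := by
    have : ((4 : ℕ) : R) ^ p = ((4 : ℕ) : R) := by
      rw [← Nat.cast_pow]
      have := ZMod.pow_card ((4 : ℕ) : ZMod p)
      have h2 : ((4 ^ p : ℕ) : ZMod p) = ((4 : ℕ) : ZMod p) := by push_cast; exact_mod_cast this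
      rw [ZMod.natCast_eq_natCast_iff] at h2
      exact (CharP.natCast_eq_natCast R p).mpr h2
    exact_mod_cast this
  have hQp : (a ^ 2 - 4 * e ^ 2) ^ p = (a ^ p) ^ 2 - 4 * (e ^ 2) ^ p := by
    rw [sub_pow_char, mul_pow, h4]; ring
  have hsq : (a ^ 2 - 4 * e ^ 2) * U a (e ^ 2) (p - 1) ^ 2
      = (a ^ 2 - 4 * e ^ 2) * ((a ^ 2 - 4 * e ^ 2) ^ ((p - 1) / 2)) ^ 2 := by
    rw [← pow_mul, show (p - 1) / 2 * 2 = p - 1 by obtain ⟨k, hk⟩ := hp; omega, ← pow_succ', hp1,
      hQp]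
    linear_combination -h
  exact sq_eq_sq_iff_eq_or_eq_neg.mp (mul_left_cancel₀ hQ hsq)

end H27Tri
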