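import Mathlib

/-!
# Homogenised Chebyshev / Dickson recurrences
-/

open Finset

namespace H27Tri

variable {R : Type*} [CommRing R]

/-- `U_{m+2} = a U_{m+1} - f U_m`, `U_0 = 1`, `U_1 = a`. -/
def U (a f : R) : ℕ → R
  | 0 => 1
  | 1 => a
  | (m + 2) => a * U a f (m + 1) - f * U a f m

/-- `D_{m+2} = a D_{m+1} - f D_m`, `D_0 = 2`, `D_1 = a`. -/
def D (a f : R) : ℕ → R
  | 0 => 2
  | 1 => a
  | (m + 2) => a * D a f (m + 1) - f * D a f m

@[simp] theorem U_zero (a f : R) : U a f 0 = 1 := rfl
@[simp] theorem U_one (a f : R) : U a f 1 = a := rfl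
theorem U_add_two (a f : R) (m : ℕ) : U a f (m + 2) = a * U a f (m + 1) - f * U a f m := rfl
@[simp] theorem D_zero (a f : R) : D a f 0 = 2 := rfl
@[simp] theorem D_one (a f : R) : D a f 1 = a := rfl
theorem D_add_two (a f : R) (m : ℕ) : D a f (m + 2) = a * D a f (m + 1) - f * D a f m := rfl

theorem map_UD {S : Type*} [CommRing S] (φ : R →+* S) (a f : R) (m : ℕ) :
    φ (U a f m) = U (φ a) (φ f) m ∧ φ (U a f (m + 1)) = U (φ a) (φ f) (m + 1) := by
  induction m with
  | zero => simp
  | succ m ih => refine ⟨ih.2, ?_⟩; simp [U_add_two, ih.1, ih.2]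

theorem map_U {S : Type*} [CommRing S] (φ : R →+* S) (a f : R) (m : ℕ) :
    φ (U a f m) = U (φ a) (φ f) m := (map_UD φ a f m).1

theorem map_DD {S : Type*} [CommRing S] (φ : R →+* S) (a f : R) (m : ℕ) :
    φ (D a f m) = D (φ a) (φ f) m ∧ φ (D a f (m + 1)) = D (φ a) (φ f) (m + 1) := by
  induction m with
  | zero => simp [map_ofNat]
  | succ m ih => refine ⟨ih.2, ?_⟩; simp [D_add_two, ih.1, ih.2]

theorem map_D {S : Type*} [CommRing S] (φ : R →+* S) (a f : R) (m : ℕ) :
    φ (D a f m) = D (φ a) (φ f) m := (map_DD φ a f m).1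

theorem U_sq (a f : R) (m : ℕ) :
    U a f (m + 1) ^ 2 - U a f (m + 2) * U a f m = f ^ (m + 1) := by
  induction m with
  | zero => simp [U_add_two]; ring
  | succ m ih =>
    rw [U_add_two a f (m + 1), pow_succ f, ← ih, U_add_two a f m]
    ring

theorem D_eq_U (a f : R) (m : ℕ) : D a f (m + 1) = a * U a f m - 2 * f * (if m = 0 then 0 else U a f (m - 1)) := by
  induction m using Nat.strong_induction_on with
  | _ m ih =>
    match m with
    | 0 => simp
    | 1 => simp [D_add_two]; ring
    | (m + 2) =>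
      have h1 := ih (m + 1) (by omega)
      have h0 := ih m (by omega)
      rw [D_add_two, h1, h0]
      rcases m with _ | m
      · simp [U_add_two]; ring
      · simp [U_add_two]
        ring

theorem D_eq_U' (a f : R) (m : ℕ) : D a f (m + 2) = a * U a f (m + 1) - 2 * f * U a f m := by
  have := D_eq_U a f (m + 1)
  simpa using this

/-- The Pell type identity. -/
theorem pell (a f : R) (m : ℕ) :
    D a f (m + 1) ^ 2 - (a ^ 2 - 4 * f) * U a f m ^ 2 = 4 * f ^ (m + 1) := by
  rcases m with _ | m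
  · simp
  · rw [D_eq_U', pow_succ f, ← U_sq a f m, U_add_two a f m]
    ring

theorem D_double (a f : R) (h : a ^ 2 = 4 * f) (m : ℕ) :
    2 ^ m * D a f (m + 1) = a ^ (m + 1) ∧ 2 ^ (m + 1) * D a f (m + 2) = a ^ (m + 2) := by
  induction m with
  | zero => constructor
            · simp
            · simp [D_add_two]; linear_combination h
  | succ m ih =>
    refine ⟨ih.2, ?_⟩
    rw [D_add_two]
    have h1 := ih.1
    have h2 := ih.2
    linear_combination (2 * a) * h2 - 4 * f * h1 + a ^ (m + 1) * h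

/-- Explicit formulas. -/
theorem U_explicit (a f : R) (n : ℕ) :
    U a f (2 * n) = ∑ k ∈ range (n + 1), ((n + k).choose (2 * k) : R) * a ^ (2 * k) * (-f) ^ (n - k)
    ∧ U a f (2 * n + 1) = ∑ k ∈ range (n + 1),
        ((n + k + 1).choose (2 * k + 1) : R) * a ^ (2 * k + 1) * (-f) ^ (n - k) := by
  induction n with
  | zero => simp
  | succ n ih =>
    obtain ⟨h0, h1⟩ := ih
    have e1 : U a f (2 * (n + 1)) = ∑ k ∈ range (n + 1 + 1),
        ((n + 1 + k).choose (2 * k) : R) * a ^ (2 * k) * (-f) ^ (n + 1 - k) := by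
      rw [show 2 * (n + 1) = 2 * n + 2 by ring, U_add_two, h0, h1,
        sum_range_succ' (fun k => ((n + 1 + k).choose (2 * k) : R) * a ^ (2 * k)
          * (-f) ^ (n + 1 - k)) (n + 1)]
      have A : ∑ k ∈ range (n + 1), ((n + 1 + (k + 1)).choose (2 * (k + 1)) : R) * a ^ (2 * (k + 1))
            * (-f) ^ (n + 1 - (k + 1))
          = a * (∑ k ∈ range (n + 1), ((n + k + 1).choose (2 * k + 1) : R) * a ^ (2 * k + 1)
              * (-f) ^ (n - k))
            + ∑ k ∈ range (n + 1), ((n + (k + 1)).choose (2 * (k + 1)) : R) * a ^ (2 * (k + 1))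
              * (-f) ^ (n + 1 - (k + 1)) := by
        rw [mul_sum, ← sum_add_distrib]
        refine sum_congr rfl fun k _ => ?_
        rw [show n + 1 + (k + 1) = (n + k + 1) + 1 by ring,
          show 2 * (k + 1) = (2 * k + 1) + 1 by ring, Nat.choose_succ_succ,
          show n + (k + 1) = n + k + 1 by ring, show n + 1 - (k + 1) = n - k by omega]
        push_cast
        ring
      have B : ∑ k ∈ range (n + 1), ((n + (k + 1)).choose (2 * (k + 1)) : R) * a ^ (2 * (k + 1))
              * (-f) ^ (n + 1 - (k + 1)) + (-f) ^ (n + 1)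
            = (-f) * ∑ k ∈ range (n + 1), ((n + k).choose (2 * k) : R) * a ^ (2 * k)
              * (-f) ^ (n - k) := by
        have B1 := sum_range_succ' (fun k => ((n + k).choose (2 * k) : R) * a ^ (2 * k)
              * (-f) ^ (n + 1 - k)) (n + 1)
        have B2 := sum_range_succ (fun k => ((n + k).choose (2 * k) : R) * a ^ (2 * k)
              * (-f) ^ (n + 1 - k)) (n + 1)
        rw [Nat.choose_eq_zero_of_lt (by omega : n + (n + 1) < 2 * (n + 1))] at B2
        simp only [Nat.cast_zero, zero_mul, add_zero, mul_zero, Nat.choose_zero_right,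
          Nat.cast_one, pow_zero, mul_one, one_mul, Nat.sub_zero] at B1 B2
        rw [← B1, B2, mul_sum]
        refine sum_congr rfl fun k hk => ?_
        rw [mem_range] at hk
        rw [show n + 1 - k = (n - k) + 1 by omega, pow_succ]
        ring
      rw [A]
      simp only [mul_zero, Nat.choose_zero_right, Nat.cast_one, pow_zero, mul_one, one_mul,
        Nat.sub_zero, add_zero]
      rw [add_assoc, B]
      ring
    refine ⟨e1, ?_⟩
    rw [show 2 * (n + 1) + 1 = (2 * n + 1) + 2 by ring, U_add_two,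
      show 2 * n + 1 + 1 = 2 * (n + 1) by ring, e1, h1]
    have A : ∑ k ∈ range (n + 1 + 1), ((n + 1 + k + 1).choose (2 * k + 1) : R) * a ^ (2 * k + 1)
            * (-f) ^ (n + 1 - k)
          = a * (∑ k ∈ range (n + 1 + 1), ((n + 1 + k).choose (2 * k) : R) * a ^ (2 * k)
              * (-f) ^ (n + 1 - k))
            + ∑ k ∈ range (n + 1 + 1), ((n + k + 1).choose (2 * k + 1) : R) * a ^ (2 * k + 1)
              * (-f) ^ (n + 1 - k) := by
      rw [mul_sum, ← sum_add_distrib]
      refine sum_congr rfl fun k _ => ?_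
      rw [Nat.choose_succ_succ, show n + 1 + k = n + k + 1 by ring]
      push_cast
      ring
    rw [A, sum_range_succ (fun k => ((n + k + 1).choose (2 * k + 1) : R) * a ^ (2 * k + 1)
              * (-f) ^ (n + 1 - k)) (n + 1),
      Nat.choose_eq_zero_of_lt (by omega : n + (n + 1) + 1 < 2 * (n + 1) + 1)]
    simp only [Nat.cast_zero, zero_mul, add_zero]
    have B : ∑ k ∈ range (n + 1), ((n + k + 1).choose (2 * k + 1) : R) * a ^ (2 * k + 1)
              * (-f) ^ (n + 1 - k) = (-f) * ∑ k ∈ range (n + 1),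
              ((n + k + 1).choose (2 * k + 1) : R) * a ^ (2 * k + 1) * (-f) ^ (n - k) := by
      rw [mul_sum]
      refine sum_congr rfl fun k hk => ?_
      rw [mem_range] at hk
      rw [show n + 1 - k = (n - k) + 1 by omega, pow_succ]
      ring
    rw [B]
    ring

open Polynomial in
theorem D_derivative (a e : R[X]) (m : ℕ) :
    (e * derivative (D a (e ^ 2) (m + 1)) = ((m + 1 : ℕ) : R[X]) * (derivative e * D a (e ^ 2) (m + 1)
      - (a * derivative e - derivative a * e) * U a (e ^ 2) m)) ∧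
    (e * derivative (D a (e ^ 2) (m + 2)) = ((m + 2 : ℕ) : R[X]) * (derivative e * D a (e ^ 2) (m + 2)
      - (a * derivative e - derivative a * e) * U a (e ^ 2) (m + 1))) := by
  induction m with
  | zero =>
    constructor
    · simp; ring
    · have h2 : (C 2 : R[X]) = 2 := map_ofNat C 2
      simp [D_add_two, derivative_pow, h2]
      ring
  | succ m ih =>
    refine ⟨ih.2, ?_⟩
    have h1 := ih.1
    have h2 := ih.2
    rw [D_add_two a (e ^ 2) (m + 1)]
    have h3 : D a (e ^ 2) (m + 1 + 1) = a * U a (e ^ 2) (m + 1) - 2 * e ^ 2 * U a (e ^ 2) m :=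
      D_eq_U' a (e ^ 2) m
    have h4 : D a (e ^ 2) (m + 1 + 1) = D a (e ^ 2) (m + 2) := rfl
    have h5 := U_add_two a (e ^ 2) m
    simp only [derivative_sub, derivative_mul, derivative_pow, Nat.cast_ofNat]
    push_cast at h1 h2 ⊢
    rw [show m + 1 + 1 = m + 2 from rfl] at h3 ⊢
    rw [U_add_two a (e ^ 2) m, show (e ^ (2 - 1) : R[X]) = e by norm_num, C_ofNat]
    linear_combination a * h2 - e ^ 2 * h1 + (-(a * derivative e) + derivative a * e) * h3

end H27Tri
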