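import Pool.Agent.Helper27.Tri.GPoly

/-!
# Evaluation of `γ` and of a difference of harmonic numbers
-/

open Finset

namespace H27Tri

variable {F : Type*} [Field F]

/-- Harmonic numbers in a field. -/
def har (F : Type*) [Field F] (k : ℕ) : F := ∑ i ∈ range k, (1 : F) / ((i : F) + 1)

theorem har_zero : har F 0 = 0 := by simp [har]

theorem har_succ (k : ℕ) : har F (k + 1) = har F k + 1 / ((k : F) + 1) := by
  simp [har, sum_range_succ]

/-- `A(n,M) = ∑_{m ≠ M} (-1)^m C(n,m)/(m-M)`. -/
def Asum (F : Type*) [Field F] (n M : ℕ) : F :=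
  ∑ m ∈ range (n + 1), if m = M then 0 else (-1) ^ m * (n.choose m : F) / ((m : F) - (M : F))

theorem Asum_succ (n M : ℕ) : Asum F (n + 1) (M + 1) = Asum F n (M + 1) - Asum F n M := by
  unfold Asum
  rw [sum_range_succ' _ (n + 1)]
  have h1 := sum_range_succ (fun m => if m = M + 1 then (0 : F) else (-1) ^ m * (n.choose m : F)
    / ((m : F) - ((M + 1 : ℕ) : F))) (n + 1)
  have h2 := sum_range_succ' (fun m => if m = M + 1 then (0 : F) else (-1) ^ m * (n.choose m : F)
    / ((m : F) - ((M + 1 : ℕ) : F))) (n + 1)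
  rw [h1] at h2
  have h3 : (if n + 1 = M + 1 then (0 : F) else (-1) ^ (n + 1) * (n.choose (n + 1) : F)
    / (((n + 1 : ℕ) : F) - ((M + 1 : ℕ) : F))) = 0 := by
    rw [Nat.choose_succ_self]; simp
  rw [h3, add_zero] at h2
  rw [h2, eq_sub_iff_add_eq, add_assoc, add_comm _ (∑ m ∈ range (n + 1), _), ← add_assoc,
    ← sum_add_distrib]
  congr 1
  · refine sum_congr rfl fun m _ => ?_
    by_cases hm : m = M
    · simp [hm]
    · rw [if_neg (by omega), if_neg hm, if_neg (by omega), Nat.choose_succ_succ]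
      push_cast
      rw [show ((m : F) + 1 - ((M : F) + 1)) = (m : F) - M by ring, pow_succ]
      ring
  · simp

theorem Asum_zero (n : ℕ) (hn : ∀ m : ℕ, 0 < m → m ≤ n → (m : F) ≠ 0) :
    Asum F n 0 = - har F n := by
  induction n with
  | zero => simp [Asum, har]
  | succ n ih =>
    have ih' := ih (fun m h1 h2 => hn m h1 (by omega))
    have e1 : Asum F (n + 1) 0 = Asum F n 0
        - ∑ m ∈ range (n + 1), (-1) ^ m * (n.choose m : F) / ((m : F) + 1) := by
      unfold Asum
      rw [sum_range_succ' _ (n + 1)]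
      have h1 := sum_range_succ (fun m => if m = 0 then (0 : F) else (-1) ^ m * (n.choose m : F)
        / ((m : F) - ((0 : ℕ) : F))) (n + 1)
      have h2 := sum_range_succ' (fun m => if m = 0 then (0 : F) else (-1) ^ m * (n.choose m : F)
        / ((m : F) - ((0 : ℕ) : F))) (n + 1)
      rw [h1, Nat.choose_succ_self] at h2
      simp only [Nat.cast_zero, mul_zero, zero_div, ite_self, add_zero, if_true] at h2
      simp only [Nat.cast_zero, if_true, add_zero]
      rw [h2, ← sum_sub_distrib]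
      refine sum_congr rfl fun m _ => ?_
      rw [if_neg (by omega), Nat.choose_succ_succ, pow_succ]
      push_cast
      rw [sub_zero]
      ring
    have h0 : (((n + 1 : ℕ) : F)) ≠ 0 := hn (n + 1) (by omega) le_rfl
    have e2 : ∑ m ∈ range (n + 1), (-1) ^ m * (n.choose m : F) / ((m : F) + 1)
        = 1 / ((n : F) + 1) := by
      have h3 : ∀ m ∈ range (n + 1), (-1 : F) ^ m * (n.choose m : F) / ((m : F) + 1)
          = (-1) ^ m * ((n + 1).choose (m + 1) : F) / ((n : F) + 1) := by
        intro m hm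
        rw [mem_range] at hm
        have hm0 : ((m + 1 : ℕ) : F) ≠ 0 := hn (m + 1) (by omega) (by omega)
        have h4 : ((n + 1 : ℕ) : F) * (n.choose m : F) = ((n + 1).choose (m + 1) : F) * ((m + 1 : ℕ) : F) := by
          exact_mod_cast congrArg (Nat.cast : ℕ → F) (Nat.add_one_mul_choose_eq n m)
        push_cast at h4 h0 hm0
        rw [div_eq_div_iff hm0 h0]
        linear_combination (-1) ^ m * h4
      rw [sum_congr rfl h3, ← sum_div]
      congr 1
      have h5 : ∑ m ∈ range (n + 1 + 1), (-1 : F) ^ m * ((n + 1).choose m : F) = 0 := by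
        have := Int.alternating_sum_range_choose_of_ne (n := n + 1) (by omega)
        exact_mod_cast congrArg (Int.cast : ℤ → F) this
      rw [sum_range_succ'] at h5
      simp only [pow_zero, Nat.choose_zero_right, Nat.cast_one, mul_one] at h5
      have h6 : ∑ m ∈ range (n + 1), (-1 : F) ^ (m + 1) * ((n + 1).choose (m + 1) : F)
          = - ∑ m ∈ range (n + 1), (-1 : F) ^ m * ((n + 1).choose (m + 1) : F) := by
        rw [← sum_neg_distrib]
        refine sum_congr rfl fun m _ => by rw [pow_succ]; ring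
      rw [h6] at h5
      linear_combination -h5
    rw [e1, e2, ih', har_succ]
    ring

/-- The boundary value. -/
theorem Asum_bdry (n : ℕ) (hn : ∀ m : ℕ, 0 < m → m ≤ n + 1 → (m : F) ≠ 0) :
    Asum F n (n + 1) = (-1) ^ (n + 1) / ((n : F) + 1) := by
  have h0 : (((n + 1 : ℕ) : F)) ≠ 0 := hn (n + 1) (by omega) le_rfl
  have e1 : Asum F (n + 1) 0 = Asum F n 0
        - ∑ m ∈ range (n + 1), (-1) ^ m * (n.choose m : F) / ((m : F) + 1) := by
    unfold Asum
    rw [sum_range_succ' _ (n + 1)]
    have h1 := sum_range_succ (fun m => if m = 0 then (0 : F) else (-1) ^ m * (n.choose m : F)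
      / ((m : F) - ((0 : ℕ) : F))) (n + 1)
    have h2 := sum_range_succ' (fun m => if m = 0 then (0 : F) else (-1) ^ m * (n.choose m : F)
      / ((m : F) - ((0 : ℕ) : F))) (n + 1)
    rw [h1, Nat.choose_succ_self] at h2
    simp only [Nat.cast_zero, mul_zero, zero_div, ite_self, add_zero, if_true] at h2
    simp only [Nat.cast_zero, if_true, add_zero]
    rw [h2, ← sum_sub_distrib]
    refine sum_congr rfl fun m _ => ?_
    rw [if_neg (by omega), Nat.choose_succ_succ, pow_succ]
    push_cast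
    rw [sub_zero]
    ring
  rw [Asum_zero (n + 1) hn, Asum_zero n (fun m h1 h2 => hn m h1 (by omega)), har_succ] at e1
  have e2 : ∑ m ∈ range (n + 1), (-1) ^ m * (n.choose m : F) / ((m : F) + 1)
      = 1 / ((n : F) + 1) := by linear_combination e1
  unfold Asum
  rw [← sum_range_reflect]
  have h3 : ∀ m ∈ range (n + 1), (if n + 1 - 1 - m = n + 1 then (0 : F) else
      (-1) ^ (n + 1 - 1 - m) * (n.choose (n + 1 - 1 - m) : F) / (((n + 1 - 1 - m : ℕ) : F) - ((n + 1 : ℕ) : F)))
      = (-1) ^ (n + 1) * ((-1) ^ m * (n.choose m : F) / ((m : F) + 1)) := by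
    intro m hm
    rw [mem_range] at hm
    rw [if_neg (by omega), show n + 1 - 1 - m = n - m by omega, Nat.choose_symm (by omega),
      Nat.cast_sub (by omega)]
    have h4 : (-1 : F) ^ n = (-1) ^ (n - m) * (-1) ^ m := by rw [← pow_add]; congr 1; omega
    have h5 : ((-1 : F) ^ m) * (-1) ^ m = 1 := by rw [← mul_pow]; simp
    push_cast
    rw [show ((n : F) - m - (n + 1)) = -((m : F) + 1) by ring, div_neg, pow_succ, h4]
    linear_combination ((-1 : F) ^ (n - m) * (n.choose m : F) / ((m : F) + 1)) * h5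
  rw [sum_congr rfl h3, ← mul_sum, e2]
  ring

theorem Asum_eq (n : ℕ) (hn : ∀ m : ℕ, 0 < m → m ≤ n → (m : F) ≠ 0) (M : ℕ) (hM : M ≤ n) :
    Asum F n M = (-1) ^ M * (n.choose M : F) * (har F M - har F (n - M)) := by
  induction n generalizing M with
  | zero =>
    obtain rfl : M = 0 := by omega
    simp [Asum]
  | succ n ih =>
    rcases M with _ | M
    · rw [Asum_zero _ hn]; simp [har_zero]
    · have hn' : ∀ m : ℕ, 0 < m → m ≤ n → (m : F) ≠ 0 := fun m h1 h2 => hn m h1 (by omega)
      rw [Asum_succ]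
      have hMne : ((M + 1 : ℕ) : F) ≠ 0 := hn (M + 1) (by omega) hM
      rcases Nat.lt_or_ge M n with h | h
      · rw [ih hn' (M + 1) (by omega), ih hn' M (by omega), har_succ]
        obtain ⟨j, hj⟩ : ∃ j, n = M + 1 + j := ⟨n - (M + 1), by omega⟩
        have e1 : n - (M + 1) = j := by omega
        have e2 : n - M = j + 1 := by omega
        have e3 : n + 1 - (M + 1) = j + 1 := by omega
        have hjne : ((j + 1 : ℕ) : F) ≠ 0 := hn' (j + 1) (by omega) (by omega)
        rw [e1, e2, e3, har_succ, Nat.choose_succ_succ]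
        have h4 : ((M + 1 : ℕ) : F) * (n.choose (M + 1) : F) = ((j + 1 : ℕ) : F) * (n.choose M : F) := by
          have := Nat.choose_succ_right_eq n M
          rw [e2] at this
          have h5 := congrArg (Nat.cast : ℕ → F) this
          push_cast at h5 ⊢
          linear_combination h5
        have h6 : (n.choose (M + 1) : F) / ((j : F) + 1) = (n.choose M : F) / ((M : F) + 1) := by
          push_cast at hjne hMne h4
          rw [div_eq_div_iff hjne hMne]
          linear_combination h4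
        push_cast
        rw [pow_succ]
        linear_combination ((-1 : F) ^ M * (-1)) * h6
      · obtain rfl : M = n := by omega
        rw [ih hn' M le_rfl, Asum_bdry M (fun m h1 h2 => hn m h1 (by omega)), har_succ]
        simp [har_zero, pow_succ]
        ring

theorem gam_eq (p n M : ℕ) [CharP F p] (hp : p = 2 * n + 1) (hM : p = 3 * M + 1) (hM0 : 0 < M) :
    3 * gam F n M = (-1) ^ M * (n.choose M : F) * (har F M - har F (n - M)) := by
  have hne : ∀ m : ℕ, 0 < m → m < p → (m : F) ≠ 0 := by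
    intro m h1 h2 h0
    rw [CharP.cast_eq_zero_iff F p] at h0
    have := Nat.le_of_dvd h1 h0
    omega
  have h3 : (3 : F) ≠ 0 := by
    have := hne 3 (by norm_num) (by omega)
    exact_mod_cast this
  rw [← Asum_eq n (fun m h1 h2 => hne m h1 (by omega)) M (by omega)]
  unfold gam Asum
  have hMn : M ∈ range (n + 1) := by rw [mem_range]; omega
  rw [← sum_erase_add _ _ hMn, if_pos rfl, add_zero, mul_sum]
  refine sum_congr rfl fun m hm => ?_
  have hm0 := cast_ne_zero_aux (F := F) p n M hp hM hm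
  rw [mem_erase] at hm
  rw [if_neg hm.1]
  have hpc : (3 : F) * M + 1 = 0 := by
    have : ((3 * M + 1 : ℕ) : F) = 0 := by rw [← hM, CharP.cast_eq_zero]
    push_cast at this; exact this
  have h4 : ((3 * m + 1 : ℕ) : F) = 3 * ((m : F) - M) := by
    push_cast
    linear_combination hpc
  rw [h4] at hm0 ⊢
  have h5 : ((m : F) - M) ≠ 0 := fun h => hm0 (by rw [h, mul_zero])
  field_simp

theorem har_two_mul (K : ℕ) (h2 : (2 : F) ≠ 0) :
    ∑ i ∈ range (2 * K), (-1 : F) ^ i / ((i : F) + 1) = har F (2 * K) - har F K := by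
  induction K with
  | zero => simp [har]
  | succ K ih =>
    rw [show 2 * (K + 1) = 2 * K + 1 + 1 by ring, sum_range_succ, sum_range_succ, ih, har_succ,
      har_succ, har_succ K]
    have h3 : (-1 : F) ^ (2 * K) = 1 := by rw [pow_mul]; simp
    have h4 : (-1 : F) ^ (2 * K + 1) = -1 := by rw [pow_succ, h3]; ring
    have h5 : (1 : F) / ((K : F) + 1) = 2 * (1 / (((2 * K + 1 : ℕ) : F) + 1)) := by
      push_cast
      rw [show (2 * (K : F) + 1 + 1) = 2 * ((K : F) + 1) by ring]
      by_cases h0 : (K : F) + 1 = 0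
      · rw [h0]; simp
      · field_simp
    rw [h3, h4, h5]
    push_cast
    ring

/-- Sums of binomial coefficients over a residue class modulo 3. -/
theorem choose_mod3 (K : ℕ) :
    3 * ∑ j ∈ range (6 * K + 2), ((6 * K + 1).choose j : ℤ) * (if j % 3 = 0 then 1 else 0)
      = 2 ^ (6 * K + 1) + 1 := by
  obtain ⟨f, hf⟩ : ∃ f : ℕ → ℕ → ℤ, ∀ r j, f r j = if (j + r) % 3 = 0 then 1 else 0 := ⟨_, fun _ _ => rfl⟩
  obtain ⟨s, hs⟩ : ∃ s : ℕ → ℕ → ℤ, ∀ N r, s N r = ∑ j ∈ range (N + 1), (N.choose j : ℤ) * f r j :=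
    ⟨_, fun _ _ => rfl⟩
  have hper : ∀ N r, s N (r + 3) = s N r := by
    intro N r
    rw [hs, hs]
    refine sum_congr rfl fun j _ => ?_
    rw [hf, hf, show j + (r + 3) = j + r + 3 by ring, Nat.add_mod_right]
  have hrec : ∀ N r, s (N + 1) r = s N r + s N (r + 1) := by
    intro N r
    rw [hs, hs, hs]
    have := sum_choose_succ_mul (fun i _ => f r i) N
    rw [this]
    congr 1
    refine sum_congr rfl fun j _ => ?_
    rw [hf, hf, show j + 1 + r = j + (r + 1) by ring]
  have h0 : ∀ K : ℕ, 3 * s (6 * K) 0 = 2 ^ (6 * K) + 2 ∧ 3 * s (6 * K) 1 = 2 ^ (6 * K) - 1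
      ∧ 3 * s (6 * K) 2 = 2 ^ (6 * K) - 1 := by
    intro K
    induction K with
    | zero => simp [hs, hf]
    | succ K ih =>
      obtain ⟨a, b, c⟩ := ih
      have p0 := hper (6 * K) 0
      have e : ∀ r, s (6 * (K + 1)) r = s (6 * K) r + 6 * s (6 * K) (r + 1) + 15 * s (6 * K) (r + 2)
          + 20 * s (6 * K) (r + 3) + 15 * s (6 * K) (r + 4) + 6 * s (6 * K) (r + 5)
          + s (6 * K) (r + 6) := by
        intro r
        rw [show 6 * (K + 1) = 6 * K + 1 + 1 + 1 + 1 + 1 + 1 by ring]
        simp only [hrec]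
        ring_nf
      have q1 := hper (6 * K) 1
      have q2 := hper (6 * K) 2
      have q3 := hper (6 * K) 3
      have q4 := hper (6 * K) 4
      have q5 := hper (6 * K) 5
      norm_num at p0 q1 q2 q3 q4 q5
      have e0 := e 0
      have e1 := e 1
      have e2 := e 2
      norm_num at e0 e1 e2
      rw [show 6 * (K + 1) = 6 * K + 6 by ring] at *
      rw [pow_add]
      refine ⟨?_, ?_, ?_⟩ <;> linarith
  have h1 := h0 K
  have h2 := hrec (6 * K) 0
  rw [hs] at h2
  have h3 : ∑ j ∈ range (6 * K + 2), ((6 * K + 1).choose j : ℤ) * (if j % 3 = 0 then 1 else 0)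
      = s (6 * K) 0 + s (6 * K) (0 + 1) := by
    rw [← h2]
    refine sum_congr rfl fun j _ => ?_
    rw [hf, add_zero]
  rw [h3, pow_succ]
  norm_num
  linarith [h1.1, h1.2.1]

theorem sum_mod3 (g : ℕ → ℤ) (L : ℕ) :
    ∑ j ∈ range (3 * L + 2), g j * (if j % 3 = 0 then 1 else 0) = ∑ i ∈ range (L + 1), g (3 * i) := by
  induction L with
  | zero => simp [sum_range_succ]
  | succ L ih =>
    rw [show 3 * (L + 1) + 2 = 3 * L + 2 + 1 + 1 + 1 by ring, sum_range_succ, sum_range_succ,
      sum_range_succ, ih, sum_range_succ _ (L + 1), if_neg (by omega), if_pos (by omega),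
      if_neg (by omega), show 3 * L + 2 + 1 = 3 * (L + 1) by ring]
    ring

theorem choose_pred_prime (p : ℕ) [Fact p.Prime] (k : ℕ) (hk : k < p) :
    (((p - 1).choose k : ℕ) : ZMod p) = (-1) ^ k := by
  have hp : p.Prime := Fact.out
  induction k with
  | zero => simp
  | succ k ih =>
    have h1 := ih (by omega)
    have h2 : p.choose (k + 1) = (p - 1).choose k + (p - 1).choose (k + 1) := by
      obtain ⟨m, hm⟩ : ∃ m, p = m + 1 := ⟨p - 1, by omega⟩
      rw [hm, Nat.add_sub_cancel, Nat.choose_succ_succ]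
    have h3 : ((p.choose (k + 1) : ℕ) : ZMod p) = 0 := by
      rw [ZMod.natCast_eq_zero_iff]
      exact hp.dvd_choose_self (by omega) hk
    rw [h2] at h3
    push_cast at h3
    rw [pow_succ]
    linear_combination h3 - h1

theorem har_diff (p K : ℕ) [Fact p.Prime] (hp : p = 6 * K + 1) (hK : 0 < K) (q : ℤ)
    (hq : (2 : ℤ) ^ (p - 1) = 1 + p * q) :
    har (ZMod p) (2 * K) - har (ZMod p) K = 2 * (q : ZMod p) := by
  have hpr : p.Prime := Fact.out
  have hne : ∀ m : ℕ, 0 < m → m < p → (m : ZMod p) ≠ 0 := by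
    intro m h1 h2 h0
    rw [ZMod.natCast_eq_zero_iff] at h0
    have := Nat.le_of_dvd h1 h0
    omega
  have h2 : (2 : ZMod p) ≠ 0 := by
    have := hne 2 (by norm_num) (by omega)
    exact_mod_cast this
  have h3 : (3 : ZMod p) ≠ 0 := by
    have := hne 3 (by norm_num) (by omega)
    exact_mod_cast this
  rw [← har_two_mul K h2]
  -- the integers `t i`
  have ht : ∀ i : ℕ, ∃ t : ℤ, i ∈ range (2 * K) → (p.choose (3 * (i + 1)) : ℤ) = p * t := by
    intro i
    by_cases hi : i ∈ range (2 * K)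
    · rw [mem_range] at hi
      obtain ⟨t, ht⟩ := hpr.dvd_choose_self (k := 3 * (i + 1)) (by omega) (by omega)
      exact ⟨t, fun _ => by rw [ht]; push_cast; ring⟩
    · exact ⟨0, fun h => absurd h hi⟩
  choose t ht using ht
  have hp0 : (p : ℤ) ≠ 0 := by exact_mod_cast hpr.ne_zero
  have hsum : 3 * ∑ i ∈ range (2 * K), t i = 2 * q := by
    have h4 := choose_mod3 K
    rw [show 6 * K + 2 = 3 * (2 * K) + 2 by ring,
      sum_mod3 (fun j => ((6 * K + 1).choose j : ℤ)) (2 * K), sum_range_succ', ← hp] at h4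
    rw [sum_congr rfl (fun i hi => ht i hi), ← mul_sum] at h4
    have h5 : (2 : ℤ) ^ p = 2 * 2 ^ (p - 1) := by
      rw [← pow_succ', Nat.sub_add_cancel hpr.one_lt.le]
    rw [h5, hq] at h4
    simp only [mul_zero, Nat.choose_zero_right, Nat.cast_one] at h4
    have h6 : (p : ℤ) * (3 * ∑ i ∈ range (2 * K), t i) = p * (2 * q) := by linarith
    exact mul_left_cancel₀ hp0 h6
  have hterm : ∀ i ∈ range (2 * K), (-1 : ZMod p) ^ i / ((i : ZMod p) + 1) = 3 * (t i : ZMod p) := by
    intro i hi
    have h4 := ht i hi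
    rw [mem_range] at hi
    have h5 : (p : ℤ) * ((p - 1).choose (3 * i + 2) : ℤ) = (p : ℤ) * (t i * (3 * (i + 1) : ℕ)) := by
      have := Nat.add_one_mul_choose_eq (p - 1) (3 * i + 2)
      rw [Nat.sub_add_cancel hpr.one_lt.le, show 3 * i + 2 + 1 = 3 * (i + 1) by ring] at this
      have h6 := congrArg (Nat.cast : ℕ → ℤ) this
      push_cast at h6 ⊢
      rw [h6, h4]
      ring
    have h6 := mul_left_cancel₀ hp0 h5
    have h7 := congrArg (Int.cast : ℤ → ZMod p) h6
    rw [Int.cast_natCast, choose_pred_prime p (3 * i + 2) (by omega)] at h7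
    push_cast at h7
    have h8 : (-1 : ZMod p) ^ (3 * i + 2) = (-1) ^ i := by
      rw [show 3 * i + 2 = 2 * (i + 1) + i by ring, pow_add, pow_mul]; simp
    rw [h8] at h7
    have h9 : ((i + 1 : ℕ) : ZMod p) ≠ 0 := hne (i + 1) (by omega) (by omega)
    push_cast at h9
    rw [div_eq_iff h9, h7]
    ring
  rw [sum_congr rfl hterm, ← mul_sum]
  have := congrArg (Int.cast : ℤ → ZMod p) hsum
  push_cast at this
  exact this

end H27Tri
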