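import Pool.Agent.Helper27.Tri.IntZ

/-!
# The integral polynomial `Z` for the pair `(4,-3)`
-/

open Polynomial Finset

namespace H27Tri

theorem exists_Z43 (p n : ℕ) [Fact p.Prime] (hp : p = 2 * n + 1) (q : ℤ)
    (hq : (2 : ℤ) ^ (p - 1) = 1 + p * q) :
    ∃ Z : ℤ[X], D (1 + 2 * X : ℤ[X]) (X ^ 2) p - 1 - 2 * X ^ p = C (p : ℤ) * Z ∧
      U (1 + 2 * X : (ZMod p)[X]) (X ^ 2) (p - 1) = (1 + 4 * X) ^ n ∧
      X * derivative (Z.map (Int.castRingHom (ZMod p))) = 1 - (1 + 4 * X) ^ n ∧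
      (Z.map (Int.castRingHom (ZMod p))).natDegree ≤ p - 1 ∧
      ∀ x : ZMod p, 1 + 4 * x = 0 →
        (Z.map (Int.castRingHom (ZMod p))).eval x = - (2 * (q : ZMod p)) := by
  have hpr : p.Prime := Fact.out
  have hp0 : (p : ℤ) ≠ 0 := by exact_mod_cast hpr.ne_zero
  have hodd : Odd p := ⟨n, hp⟩
  set φ : ℤ[X] →+* (ZMod p)[X] := mapRingHom (Int.castRingHom (ZMod p)) with hφ
  have hφX : φ X = X := by simp [hφ]
  have h2p : (2 : (ZMod p)[X]) ^ p = 2 := by simpa using pow_p_int_map p 2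
  have hap : (1 + 2 * X : (ZMod p)[X]) ^ p = 1 + 2 * X ^ p := by
    rw [add_pow_char, one_pow, mul_pow, h2p]
  have hφD : φ (D (1 + 2 * X : ℤ[X]) (X ^ 2) p) = 1 + 2 * X ^ p := by
    rw [map_D]
    simp only [map_add, map_sub, map_mul, map_pow, map_one, map_ofNat, hφX]
    rw [D_charP p, hap]
  obtain ⟨Z, hZ⟩ := exists_div p (D (1 + 2 * X : ℤ[X]) (X ^ 2) p - 1 - 2 * X ^ p) (by
    change φ _ = 0
    rw [map_sub, map_sub, hφD]
    simp only [map_add, map_sub, map_mul, map_pow, map_one, map_ofNat, hφX]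
    ring)
  have h2ne : (2 : ZMod p) ≠ 0 := by
    intro h0
    have : ((2 : ℕ) : ZMod p) = 0 := by exact_mod_cast h0
    rw [ZMod.natCast_eq_zero_iff] at this
    have := Nat.le_of_dvd (by norm_num) this
    have := hpr.two_le
    omega
  have hU : U (1 + 2 * X : (ZMod p)[X]) (X ^ 2) (p - 1) = (1 + 4 * X) ^ n := by
    have hQ : ((1 + 2 * X) ^ 2 - 4 * X ^ 2 : (ZMod p)[X]) = 1 + 4 * X := by ring
    have hQ0 : ((1 + 2 * X) ^ 2 - 4 * X ^ 2 : (ZMod p)[X]) ≠ 0 := by
      rw [hQ]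
      intro h
      have := congrArg (eval 0) h
      simp at this
    have h1 := U_charP p hodd (1 + 2 * X : (ZMod p)[X]) X hQ0
    rw [hQ, show (p - 1) / 2 = n by omega] at h1
    rcases h1 with h1 | h1
    · exact h1
    · exfalso
      have h3 : (evalRingHom (0 : ZMod p)) (U (1 + 2 * X : (ZMod p)[X]) (X ^ 2) (p - 1)) = 1 := by
        rw [map_U]
        simp [U_zero_arg]
      rw [h1] at h3
      simp at h3
      apply h2ne
      linear_combination -h3
  refine ⟨Z, hZ, hU, ?_, ?_, ?_⟩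
  · have hCp : (C ((p : ℕ) : ℤ) : ℤ[X]) = (p : ℤ[X]) := map_natCast C p
    have hP0 : (p : ℤ[X]) ≠ 0 := by rw [← hCp]; exact C_ne_zero.mpr hp0
    have hd := (D_derivative (1 + 2 * X : ℤ[X]) X (p - 1)).1
    rw [Nat.sub_add_cancel hpr.one_lt.le] at hd
    have hdZ := congrArg derivative hZ
    have e3 : derivative ((2 : ℤ[X]) * X ^ p) = (p : ℤ[X]) * (2 * X ^ (p - 1)) := by
      rw [derivative_mul, derivative_X_pow, derivative_ofNat, hCp]
      ring
    rw [derivative_sub, derivative_sub, derivative_one, e3, derivative_C_mul, hCp] at hdZ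
    have e5 : ((1 + 2 * X) * derivative X
      - derivative (1 + 2 * X) * X : ℤ[X]) = 1 := by
      simp
    rw [e5, derivative_X] at hd
    set DD := D (1 + 2 * X : ℤ[X]) (X ^ 2) p with hDD
    set UU := U (1 + 2 * X : ℤ[X]) (X ^ 2) (p - 1) with hUU
    have key : X * derivative Z = DD - UU - 2 * (X * X ^ (p - 1)) := by
      apply mul_left_cancel₀ hP0
      linear_combination (-X) * hdZ + hd
    have key2 := congrArg φ key
    have hφD' : φ DD = 1 + 2 * X ^ p := hφD
    have hφU : φ UU = (1 + 4 * X) ^ n := by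
      rw [hUU, map_U]
      simp only [map_add, map_sub, map_mul, map_pow, map_one, map_ofNat, hφX]
      exact hU
    have hφZ : φ (derivative Z) = derivative (Z.map (Int.castRingHom (ZMod p))) := by
      rw [derivative_map]; rfl
    simp only [map_add, map_sub, map_mul, map_neg, map_pow, map_one, map_ofNat, hφX, hφD', hφU,
      hφZ] at key2
    have hu1 : (X : (ZMod p)[X]) ^ p = X * X ^ (p - 1) := by
      rw [← pow_succ', Nat.sub_add_cancel hpr.one_lt.le]
    rw [hu1] at key2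
    linear_combination key2
  · -- degree
    have hC2 : (C (2 : ℤ) : ℤ[X]) = 2 := map_ofNat C 2
    have ha : (1 + 2 * X : ℤ[X]).natDegree ≤ 1 := by rw [← hC2]; compute_degree
    have he : ((X : ℤ[X]) ^ 2).natDegree ≤ 2 * 1 := by compute_degree
    have ha2 : (1 + 2 * X : ℤ[X]).coeff 1 = 2 := by
      rw [← hC2, coeff_add, coeff_C_mul, coeff_X_one, coeff_one]; simp
    have he2 : ((X : ℤ[X]) ^ 2).coeff (2 * 1) = 1 := by
      simp [coeff_X_pow]
    have hD := (natDegree_D _ _ 1 ha he ha2 he2 p).1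
    set DD := D (1 + 2 * X : ℤ[X]) (X ^ 2) p with hDD
    rw [one_mul] at hD
    have h7 : Z.natDegree ≤ p - 1 := by
      rw [natDegree_le_iff_coeff_eq_zero]
      intro N hN
      have h8 : ((p : ℤ)) * Z.coeff N = 0 := by
        rw [← coeff_C_mul, ← hZ, coeff_sub, coeff_sub, coeff_one, if_neg (by omega), ← hC2,
          coeff_C_mul_X_pow]
        rcases Nat.lt_or_ge p N with h | h
        · rw [coeff_eq_zero_of_natDegree_lt (lt_of_le_of_lt hD.1 h), if_neg (by omega)]
          norm_num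
        · obtain rfl : N = p := by omega
          rw [hD.2, if_pos rfl]
          norm_num
      exact (mul_eq_zero.mp h8).resolve_left hp0
    exact natDegree_map_le.trans h7
  · -- value at `-1/4`
    intro x hx
    obtain ⟨h, hh⟩ := two_inv p n hp
    have hp1 : p - 1 + 1 = p := Nat.sub_add_cancel hpr.one_lt.le
    obtain ⟨y, hy⟩ : ∃ y, y = - h ^ 2 := ⟨_, rfl⟩
    have hr2 : red p 2 = 2 := by rw [map_ofNat]
    have hrh : 2 * red p h = 1 := by rw [← hr2, ← map_mul, hh, map_one]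
    have hry : red p y = x := by
      rw [hy, map_neg, map_pow]
      have h4 : (4 : ZMod p) ≠ 0 := by
        intro h0; apply h2ne
        have : (2 : ZMod p) * 2 = 0 := by rw [← h0]; norm_num
        exact (mul_eq_zero.mp this).elim id id
      apply mul_left_cancel₀ h4
      linear_combination -hx - (2 * red p h + 1) * hrh
    obtain ⟨κ, hκ⟩ : ∃ κ, κ = h ^ (p - 1) := ⟨_, rfl⟩
    have hκ2 : (1 + (p : ZMod (p ^ 2)) * q) * κ = 1 := by
      have h1 : (2 : ZMod (p ^ 2)) ^ (p - 1) = 1 + p * q := by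
        have := congrArg (Int.cast : ℤ → ZMod (p ^ 2)) hq
        push_cast at this
        exact this
      rw [← h1, hκ, ← mul_pow, hh, one_pow]
    have hrκ : red p κ = 1 := by
      have := congrArg (red p) hκ2
      rw [map_mul, map_add, map_mul, red_natCast, CharP.cast_eq_zero, map_one] at this
      linear_combination this
    have hhp : h ^ p = κ * h := by rw [hκ, ← pow_sub_one_mul hpr.ne_zero h]
    have hyp : y ^ p = - (κ * h) ^ 2 := by
      rw [hy, hodd.neg_pow, ← pow_mul, mul_comm 2 p, pow_mul, hhp]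
    have ha4 : h ^ 2 = 4 * y ^ 2 := by
      rw [hy]; linear_combination (-(h ^ 2) * (2 * h + 1)) * hh
    have hDd := (D_double h (y ^ 2) ha4 (p - 1)).1
    rw [hp1] at hDd
    have hDy : D h (y ^ 2) p = κ * h ^ p := by
      have h2k : κ * 2 ^ (p - 1) = 1 := by rw [hκ, ← mul_pow, mul_comm h 2, hh, one_pow]
      linear_combination κ * hDd - D h (y ^ 2) p * h2k
    have hev := congrArg (fun f : ℤ[X] => (aeval y : ℤ[X] →ₐ[ℤ] ZMod (p ^ 2)) f) hZ
    have hay : 1 + 2 * y = h := by rw [hy]; linear_combination (-h - 1) * hh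
    have hmD : (aeval y : ℤ[X] →ₐ[ℤ] ZMod (p ^ 2)) (D (1 + 2 * X : ℤ[X]) (X ^ 2) p)
        = D h (y ^ 2) p := by
      have := map_D ((aeval y : ℤ[X] →ₐ[ℤ] ZMod (p ^ 2)) : ℤ[X] →+* ZMod (p ^ 2))
        (1 + 2 * X : ℤ[X]) (X ^ 2) p
      simp only [RingHom.coe_coe, map_add, map_sub, map_mul, map_pow, map_one, map_ofNat,
        aeval_X] at this
      rw [this, hay]
    simp only [map_add, map_sub, map_mul, map_pow, map_one, map_ofNat, aeval_X, hmD, hDy,
      map_natCast, hyp, hhp] at hev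
    obtain ⟨Zy, hZy⟩ : ∃ Zy, Zy = (aeval y : ℤ[X] →ₐ[ℤ] ZMod (p ^ 2)) Z := ⟨_, rfl⟩
    rw [← hZy] at hev
    have hfin : (p : ZMod (p ^ 2)) * (Zy + q * κ * (κ + 1)) = 0 := by
      linear_combination (-1 : ZMod (p ^ 2)) * hev + (κ ^ 2 * (h + 1)) * hh + (κ + 1) * hκ2
    rw [p_mul_eq_zero_iff, map_add, hZy, ← eval_red, hry] at hfin
    simp only [map_mul, map_sub, map_add, map_pow, map_one, map_ofNat, map_intCast, hrκ] at hfin
    linear_combination hfin

end H27Tri
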