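import Pool.Agent.Helper27.Tri.Pol23

/-!
# The polynomial identity for the pair `(4,-3)`
-/

open Polynomial Finset

namespace H27Tri

variable {F : Type*} [Field F]

theorem pol43 (p n M : ℕ) [Fact p.Prime] [CharP F p] (hF : ∀ x : F, x ^ p = x)
    (hp : p = 2 * n + 1) (hM : p = 3 * M + 1) (hM0 : 0 < M)
    (q : F) (Z : F[X])
    (Z1 : X * derivative Z = 1 - (1 + 4 * X) ^ n)
    (Z3 : Z.natDegree ≤ p - 1)
    (Z4 : ∀ x : F, 1 + 4 * x = 0 → Z.eval x = - (2 * q)) :
    (n.choose M : F) * 64 ^ M * ((Z * (1 + 64 * X ^ 3) ^ n).coeff (p - 1)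
      + (2 * q * ((n.choose M : F) * 64 ^ M) - gam F n M)) = 0 := by
  have hpp : 0 < p := by omega
  have hprime : p.Prime := Fact.out
  set α : F := (n.choose M : F) * 64 ^ M with hα
  set r : F := 2 * q * α - gam F n M with hr
  set N : F[X] := (1 + 64 * X ^ 3) ^ n with hN
  have hC2 : (C (2 : F) : F[X]) = 2 := map_ofNat C 2
  have hC4 : (C (4 : F) : F[X]) = 4 := map_ofNat C 4
  have hC8 : (C (8 : F) : F[X]) = 8 := map_ofNat C 8
  have hC28 : (C (28 : F) : F[X]) = 28 := map_ofNat C 28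
  have hC16 : (C (16 : F) : F[X]) = 16 := map_ofNat C 16
  have hC64 : (C (64 : F) : F[X]) = 64 := map_ofNat C 64
  -- the exactness lemma
  have hda : (1 + 2 * X : F[X]).natDegree ≤ 1 := by
    rw [← hC2]; compute_degree
  have hde : (X : F[X]).natDegree ≤ 1 := natDegree_X_le
  obtain ⟨α', E, hE1, hE2, hE3⟩ := good_quad_pow p (1 + 2 * X : F[X]) X n 1
    hp.symm hda hde (-8) 28
  have hQ : ((1 + 2 * X) ^ 2 - 4 * X ^ 2 : F[X]) = 1 + 4 * X := by ring
  have hBd : ((1 + 2 * X) * derivative X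
      - derivative (1 + 2 * X) * X : F[X]) = 1 := by
    simp
  have hR : ((1 + 2 * X) ^ 2 + C (-8) * ((1 + 2 * X) * X)
      + C 28 * X ^ 2 : F[X]) = 1 - 4 * X + 16 * X ^ 2 := by
    rw [C_neg, hC28, hC8]; ring
  rw [hQ, hBd, hR, one_mul, ← mul_pow,
    show ((1 - 4 * X + 16 * X ^ 2) * (1 + 4 * X) : F[X]) = 1 + 64 * X ^ 3 by ring, ← hN] at hE3
  -- powers
  have h4p : (4 : F[X]) ^ p = 4 := by have := C_pow_p (F := F) p 4; rwa [Nat.cast_ofNat, hC4] at this
  have hQp : (1 + 4 * X : F[X]) ^ p = 1 + 4 * X ^ p := by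
    rw [add_pow_char, one_pow, mul_pow, h4p]
  -- G
  have hG := Gp_derivative (F := F) p n M hp hM 64
  rw [hC64, ← hN, ← hα] at hG
  set G := Gp (64 : F) n M with hGdef
  have hG0 : G.coeff 0 = 0 := Gp_coeff_zero _ _ _
  have hGp : G.coeff p = 0 := Gp_coeff_p p n M hM _
  -- the polynomial P
  set Y : F[X] := (1 + 4 * X) ^ (n + 1) * E with hY
  set P : F[X] := C α * (X ^ p * Z) + (C r * X ^ p + G) + Y with hP
  have hXp : (X : F[X]) ^ p = X ^ (p - 1) * X := by
    rw [← pow_succ, Nat.sub_add_cancel hpp]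
  have hdX : derivative ((X : F[X]) ^ p) = 0 := derivative_pow_p p X
  have he2n : (X : F[X]) ^ (2 * n) = X ^ (p - 1) := by
    rw [show 2 * n = p - 1 by omega]
  have hPd : derivative P = C (α' - α) * (X ^ (p - 1) * (1 + 4 * X) ^ n) := by
    rw [hP, derivative_add, derivative_add, derivative_C_mul, derivative_mul (f := X ^ p), hdX,
      derivative_add, derivative_C_mul, hdX, hG]
    have h1 : X ^ p * derivative Z = X ^ (p - 1) * (X * derivative Z) := by rw [hXp]; ring
    have hCs : (C (α' - α) : F[X]) = C α' - C α := C_sub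
    rw [zero_mul, zero_add, h1, Z1, hCs]
    rw [he2n] at hE3
    linear_combination hE3
  have hcoef : (X ^ (p - 1) * (1 + 4 * X : F[X]) ^ n).coeff (p - 1) = 1 := by
    rw [coeff_X_pow_mul', if_pos le_rfl, Nat.sub_self, coeff_zero_eq_eval_zero]
    simp
  have hαα : α' - α = 0 := by
    have h1 := coeff_derivative_p p P 1 hpp one_pos
    rw [one_mul, hPd, coeff_C_mul, hcoef, mul_one] at h1
    exact h1
  have hα' : α' = α := sub_eq_zero.mp hαα
  rw [hα', he2n] at hE3
  have hP0 : derivative P = 0 := by rw [hPd, hαα, C_0, zero_mul]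
  -- degree
  have hdQ : (1 + 4 * X : F[X]).natDegree ≤ 1 := by rw [← hC4]; compute_degree
  have hdR : (1 - 4 * X + 16 * X ^ 2 : F[X]).natDegree ≤ 2 := by
    rw [← hC4, ← hC16]; compute_degree
  have hdG : G.natDegree ≤ 3 * n + 1 := Gp_natDegree _ _ _
  have hdP : P.natDegree ≤ 2 * p - 1 := by
    rw [hP]
    refine natDegree_add_le_of_degree_le (natDegree_add_le_of_degree_le ?_ ?_) ?_
    · refine (natDegree_C_mul_le _ _).trans (natDegree_mul_le.trans ?_)
      have : (X ^ p : F[X]).natDegree ≤ p := natDegree_X_pow_le p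
      omega
    · refine natDegree_add_le_of_degree_le ((natDegree_C_mul_X_pow_le _ _).trans (by omega))
          (hdG.trans (by omega))
    · rw [hY]
      refine natDegree_mul_le.trans ?_
      have h1 : ((1 + 4 * X : F[X]) ^ (n + 1)).natDegree ≤ (n + 1) * 1 :=
        natDegree_pow_le_of_le (n + 1) hdQ
      omega
  -- P is a polynomial in X^p
  obtain ⟨A, hA⟩ : ∃ A : F[X], P = expand F p A := ⟨contract p P, (expand_contract p hP0
    hprime.ne_zero).symm⟩
  have hdA : A.natDegree < 2 := by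
    have h1 : P.natDegree = A.natDegree * p := by rw [hA, natDegree_expand]
    by_contra h4
    have : 2 * p ≤ A.natDegree * p := Nat.mul_le_mul_right p (by omega)
    omega
  have h2ne : (2 : F) ≠ 0 := by
    intro h0
    have : ((2 : ℕ) : F) = 0 := by exact_mod_cast h0
    rw [CharP.cast_eq_zero_iff F p] at this
    have := Nat.le_of_dvd (by norm_num) this
    omega
  have hE0 : E.coeff 0 = 0 := by
    obtain ⟨E', rfl⟩ := hE1
    simp
  have hY0 : Y.coeff 0 = 0 := by
    rw [hY, mul_coeff_zero, hE0, mul_zero]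
  have hA0 : A.coeff 0 = 0 := by
    have h1 : P.coeff 0 = A.coeff 0 := by
      rw [hA, coeff_zero_eq_eval_zero, expand_eval, zero_pow hprime.ne_zero,
        ← coeff_zero_eq_eval_zero]
    rw [← h1, hP, coeff_add, coeff_add, coeff_C_mul, coeff_add, coeff_C_mul, hG0, hY0,
      coeff_X_pow_mul', if_neg (by omega), coeff_X_pow, if_neg (by omega)]
    ring
  obtain ⟨h, hh⟩ : ∃ h : F, 2 * h = 1 := ⟨2⁻¹, mul_inv_cancel₀ h2ne⟩
  have hx : 1 + 4 * (-h ^ 2) = 0 := by linear_combination (-(2 * h + 1)) * hh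
  have hAev : A.eval (-h ^ 2) = 0 := by
    have h1 : P.eval (-h ^ 2) = A.eval (-h ^ 2) := by rw [hA, expand_eval, hF]
    rw [← h1, hP]
    have h2 : (1 + 4 * X : F[X]).eval (-h ^ 2) = 0 := by
      simpa using hx
    rw [hY, pow_succ' (1 + 4 * X : F[X]) n, eval_add, eval_add, eval_mul, eval_mul, eval_mul,
      eval_mul, h2, eval_add, eval_mul, eval_C, eval_C, eval_pow, eval_X, hF, Z4 _ hx, hGdef,
      Gp_eval (64 : F) _ n M (by
        linear_combination (16 * (-h ^ 2) ^ 2 - 4 * (-h ^ 2) + 1) * hx)]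
    rw [hr]
    ring
  have hA1 : A.coeff 1 = 0 := by
    rw [eval_eq_sum_range' hdA] at hAev
    simp only [sum_range_succ, sum_range_zero, hA0] at hAev
    have h0 : A.coeff 1 * h ^ 2 = 0 := by linear_combination -hAev
    rcases mul_eq_zero.mp h0 with h1 | h1
    · exact h1
    · exfalso
      have : h = 0 := pow_eq_zero_iff (two_ne_zero) |>.mp h1
      rw [this, mul_zero] at hh; exact zero_ne_one hh
  have hP00 : P = 0 := by
    have : A = 0 := by
      ext k
      rcases k with _ | _ | k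
      · simpa using hA0
      · simpa using hA1
      · rw [coeff_zero]; exact coeff_eq_zero_of_natDegree_lt (by omega)
    rw [hA, this, map_zero]
  have hN1 : N.coeff (p - 1) = α := by
    have h1 : N = derivative G + C α * X ^ (p - 1) := by rw [hG]; ring
    have h2 := coeff_derivative_p p G 1 hpp one_pos
    rw [one_mul] at h2
    rw [h1, coeff_add, h2, coeff_C_mul_X_pow, if_pos rfl, zero_add]
  have hGN := coeff_GH p h2ne hpp G N α hG hG0 hGp
  -- the term Y N
  set W : F[X] := E * (1 - 4 * X + 16 * X ^ 2) ^ n with hW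
  have hYN : Y * N = W + 4 * (X ^ p * W) := by
    have h1 : N = (1 + 4 * X) ^ n * (1 - 4 * X + 16 * X ^ 2) ^ n := by
      rw [hN, ← mul_pow]; congr 1; ring
    have h2 : (1 + 4 * X : F[X]) ^ (n + 1) * (1 + 4 * X) ^ n = 1 + 4 * X ^ p := by
      rw [← pow_add, ← hQp]; congr 1; omega
    calc Y * N = ((1 + 4 * X) ^ (n + 1) * (1 + 4 * X) ^ n) * W := by rw [hY, hW, h1]; ring
      _ = _ := by rw [h2]; ring
  have hdW : W.natDegree ≤ 2 * p - 2 := by
    rw [hW]
    refine natDegree_mul_le.trans ?_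
    have h1 : ((1 - 4 * X + 16 * X ^ 2 : F[X]) ^ n).natDegree ≤ n * 2 :=
      natDegree_pow_le_of_le n hdR
    omega
  have hYY : C (2 : F) * (Y * N) = C (2 * α) * (X ^ (p - 1) * ((1 + 4 * X) ^ n * Y))
      - derivative (Y ^ 2) := by
    rw [derivative_pow, hE3]
    simp only [map_mul, hC2]
    norm_num
    rw [hC2]
    ring
  have hW1 : W.coeff (p - 1) = 0 := by
    have h1 : (Y * N).coeff (p - 1) = W.coeff (p - 1) := by
      rw [hYN, coeff_add, ← hC4, coeff_C_mul, coeff_X_pow_mul', if_neg (by omega)]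
      ring
    have h2 := congrArg (fun f => coeff f (p - 1)) hYY
    simp only [coeff_sub, coeff_C_mul] at h2
    have h3 := coeff_derivative_p p (Y ^ 2) 1 hpp one_pos
    rw [one_mul] at h3
    rw [h3, coeff_X_pow_mul', if_pos le_rfl, Nat.sub_self, mul_coeff_zero, hY0, mul_zero,
      mul_zero, sub_zero, h1] at h2
    simpa [h2ne] using h2
  have hYN2 : (Y * N).coeff (2 * p - 1) = 0 := by
    rw [hYN, coeff_add, ← hC4, coeff_C_mul, coeff_X_pow_mul', if_pos (by omega),
      show 2 * p - 1 - p = p - 1 by omega, hW1,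
      coeff_eq_zero_of_natDegree_lt (by omega : W.natDegree < 2 * p - 1)]
    ring
  have hexp : C α * (X ^ p * (Z * N)) + C r * (X ^ p * N) + G * N + Y * N = 0 := by
    calc C α * (X ^ p * (Z * N)) + C r * (X ^ p * N) + G * N + Y * N = P * N := by rw [hP]; ring
      _ = 0 := by rw [hP00, zero_mul]
  have hfin := congrArg (fun f => coeff f (2 * p - 1)) hexp
  simp only [coeff_add, coeff_C_mul, coeff_zero] at hfin
  rw [coeff_X_pow_mul' _ p, if_pos (by omega), coeff_X_pow_mul' _ p, if_pos (by omega),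
    show 2 * p - 1 - p = p - 1 by omega, hGN.2, hYN2, hN1] at hfin
  linear_combination hfin

end H27Tri
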