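import Pool.Agent.Helper27.Tri.Transform
import Pool.Agent.Helper27.Tri.IntZ43
import Pool.Agent.Helper27.Tri.Gamma
import Pool.Agent.Helper27.Tri.Pol43

/-!
# Comparison of power series
-/

open PowerSeries Finset

namespace H27Tri

theorem cmp {R : Type*} [CommRing R] [IsDomain R] (h2 : (2 : R) ≠ 0) {f g : R⟦X⟧}
    (hf : constantCoeff f = 1) (hg : constantCoeff g = 1) {N : ℕ}
    (h : X ^ N ∣ f ^ 2 - g ^ 2) : X ^ N ∣ f - g := by
  have e : f ^ 2 - g ^ 2 = (f + g) * (f - g) := by ring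
  rw [e] at h
  refine X_prime.pow_dvd_of_dvd_mul_left N (fun hd => h2 ?_) h
  rw [X_dvd_iff, map_add, hf, hg] at hd
  rw [← hd]; norm_num

theorem cancel_unit {R : Type*} [CommRing R] [IsDomain R] {u f : R⟦X⟧}
    (hu : constantCoeff u = 1) {N : ℕ} (h : X ^ N ∣ u * f) : X ^ N ∣ f := by
  refine X_prime.pow_dvd_of_dvd_mul_left N (fun hd => ?_) h
  rw [X_dvd_iff, hu] at hd
  exact one_ne_zero hd

theorem coeff_eq_of_dvd {R : Type*} [CommRing R] {f g : R⟦X⟧} {N m : ℕ} (h : X ^ N ∣ f - g)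
    (hm : m < N) : coeff m f = coeff m g := by
  have := (X_pow_dvd_iff.mp h) m hm
  rw [map_sub] at this
  exact sub_eq_zero.mp this

/-- Reduction of power series. -/
noncomputable def rho (p : ℕ) : ℤ⟦X⟧ →+* (ZMod p)⟦X⟧ := PowerSeries.map (Int.castRingHom (ZMod p))

theorem coeff_rho (p m : ℕ) (f : ℤ⟦X⟧) : coeff m (rho p f) = ((coeff m f : ℤ) : ZMod p) := by
  simp [rho]

theorem rho_X (p : ℕ) : rho p X = X := by simp [rho]

theorem rho_C (p : ℕ) (k : ℤ) : rho p (C k) = C (k : ZMod p) := by simp [rho]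

theorem charP_ps (p : ℕ) [Fact p.Prime] : CharP (ZMod p)⟦X⟧ p :=
  charP_of_injective_ringHom (f := (C : ZMod p →+* (ZMod p)⟦X⟧)) (by
    intro a b h
    have := congrArg (constantCoeff) h
    simpa using this) p

theorem V_cmp (p n : ℕ) [Fact p.Prime] (hp : p = 2 * n + 1) (k : ℤ) :
    X ^ (3 * p) ∣ rho p (V k) - (1 + C (-(4 * k : ℤ) : ZMod p) * X ^ 3) ^ n := by
  have hpr : p.Prime := Fact.out
  have := charP_ps p
  have h2 : (2 : ZMod p) ≠ 0 := by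
    intro h0
    have : ((2 : ℕ) : ZMod p) = 0 := by exact_mod_cast h0
    rw [ZMod.natCast_eq_zero_iff] at this
    have := Nat.le_of_dvd (by norm_num) this
    have := hpr.two_le
    omega
  have hV := congrArg (rho p) (V_sq k)
  rw [map_mul, map_pow, map_sub, map_mul, map_pow, rho_X, rho_C, map_one] at hV
  have hV' : rho p (V k) ^ 2 * (1 + C (-(4 * k : ℤ) : ZMod p) * X ^ 3) = 1 := by
    have e : (1 + C (-(4 * k : ℤ) : ZMod p) * X ^ 3 : (ZMod p)⟦X⟧)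
        = 1 - C (((4 * k : ℤ)) : ZMod p) * X ^ 3 := by rw [map_neg]; ring
    rw [e]; exact hV
  set w : ZMod p := (-(4 * k : ℤ) : ZMod p) with hw
  apply cmp h2
  · rw [← coeff_zero_eq_constantCoeff_apply, coeff_rho, coeff_zero_eq_constantCoeff_apply,
      constantCoeff_V]
    simp
  · simp
  · have hu : constantCoeff (1 + C w * X ^ 3 : (ZMod p)⟦X⟧) = 1 := by simp
    apply cancel_unit hu
    have hwp : (C w : (ZMod p)⟦X⟧) ^ p = C w := by rw [← map_pow, ZMod.pow_card]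
    have e1 : (1 + C w * X ^ 3 : (ZMod p)⟦X⟧) ^ p = 1 + C w * X ^ (3 * p) := by
      rw [add_pow_char, one_pow, mul_pow, hwp, ← pow_mul]
    have e2 : (1 + C w * X ^ 3 : (ZMod p)⟦X⟧) * (rho p (V k) ^ 2 - ((1 + C w * X ^ 3) ^ n) ^ 2)
        = X ^ (3 * p) * (- C w) := by
      have e3 : (1 + C w * X ^ 3 : (ZMod p)⟦X⟧) * ((1 + C w * X ^ 3) ^ n) ^ 2
          = (1 + C w * X ^ 3) ^ p := by
        rw [← pow_mul, ← pow_succ']; congr 1; omega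
      rw [mul_sub, e3, e1, mul_comm _ (rho p (V k) ^ 2), hV']
      ring
    rw [e2]
    exact Dvd.intro _ rfl

/-- Comparison for the pair `(2,3)`. -/
theorem DV23 (p : ℕ) (hp : 0 < p) :
    X ^ (2 * p) ∣ D (1 + 2 * X ^ 2 : ℤ⟦X⟧) ((X - X ^ 2) ^ 2) p * V (-2)
      - U (1 + 2 * X ^ 2 : ℤ⟦X⟧) ((X - X ^ 2) ^ 2) (p - 1) := by
  obtain ⟨m, rfl⟩ : ∃ m, p = m + 1 := ⟨p - 1, by omega⟩
  rw [Nat.add_sub_cancel]
  have hD0 : constantCoeff (D (1 + 2 * X ^ 2 : ℤ⟦X⟧) ((X - X ^ 2) ^ 2) (m + 1)) = 1 := by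
    rw [map_D]; simp [D_zero_arg]
  have hU0 : constantCoeff (U (1 + 2 * X ^ 2 : ℤ⟦X⟧) ((X - X ^ 2) ^ 2) m) = 1 := by
    rw [map_U]; simp [U_zero_arg]
  apply cmp (by norm_num)
  · rw [map_mul, hD0, constantCoeff_V, one_mul]
  · exact hU0
  · have h1 := pell (1 + 2 * X ^ 2 : ℤ⟦X⟧) ((X - X ^ 2) ^ 2) m
    have h2 := V_sq (-2)
    have h3 : (C (4 * (-2)) : ℤ⟦X⟧) = -8 := by
      rw [show (4 * (-2) : ℤ) = -8 by norm_num, map_neg]; rfl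
    rw [h3] at h2
    have h4 : ((X : ℤ⟦X⟧) - X ^ 2) ^ 2 = X ^ 2 * (1 - X) ^ 2 := by ring
    refine ⟨4 * ((1 - X) ^ 2) ^ (m + 1) * V (-2) ^ 2, ?_⟩
    have h5 : (((X : ℤ⟦X⟧) - X ^ 2) ^ 2) ^ (m + 1) = X ^ (2 * (m + 1)) * ((1 - X) ^ 2) ^ (m + 1) := by
      rw [h4, mul_pow, ← pow_mul]
    rw [h5] at h1
    linear_combination (V (-2) ^ 2) * h1
      + (U (1 + 2 * X ^ 2 : ℤ⟦X⟧) ((X - X ^ 2) ^ 2) m ^ 2) * h2

/-- Comparison for the pair `(4,-3)`. -/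
theorem DV43 (p : ℕ) (hp : 0 < p) :
    X ^ (2 * p) ∣ D (1 + 2 * X : ℤ⟦X⟧) (X ^ 2) p * V (-16)
      - U (1 + 2 * X : ℤ⟦X⟧) (X ^ 2) (p - 1) * tgs 2 (-3) := by
  obtain ⟨m, rfl⟩ : ∃ m, p = m + 1 := ⟨p - 1, by omega⟩
  rw [Nat.add_sub_cancel]
  have hD0 : constantCoeff (D (1 + 2 * X : ℤ⟦X⟧) (X ^ 2) (m + 1)) = 1 := by
    rw [map_D]; simp [D_zero_arg]
  have hU0 : constantCoeff (U (1 + 2 * X : ℤ⟦X⟧) (X ^ 2) m) = 1 := by
    rw [map_U]; simp [U_zero_arg]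
  have hT0 : constantCoeff (tgs 2 (-3)) = 1 := by simp [tgs, trinom_zero]
  have h3 : (C (4 * (-16)) : ℤ⟦X⟧) = -64 := by
    rw [show (4 * (-16) : ℤ) = -64 by norm_num, map_neg]; rfl
  have h4 : (C (2 * 2) : ℤ⟦X⟧) = 4 := by
    rw [show (2 * 2 : ℤ) = 4 by norm_num]; exact map_ofNat C 4
  have h5 : (C (2 ^ 2 - 4 * (-3)) : ℤ⟦X⟧) = 16 := by
    rw [show (2 ^ 2 - 4 * (-3) : ℤ) = 16 by norm_num]; exact map_ofNat C 16
  have h2 := V_sq (-16)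
  have hT := tgs_sq 2 (-3)
  rw [h3] at h2
  rw [h4, h5] at hT
  have hVT : (1 + 4 * X : ℤ⟦X⟧) * V (-16) ^ 2 = tgs 2 (-3) ^ 2 := by
    have hne : (1 - 4 * X + 16 * X ^ 2 : ℤ⟦X⟧) ≠ 0 := by
      intro h
      have := congrArg constantCoeff h
      simp at this
    apply mul_left_cancel₀ hne
    linear_combination h2 - hT
  apply cmp (by norm_num)
  · rw [map_mul, hD0, constantCoeff_V, one_mul]
  · rw [map_mul, hU0, hT0, one_mul]
  · have h1 := pell (1 + 2 * X : ℤ⟦X⟧) (X ^ 2) m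
    refine ⟨4 * V (-16) ^ 2, ?_⟩
    have h6 : ((X : ℤ⟦X⟧) ^ 2) ^ (m + 1) = X ^ (2 * (m + 1)) := by rw [← pow_mul]
    rw [h6] at h1
    linear_combination (V (-16) ^ 2) * h1
      + (U (1 + 2 * X : ℤ⟦X⟧) (X ^ 2) m ^ 2) * hVT

end H27Tri
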