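import Mathlib

/-!
# Exactness lemma in characteristic `p`
-/

open Polynomial

namespace H27Tri

variable {F : Type*} [Field F]

theorem E_step (a e : F[X]) (n k l : ℕ) (hn : ((2 * n + 2 : ℕ) : F) = 1)
    (hkl : k + 1 + (l + 1) = 2 * n) :
    derivative ((a ^ 2 - 4 * e ^ 2) ^ (n + 1) * (a ^ (k + 1) * e ^ (l + 1)))
      = - ((a ^ 2 - 4 * e ^ 2) ^ n * (a * derivative e - derivative a * e)
        * (C ((k + 2 : ℕ) : F) * (a ^ (k + 2) * e ^ l)
          - C (4 * ((k + 1 : ℕ) : F)) * (a ^ k * e ^ (l + 2)))) := by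
  have h1 : (2 * (n : F[X]) + 2) = 1 := by
    have : ((2 * n + 2 : ℕ) : F[X]) = 1 := by rw [← C_eq_natCast, hn, C_1]
    push_cast at this
    exact this
  have h2 : (l : F[X]) + 1 = - ((k : F[X]) + 2) := by
    have : ((k + 1 + (l + 1) : ℕ) : F[X]) = ((2 * n : ℕ) : F[X]) := by rw [hkl]
    push_cast at this
    linear_combination this + h1
  simp only [derivative_mul, derivative_pow, derivative_sub, Nat.add_sub_cancel]
  have h4 : derivative (4 : F[X]) = 0 := derivative_ofNat 4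
  rw [h4]
  push_cast
  simp only [map_add, map_mul, map_natCast, map_one, map_ofNat, pow_one]
  linear_combination ((a ^ 2 - 4 * e ^ 2) ^ n * (a * derivative a - 4 * e * derivative e)
      * (a ^ (k + 1) * e ^ (l + 1))) * h1
    + ((a ^ 2 - 4 * e ^ 2) ^ (n + 1) * (a ^ (k + 1) * e ^ l) * derivative e) * h2

theorem E_step0 (a e : F[X]) (n l : ℕ) (hn : ((2 * n + 2 : ℕ) : F) = 1)
    (hkl : l + 1 = 2 * n) :
    derivative ((a ^ 2 - 4 * e ^ 2) ^ (n + 1) * e ^ (l + 1))
      = - ((a ^ 2 - 4 * e ^ 2) ^ n * (a * derivative e - derivative a * e) * (a * e ^ l)) := by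
  have h1 : (2 * (n : F[X]) + 2) = 1 := by
    have : ((2 * n + 2 : ℕ) : F[X]) = 1 := by rw [← C_eq_natCast, hn, C_1]
    push_cast at this
    exact this
  have h2 : (l : F[X]) + 1 = - 1 := by
    have : ((l + 1 : ℕ) : F[X]) = ((2 * n : ℕ) : F[X]) := by rw [hkl]
    push_cast at this
    linear_combination this + h1
  simp only [derivative_mul, derivative_pow, derivative_sub, Nat.add_sub_cancel]
  have h4 : derivative (4 : F[X]) = 0 := derivative_ofNat 4
  rw [h4]
  push_cast
  simp only [map_add, map_mul, map_natCast, map_one, map_ofNat, pow_one]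
  linear_combination ((a ^ 2 - 4 * e ^ 2) ^ n * (a * derivative a - 4 * e * derivative e)
      * e ^ (l + 1)) * h1
    + ((a ^ 2 - 4 * e ^ 2) ^ (n + 1) * e ^ l * derivative e) * h2

/-- `f` times `B Q ^ n` is a multiple of `e ^ (2n) B Q ^ n` up to an exact form. -/
def Good (a e : F[X]) (n d : ℕ) (f : F[X]) : Prop :=
  ∃ (α : F) (E : F[X]), e ∣ E ∧ E.natDegree ≤ d ∧
    f * ((a * derivative e - derivative a * e) * (a ^ 2 - 4 * e ^ 2) ^ n)
      = C α * (e ^ (2 * n) * ((a * derivative e - derivative a * e) * (a ^ 2 - 4 * e ^ 2) ^ n))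
        - derivative ((a ^ 2 - 4 * e ^ 2) ^ (n + 1) * E)

theorem Good.add {a e : F[X]} {n d : ℕ} {f g : F[X]} (hf : Good a e n d f) (hg : Good a e n d g) :
    Good a e n d (f + g) := by
  obtain ⟨α, E, h1, h2, h3⟩ := hf
  obtain ⟨β, E', h4, h5, h6⟩ := hg
  refine ⟨α + β, E + E', dvd_add h1 h4, natDegree_add_le_of_degree_le h2 h5, ?_⟩
  rw [add_mul, h3, h6, C_add, mul_add, derivative_add]
  ring

theorem Good.smul {a e : F[X]} {n d : ℕ} {f : F[X]} (c : F) (hf : Good a e n d f) :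
    Good a e n d (C c * f) := by
  obtain ⟨α, E, h1, h2, h3⟩ := hf
  refine ⟨c * α, C c * E, Dvd.dvd.mul_left h1 _, (natDegree_C_mul_le c E).trans h2, ?_⟩
  rw [mul_assoc, h3, C_mul, show (a ^ 2 - 4 * e ^ 2) ^ (n + 1) * (C c * E)
    = C c * ((a ^ 2 - 4 * e ^ 2) ^ (n + 1) * E) by ring, derivative_C_mul]
  ring

theorem natDegree_mono {a e : F[X]} {δ : ℕ} (ha : a.natDegree ≤ δ) (he : e.natDegree ≤ δ)
    (j l : ℕ) : (a ^ j * e ^ l).natDegree ≤ (j + l) * δ := by
  refine natDegree_mul_le.trans ?_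
  have h1 : (a ^ j).natDegree ≤ j * δ := natDegree_pow_le_of_le j ha
  have h2 : (e ^ l).natDegree ≤ l * δ := natDegree_pow_le_of_le l he
  calc _ ≤ j * δ + l * δ := by omega
    _ = (j + l) * δ := by ring

theorem good_mono (p : ℕ) [CharP F p] (a e : F[X]) (n δ : ℕ) (hp : 2 * n + 1 = p)
    (ha : a.natDegree ≤ δ) (he : e.natDegree ≤ δ) (j l : ℕ) (hjl : j + l = 2 * n) :
    Good a e n (2 * n * δ) (a ^ j * e ^ l) := by
  have hn : ((2 * n + 2 : ℕ) : F) = 1 := by
    rw [show 2 * n + 2 = p + 1 by omega, Nat.cast_add, CharP.cast_eq_zero, Nat.cast_one, zero_add]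
  induction j using Nat.strong_induction_on generalizing l with
  | _ j ih =>
    match j, ih with
    | 0, _ =>
      refine ⟨1, 0, dvd_zero _, by simp, ?_⟩
      rw [show l = 2 * n by omega]
      simp
    | 1, _ =>
      refine ⟨0, e ^ (l + 1), dvd_pow_self _ (by omega), ?_, ?_⟩
      · have := natDegree_mono ha he 0 (l + 1)
        rw [pow_zero, one_mul] at this
        rwa [show 0 + (l + 1) = 2 * n by omega] at this
      · rw [E_step0 a e n l hn (by omega)]
        simp
        ring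
    | (k + 2), ih =>
      obtain ⟨α, E, h1, h2, h3⟩ := ih k (by omega) (l + 2) (by omega)
      have hk : ((k + 2 : ℕ) : F) ≠ 0 := by
        intro h0
        have := (CharP.cast_eq_zero_iff F p (k + 2)).mp h0
        have := Nat.le_of_dvd (by omega) this
        omega
      have hs := E_step a e n k l hn (by omega)
      refine ⟨(((k + 2 : ℕ) : F))⁻¹ * ((4 * ((k + 1 : ℕ) : F)) * α),
        C (((k + 2 : ℕ) : F))⁻¹ * (C (4 * ((k + 1 : ℕ) : F)) * E + a ^ (k + 1) * e ^ (l + 1)),
        ?_, ?_, ?_⟩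
      · refine Dvd.dvd.mul_left (dvd_add (Dvd.dvd.mul_left h1 _)
          (Dvd.dvd.mul_left (dvd_pow_self _ (by omega)) _)) _
      · refine (natDegree_C_mul_le _ _).trans (natDegree_add_le_of_degree_le
          ((natDegree_C_mul_le _ _).trans h2) ?_)
        have := natDegree_mono ha he (k + 1) (l + 1)
        rwa [show k + 1 + (l + 1) = 2 * n by omega] at this
      · have hC : (C (((k + 2 : ℕ) : F)) : F[X]) * C (((k + 2 : ℕ) : F))⁻¹ = 1 := by
          rw [← C_mul, mul_inv_cancel₀ hk, C_1]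
        have e1 : derivative ((a ^ 2 - 4 * e ^ 2) ^ (n + 1) * (C (((k + 2 : ℕ) : F))⁻¹ *
              (C (4 * ((k + 1 : ℕ) : F)) * E + a ^ (k + 1) * e ^ (l + 1))))
            = C (((k + 2 : ℕ) : F))⁻¹ * (C (4 * ((k + 1 : ℕ) : F))
                * derivative ((a ^ 2 - 4 * e ^ 2) ^ (n + 1) * E)
              + derivative ((a ^ 2 - 4 * e ^ 2) ^ (n + 1) * (a ^ (k + 1) * e ^ (l + 1)))) := by
          rw [← derivative_C_mul, ← derivative_add, ← derivative_C_mul]
          congr 1
          ring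
        rw [e1, hs, C_mul, C_mul]
        generalize C (((k + 2 : ℕ) : F))⁻¹ = I at hC ⊢
        generalize C (4 * ((k + 1 : ℕ) : F)) = J at h3 ⊢
        generalize (C (((k + 2 : ℕ) : F)) : F[X]) = I' at hC ⊢
        generalize derivative ((a ^ 2 - 4 * e ^ 2) ^ (n + 1) * E) = DE at h3 ⊢
        linear_combination (-(a ^ (k + 2) * e ^ l * ((a * derivative e - derivative a * e)
          * (a ^ 2 - 4 * e ^ 2) ^ n))) * hC + (I * J) * h3

/-- The exactness lemma for `R ^ n`, `R = a ^ 2 + r a e + s e ^ 2`. -/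
theorem good_quad (p : ℕ) [CharP F p] (a e : F[X]) (n δ : ℕ) (hp : 2 * n + 1 = p)
    (ha : a.natDegree ≤ δ) (he : e.natDegree ≤ δ) (r s : F) (i j l : ℕ)
    (hjl : 2 * i + j + l = 2 * n) :
    Good a e n (2 * n * δ) ((a ^ 2 + C r * (a * e) + C s * e ^ 2) ^ i * (a ^ j * e ^ l)) := by
  induction i generalizing j l with
  | zero => simpa using good_mono p a e n δ hp ha he j l (by omega)
  | succ i ih =>
    have h1 := ih (j + 2) l (by omega)
    have h2 := (ih (j + 1) (l + 1) (by omega)).smul r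
    have h3 := (ih j (l + 2) (by omega)).smul s
    have := (h1.add h2).add h3
    convert this using 1
    ring

theorem good_quad_pow (p : ℕ) [CharP F p] (a e : F[X]) (n δ : ℕ) (hp : 2 * n + 1 = p)
    (ha : a.natDegree ≤ δ) (he : e.natDegree ≤ δ) (r s : F) :
    Good a e n (2 * n * δ) ((a ^ 2 + C r * (a * e) + C s * e ^ 2) ^ n) := by
  simpa using good_quad p a e n δ hp ha he r s n 0 0 (by omega)

end H27Tri
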