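import Pool.Agent.Helper27.Tri.Compare

/-!
# The sums modulo `p ^ 2` in terms of a central binomial coefficient
-/

open PowerSeries Finset

namespace H27Tri

theorem finish (p : ℕ) [Fact p.Prime] (c u Δ q : ℤ) (w : ℕ) (hc : c = u + p * Δ)
    (hΔ : 3 * (Δ : ZMod p) = - ((w : ZMod p) * q * u)) :
    3 * (c : ZMod (p ^ 2)) = 3 * u - (w : ZMod (p ^ 2)) * p * q * u := by
  have h1 : red p (3 * (Δ : ZMod (p ^ 2)) + w * q * u) = 0 := by
    simp only [map_add, map_mul, map_ofNat, red_intCast, red_natCast]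
    rw [hΔ]; ring
  rw [← p_mul_eq_zero_iff] at h1
  rw [hc]
  push_cast
  linear_combination h1

theorem one_add_pow_of_sq {R : Type*} [CommRing R] (ε : R) (h : ε * ε = 0) (m : ℕ) :
    (1 + ε) ^ m = 1 + m * ε := by
  induction m with
  | zero => simp
  | succ m ih => rw [pow_succ, ih]; push_cast; linear_combination (m : R) * h

/-- The common data. -/
theorem two_pow_data (p M : ℕ) [Fact p.Prime] (hM : p = 3 * M + 1) (q : ℤ)
    (hq : (2 : ℤ) ^ (p - 1) = 1 + p * q) :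
    3 * (2 : ZMod (p ^ 2)) ^ (p * M) = 2 ^ M * (3 - p * q) ∧
    (16 : ZMod (p ^ 2)) ^ M = 2 ^ M * (1 + p * q) := by
  have hpr : p.Prime := Fact.out
  have h1 : (2 : ZMod (p ^ 2)) ^ (p - 1) = 1 + p * q := by
    have := congrArg (Int.cast : ℤ → ZMod (p ^ 2)) hq
    push_cast at this
    exact this
  have hpp := p_sq_zero p
  have hε : ((p : ZMod (p ^ 2)) * q) * (p * q) = 0 := by linear_combination (q : ZMod (p ^ 2)) ^ 2 * hpp
  have h3M : (3 : ZMod (p ^ 2)) * M = p - 1 := by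
    have : ((3 * M + 1 : ℕ) : ZMod (p ^ 2)) = (p : ZMod (p ^ 2)) := by rw [← hM]
    push_cast at this
    linear_combination this
  constructor
  · rw [pow_mul, ← pow_sub_one_mul hpr.ne_zero (2 : ZMod (p ^ 2)), mul_pow, h1,
      one_add_pow_of_sq _ hε]
    linear_combination (2 ^ M * (p : ZMod (p ^ 2)) * q) * h3M + 2 ^ M * (q : ZMod (p ^ 2)) * hpp
  · rw [show (16 : ZMod (p ^ 2)) = 2 * 2 ^ 3 by norm_num, mul_pow, ← pow_mul,
      show 3 * M = p - 1 by omega, h1]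

/-- Consequences of `C(n,M)` and `γ` in `ZMod p`. -/
theorem gam_data (p n M K : ℕ) [Fact p.Prime] (hp : p = 2 * n + 1) (hM : p = 3 * M + 1)
    (hK : p = 6 * K + 1) (hK0 : 0 < K) (q : ℤ) (hq : (2 : ℤ) ^ (p - 1) = 1 + p * q) :
    3 * gam (ZMod p) n M = 2 * (q : ZMod p) * (n.choose M : ZMod p) ∧
    (8 : ZMod p) ^ M = 1 ∧ (64 : ZMod p) ^ M = 1 ∧ (n.choose M : ZMod p) ≠ 0 := by
  have hpr : p.Prime := Fact.out
  have hMK : M = 2 * K := by omega
  have h2ne : (2 : ZMod p) ≠ 0 := by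
    intro h0
    have : ((2 : ℕ) : ZMod p) = 0 := by exact_mod_cast h0
    rw [ZMod.natCast_eq_zero_iff] at this
    have := Nat.le_of_dvd (by norm_num) this
    omega
  have h8 : (8 : ZMod p) ^ M = 1 := by
    rw [show (8 : ZMod p) = 2 ^ 3 by norm_num, ← pow_mul, show 3 * M = p - 1 by omega]
    exact ZMod.pow_card_sub_one_eq_one h2ne
  refine ⟨?_, h8, ?_, ?_⟩
  · rw [gam_eq p n M hp hM (by omega), show n - M = K by omega, hMK,
      har_diff p K hK hK0 q hq, pow_mul]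
    simp
    ring
  · rw [show (64 : ZMod p) = 8 ^ 2 by norm_num, ← pow_mul, mul_comm, pow_mul, h8, one_pow]
  · intro h0
    rw [ZMod.natCast_eq_zero_iff] at h0
    have h1 : n.choose M ∣ n.factorial := by
      rw [Nat.choose_eq_factorial_div_factorial (by omega : M ≤ n)]
      exact Nat.div_dvd_of_dvd (Nat.factorial_mul_factorial_dvd_factorial (by omega : M ≤ n))
    have h2 := (hpr.dvd_factorial).mp (h0.trans h1)
    omega

theorem cast_coeff_poly (p m : ℕ) (Z : Polynomial ℤ) (w : ZMod p) (n : ℕ) :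
    coeff m (rho p (Z : ℤ⟦X⟧) * (1 + C w * X ^ 3) ^ n)
      = ((Z.map (Int.castRingHom (ZMod p))) *
        (1 + Polynomial.C w * Polynomial.X ^ 3) ^ n).coeff m := by
  rw [← Polynomial.coeff_coe]
  congr 1
  rw [Polynomial.coe_mul, Polynomial.coe_pow]
  congr 1
  · ext i; simp [coeff_rho]
  · simp

theorem coeff_V' (k : ℤ) (p M : ℕ) (hM : p = 3 * M + 1) :
    coeff (p - 1) (V k) = k ^ M * (Nat.centralBinom M : ℤ) := by
  rw [show p - 1 = 3 * M by omega, coeff_V]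

theorem coeff_N (p n M : ℕ) [Fact p.Prime] (hp : p = 2 * n + 1) (hM : p = 3 * M + 1) (w : ZMod p) :
    coeff (p - 1) ((1 + C w * X ^ 3 : (ZMod p)⟦X⟧) ^ n) = (n.choose M : ZMod p) * w ^ M := by
  have h1 : ((1 + C w * X ^ 3 : (ZMod p)⟦X⟧) ^ n)
      = (((1 + Polynomial.C w * Polynomial.X ^ 3 : Polynomial (ZMod p)) ^ n : Polynomial (ZMod p)) :
        (ZMod p)⟦X⟧) := by
    rw [Polynomial.coe_pow]; simp
  rw [h1, Polynomial.coeff_coe]
  have hG := Gp_derivative (F := ZMod p) p n M hp hM w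
  have h2 := coeff_derivative_p p (Gp w n M) 1 (by omega) one_pos
  rw [one_mul, hG, Polynomial.coeff_sub, Polynomial.coeff_C_mul_X_pow, if_pos rfl] at h2
  exact sub_eq_zero.mp h2

theorem c23_mod (p n M K : ℕ) [Fact p.Prime] (hp : p = 2 * n + 1) (hM : p = 3 * M + 1)
    (hK : p = 6 * K + 1) (hK0 : 0 < K) (q : ℤ) (hq : (2 : ℤ) ^ (p - 1) = 1 + p * q) :
    3 * ((cn 2 3 n : ℤ) : ZMod (p ^ 2)) = 3 * (2 ^ (p * M) * (Nat.centralBinom M : ZMod (p ^ 2))) := by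
  have hpr : p.Prime := Fact.out
  have hMK : M = 2 * K := by omega
  obtain ⟨Z, hZ, hU, Z1, Z3, Z4⟩ := exists_Z23 p n K hp hK hK0 q hq
  obtain ⟨z, hz⟩ := exists_cube_root p M hM
  have hpol := pol23 (F := ZMod p) p n M (fun x => ZMod.pow_card x) z hz hp hM (by omega)
    (q : ZMod p) _ Z1 Z3 Z4
  obtain ⟨g1, g2, g3, g4⟩ := gam_data p n M K hp hM hK hK0 q hq
  -- the series identity over the integers
  have hZs := congrArg (Polynomial.coeToPowerSeries.ringHom : Polynomial ℤ →+* ℤ⟦X⟧) hZ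
  simp only [map_sub, map_mul, map_add, map_pow, map_one, map_ofNat, map_D,
    Polynomial.coeToPowerSeries.ringHom_apply, Polynomial.coe_X, Polynomial.coe_C] at hZs
  have hDV := DV23 p hpr.pos
  set DD := D (1 + 2 * X ^ 2 : ℤ⟦X⟧) ((X - X ^ 2) ^ 2) p with hDD
  set UU := U (1 + 2 * X ^ 2 : ℤ⟦X⟧) ((X - X ^ 2) ^ 2) (p - 1) with hUU
  have hI : I ^ p * (1 - X) ^ p = 1 := by rw [← mul_pow, I_mul, one_pow]
  have hc : cn 2 3 n = coeff (p - 1) (V (-2)) + p * coeff (p - 1) ((Z : ℤ⟦X⟧) * V (-2) * I ^ p) := by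
    rw [c23, show 2 * n + 1 = p by omega, show 2 * n = p - 1 by omega, ← hUU]
    have h1 : coeff (p - 1) (UU * I ^ p) = coeff (p - 1) (DD * V (-2) * I ^ p) := by
      symm
      apply coeff_eq_of_dvd (N := 2 * p) _ (by omega)
      rw [← sub_mul]
      exact Dvd.dvd.mul_right hDV _
    have h2 : DD * V (-2) * I ^ p = V (-2) + C (p : ℤ) * ((Z : ℤ⟦X⟧) * V (-2) * I ^ p)
        + X ^ p * (DD * V (-2) * I ^ p + 2 * X ^ p * V (-2)) := by
      have h3 : (X : ℤ⟦X⟧) ^ (2 * p) = X ^ p * X ^ p := by rw [two_mul, pow_add]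
      rw [h3] at hZs
      linear_combination (V (-2) * I ^ p) * hZs + (V (-2) * (1 + 2 * (X ^ p * X ^ p))) * hI
    rw [h1, h2, map_add, map_add, coeff_C_mul, coeff_X_pow_mul', if_neg (by omega), add_zero]
  -- reduction of Δ
  obtain ⟨Δ, hΔ⟩ : ∃ Δ, Δ = coeff (p - 1) ((Z : ℤ⟦X⟧) * V (-2) * I ^ p) := ⟨_, rfl⟩
  rw [← hΔ] at hc
  have hcmp := V_cmp p n hp (-2)
  have hw8 : (-((4 * (-2) : ℤ) : ZMod p)) = ((8 : ℤ) : ZMod p) := by push_cast; ring
  rw [hw8] at hcmp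
  have hcharP := charP_ps p
  have hΔp : (Δ : ZMod p) = ((Z.map (Int.castRingHom (ZMod p))) *
        (1 + 8 * Polynomial.X ^ 3) ^ n).coeff (p - 1) := by
    have hmm : rho p ((Z : ℤ⟦X⟧) * V (-2) * I ^ p) = rho p (Z : ℤ⟦X⟧) * rho p (V (-2)) * rho p I ^ p := by
      rw [map_mul, map_mul, map_pow]
    rw [hΔ, ← coeff_rho, hmm]
    have hIp : X ^ p ∣ rho p I ^ p - 1 := by
      have h5 := congrArg (rho p) hI
      rw [map_mul, map_pow, map_pow, map_sub, map_one, rho_X, sub_pow_char, one_pow] at h5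
      exact ⟨rho p I ^ p, by linear_combination h5⟩
    have h6 : X ^ p ∣ rho p (Z : ℤ⟦X⟧) * rho p (V (-2)) * rho p I ^ p
        - rho p (Z : ℤ⟦X⟧) * (1 + C ((8 : ℤ) : ZMod p) * X ^ 3) ^ n := by
      have h7 : rho p (Z : ℤ⟦X⟧) * rho p (V (-2)) * rho p I ^ p
        - rho p (Z : ℤ⟦X⟧) * (1 + C ((8 : ℤ) : ZMod p) * X ^ 3) ^ n
        = (rho p (Z : ℤ⟦X⟧) * rho p (V (-2))) * (rho p I ^ p - 1)
          + rho p (Z : ℤ⟦X⟧) * (rho p (V (-2)) - (1 + C ((8 : ℤ) : ZMod p) * X ^ 3) ^ n) := by ring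
      rw [h7]
      refine dvd_add (Dvd.dvd.mul_left hIp _) (Dvd.dvd.mul_left ?_ _)
      exact (pow_dvd_pow X (by omega : p ≤ 3 * p)).trans hcmp
    have hC8 : (Polynomial.C (8 : ZMod p) : Polynomial (ZMod p)) = 8 := map_ofNat _ 8
    rw [coeff_eq_of_dvd h6 (by omega), cast_coeff_poly,
      show ((8 : ℤ) : ZMod p) = 8 by norm_num, hC8]
  have hu : ((coeff (p - 1) (V (-2)) : ℤ) : ZMod p) = (n.choose M : ZMod p) := by
    rw [← coeff_rho, coeff_eq_of_dvd hcmp (by omega), coeff_N p n M hp hM]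
    push_cast
    rw [g2, mul_one]
  rw [g2, mul_one, ← hΔp] at hpol
  have hpol' := (mul_eq_zero.mp hpol).resolve_left g4
  have hfin := finish p (cn 2 3 n) (coeff (p - 1) (V (-2))) Δ q 1 hc (by
    rw [hu]; push_cast
    linear_combination 3 * hpol' + g1)
  rw [hfin, coeff_V' (-2) p M hM]
  have hd := (two_pow_data p M hM q hq).1
  have he : ((-2 : ℤ) ^ M) = 2 ^ M := by rw [hMK, pow_mul, pow_mul]; norm_num
  rw [he]
  push_cast
  linear_combination (-(Nat.centralBinom M : ZMod (p ^ 2))) * hd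

theorem c43_mod (p n M K : ℕ) [Fact p.Prime] (hp : p = 2 * n + 1) (hM : p = 3 * M + 1)
    (hK : p = 6 * K + 1) (hK0 : 0 < K) (q : ℤ) (hq : (2 : ℤ) ^ (p - 1) = 1 + p * q) :
    3 * ((cn 4 (-3) n : ℤ) : ZMod (p ^ 2))
      = 3 * (2 ^ (p * M) * (Nat.centralBinom M : ZMod (p ^ 2))) := by
  have hpr : p.Prime := Fact.out
  have hMK : M = 2 * K := by omega
  obtain ⟨Z, hZ, hU, Z1, Z3, Z4⟩ := exists_Z43 p n hp q hq
  have hpol := pol43 (F := ZMod p) p n M (fun x => ZMod.pow_card x) hp hM (by omega)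
    (q : ZMod p) _ Z1 Z3 Z4
  obtain ⟨g1, g2, g3, g4⟩ := gam_data p n M K hp hM hK hK0 q hq
  -- the series identity over the integers
  have hZs := congrArg (Polynomial.coeToPowerSeries.ringHom : Polynomial ℤ →+* ℤ⟦X⟧) hZ
  simp only [map_sub, map_mul, map_add, map_pow, map_one, map_ofNat, map_D,
    Polynomial.coeToPowerSeries.ringHom_apply, Polynomial.coe_X, Polynomial.coe_C] at hZs
  have hDV := DV43 p hpr.pos
  set DD := D (1 + 2 * X : ℤ⟦X⟧) (X ^ 2) p with hDD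
  set UU := U (1 + 2 * X : ℤ⟦X⟧) (X ^ 2) (p - 1) with hUU
  have hc : cn 4 (-3) n = coeff (p - 1) (V (-16)) + p * coeff (p - 1) ((Z : ℤ⟦X⟧) * V (-16)) := by
    rw [c43, show 2 * n = p - 1 by omega, ← hUU]
    have h1 : coeff (p - 1) (UU * tgs 2 (-3)) = coeff (p - 1) (DD * V (-16)) := by
      symm
      exact coeff_eq_of_dvd hDV (by omega)
    have h2 : DD * V (-16) = V (-16) + C (p : ℤ) * ((Z : ℤ⟦X⟧) * V (-16))
        + X ^ p * (2 * V (-16)) := by
      linear_combination (V (-16)) * hZs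
    rw [h1, h2, map_add, map_add, coeff_C_mul, coeff_X_pow_mul', if_neg (by omega), add_zero]
  -- reduction of Δ
  obtain ⟨Δ, hΔ⟩ : ∃ Δ, Δ = coeff (p - 1) ((Z : ℤ⟦X⟧) * V (-16)) := ⟨_, rfl⟩
  rw [← hΔ] at hc
  have hcmp := V_cmp p n hp (-16)
  have hw8 : (-((4 * (-16) : ℤ) : ZMod p)) = ((64 : ℤ) : ZMod p) := by push_cast; ring
  rw [hw8] at hcmp
  have hΔp : (Δ : ZMod p) = ((Z.map (Int.castRingHom (ZMod p))) *
        (1 + 64 * Polynomial.X ^ 3) ^ n).coeff (p - 1) := by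
    have hmm : rho p ((Z : ℤ⟦X⟧) * V (-16)) = rho p (Z : ℤ⟦X⟧) * rho p (V (-16)) := by
      rw [map_mul]
    rw [hΔ, ← coeff_rho, hmm]
    have h6 : X ^ p ∣ rho p (Z : ℤ⟦X⟧) * rho p (V (-16))
        - rho p (Z : ℤ⟦X⟧) * (1 + C ((64 : ℤ) : ZMod p) * X ^ 3) ^ n := by
      rw [← mul_sub]
      exact Dvd.dvd.mul_left ((pow_dvd_pow X (by omega : p ≤ 3 * p)).trans hcmp) _
    have hC64 : (Polynomial.C (64 : ZMod p) : Polynomial (ZMod p)) = 64 := map_ofNat _ 64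
    rw [coeff_eq_of_dvd h6 (by omega), cast_coeff_poly,
      show ((64 : ℤ) : ZMod p) = 64 by norm_num, hC64]
  have hu : ((coeff (p - 1) (V (-16)) : ℤ) : ZMod p) = (n.choose M : ZMod p) := by
    rw [← coeff_rho, coeff_eq_of_dvd hcmp (by omega), coeff_N p n M hp hM]
    push_cast
    rw [g3, mul_one]
  rw [g3, mul_one, ← hΔp] at hpol
  have hpol' := (mul_eq_zero.mp hpol).resolve_left g4
  have hfin := finish p (cn 4 (-3) n) (coeff (p - 1) (V (-16))) Δ q 4 hc (by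
    rw [hu]; push_cast
    linear_combination 3 * hpol' + g1)
  rw [hfin, coeff_V' (-16) p M hM]
  obtain ⟨hd, hd2⟩ := two_pow_data p M hM q hq
  have he : ((-16 : ℤ) ^ M) = 16 ^ M := by rw [hMK, pow_mul, pow_mul]; norm_num
  have hpp := p_sq_zero p
  rw [he]
  push_cast
  rw [hd2]
  linear_combination (-(Nat.centralBinom M : ZMod (p ^ 2))) * hd
    - 4 * (Nat.centralBinom M : ZMod (p ^ 2)) * 2 ^ M * (q : ZMod (p ^ 2)) ^ 2 * hpp

end H27Tri
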