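import Pool.Agent.Helper27.Tri.Compare

/-!
# The case `p ≡ 2 (mod 3)`
-/

open PowerSeries Finset

namespace H27Tri

theorem two_ne_zero_zmod (p : ℕ) [Fact p.Prime] (hp : 2 < p) : (2 : ZMod p) ≠ 0 := by
  intro h0
  have : ((2 : ℕ) : ZMod p) = 0 := by exact_mod_cast h0
  rw [ZMod.natCast_eq_zero_iff] at this
  have := Nat.le_of_dvd (by norm_num) this
  omega

theorem coeff_cube_zero (p n m : ℕ) (w : ZMod p) (hm : ¬ 3 ∣ m) :
    ((1 + Polynomial.C w * Polynomial.X ^ 3 : Polynomial (ZMod p)) ^ n).coeff m = 0 := by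
  have : (1 + Polynomial.C w * Polynomial.X ^ 3 : Polynomial (ZMod p)) ^ n
      = Polynomial.expand (ZMod p) 3 ((1 + Polynomial.C w * Polynomial.X) ^ n) := by
    rw [map_pow, map_add, map_mul, Polynomial.expand_C, Polynomial.expand_X, map_one]
  rw [this, Polynomial.coeff_expand (by norm_num), if_neg hm]

theorem U23_mod (p n : ℕ) [Fact p.Prime] (hp : p = 2 * n + 1) (hp3 : 2 < p) :
    U (1 + 2 * Polynomial.X ^ 2 : Polynomial (ZMod p)) ((Polynomial.X - Polynomial.X ^ 2) ^ 2) (p - 1)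
      = (1 + 8 * Polynomial.X ^ 3) ^ n := by
  have hQ : ((1 + 2 * Polynomial.X ^ 2) ^ 2 - 4 * (Polynomial.X - Polynomial.X ^ 2) ^ 2 :
      Polynomial (ZMod p)) = 1 + 8 * Polynomial.X ^ 3 := by ring
  have hQ0 : ((1 + 2 * Polynomial.X ^ 2) ^ 2 - 4 * (Polynomial.X - Polynomial.X ^ 2) ^ 2 :
      Polynomial (ZMod p)) ≠ 0 := by
    rw [hQ]
    intro h
    have := congrArg (Polynomial.eval 0) h
    simp at this
  have h1 := U_charP p ⟨n, hp⟩ (1 + 2 * Polynomial.X ^ 2 : Polynomial (ZMod p))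
    (Polynomial.X - Polynomial.X ^ 2) hQ0
  rw [hQ, show (p - 1) / 2 = n by omega] at h1
  rcases h1 with h1 | h1
  · exact h1
  · exfalso
    have h3 : (Polynomial.evalRingHom (0 : ZMod p)) (U (1 + 2 * Polynomial.X ^ 2 :
        Polynomial (ZMod p)) ((Polynomial.X - Polynomial.X ^ 2) ^ 2) (p - 1)) = 1 := by
      rw [map_U]
      simp [U_zero_arg]
    rw [h1] at h3
    simp at h3
    apply two_ne_zero_zmod p hp3
    linear_combination -h3

theorem U43_mod (p n : ℕ) [Fact p.Prime] (hp : p = 2 * n + 1) (hp3 : 2 < p) :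
    U (1 + 2 * Polynomial.X : Polynomial (ZMod p)) (Polynomial.X ^ 2) (p - 1)
      = (1 + 4 * Polynomial.X) ^ n := by
  have hQ : ((1 + 2 * Polynomial.X) ^ 2 - 4 * Polynomial.X ^ 2 :
      Polynomial (ZMod p)) = 1 + 4 * Polynomial.X := by ring
  have hQ0 : ((1 + 2 * Polynomial.X) ^ 2 - 4 * Polynomial.X ^ 2 :
      Polynomial (ZMod p)) ≠ 0 := by
    rw [hQ]
    intro h
    have := congrArg (Polynomial.eval 0) h
    simp at this
  have h1 := U_charP p ⟨n, hp⟩ (1 + 2 * Polynomial.X : Polynomial (ZMod p)) Polynomial.X hQ0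
  rw [hQ, show (p - 1) / 2 = n by omega] at h1
  rcases h1 with h1 | h1
  · exact h1
  · exfalso
    have h3 : (Polynomial.evalRingHom (0 : ZMod p)) (U (1 + 2 * Polynomial.X :
        Polynomial (ZMod p)) (Polynomial.X ^ 2) (p - 1)) = 1 := by
      rw [map_U]
      simp [U_zero_arg]
    rw [h1] at h3
    simp at h3
    apply two_ne_zero_zmod p hp3
    linear_combination -h3

theorem c23_mod_two (p n : ℕ) [Fact p.Prime] (hp : p = 2 * n + 1) (hp3 : 2 < p)
    (h3 : p % 3 = 2) : ((cn 2 3 n : ℤ) : ZMod p) = 0 := by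
  have hcharP := charP_ps p
  rw [c23, show 2 * n + 1 = p by omega, show 2 * n = p - 1 by omega, ← coeff_rho]
  have hmm : rho p (U (1 + 2 * X ^ 2 : ℤ⟦X⟧) ((X - X ^ 2) ^ 2) (p - 1) * I ^ p)
      = rho p (U (1 + 2 * X ^ 2 : ℤ⟦X⟧) ((X - X ^ 2) ^ 2) (p - 1)) * rho p I ^ p := by
    rw [map_mul, map_pow]
  have hU : rho p (U (1 + 2 * X ^ 2 : ℤ⟦X⟧) ((X - X ^ 2) ^ 2) (p - 1))
      = ((1 + Polynomial.C (8 : ZMod p) * Polynomial.X ^ 3 : Polynomial (ZMod p)) ^ n :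
        Polynomial (ZMod p)) := by
    have h1 := congrArg (Polynomial.coeToPowerSeries.ringHom : Polynomial (ZMod p) →+* (ZMod p)⟦X⟧)
      (U23_mod p n hp hp3)
    simp only [map_sub, map_mul, map_add, map_pow, map_one, map_ofNat, map_U,
      Polynomial.coeToPowerSeries.ringHom_apply, Polynomial.coe_X] at h1
    have e : rho p (U (1 + 2 * X ^ 2 : ℤ⟦X⟧) ((X - X ^ 2) ^ 2) (p - 1))
        = U (1 + 2 * X ^ 2 : (ZMod p)⟦X⟧) ((X - X ^ 2) ^ 2) (p - 1) := by
      rw [map_U]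
      simp only [map_sub, map_mul, map_add, map_pow, map_one, map_ofNat, rho_X]
    rw [e, h1, Polynomial.coe_pow, Polynomial.coe_add, Polynomial.coe_one, Polynomial.coe_mul,
      Polynomial.coe_pow, Polynomial.coe_X, Polynomial.coe_C, map_ofNat]
  have hI : I ^ p * (1 - X) ^ p = 1 := by rw [← mul_pow, I_mul, one_pow]
  have hIp : X ^ p ∣ rho p I ^ p - 1 := by
    have h5 := congrArg (rho p) hI
    rw [map_mul, map_pow, map_pow, map_sub, map_one, rho_X, sub_pow_char, one_pow] at h5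
    exact ⟨rho p I ^ p, by linear_combination h5⟩
  rw [hmm, hU]
  have h6 : X ^ p ∣ ((((1 + Polynomial.C (8 : ZMod p) * Polynomial.X ^ 3 : Polynomial (ZMod p)) ^ n :
        Polynomial (ZMod p)) : (ZMod p)⟦X⟧) * rho p I ^ p)
        - (((1 + Polynomial.C (8 : ZMod p) * Polynomial.X ^ 3 : Polynomial (ZMod p)) ^ n :
        Polynomial (ZMod p)) : (ZMod p)⟦X⟧) := by
    rw [← mul_sub_one]
    exact Dvd.dvd.mul_left hIp _
  rw [coeff_eq_of_dvd h6 (by omega), Polynomial.coeff_coe]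
  exact coeff_cube_zero p n (p - 1) 8 (by omega)

theorem c43_mod_two (p n : ℕ) [Fact p.Prime] (hp : p = 2 * n + 1) (hp3 : 2 < p)
    (h3 : p % 3 = 2) : ((cn 4 (-3) n : ℤ) : ZMod p) = 0 := by
  have hcharP := charP_ps p
  rw [c43, show 2 * n = p - 1 by omega, ← coeff_rho]
  have hmm : rho p (U (1 + 2 * X : ℤ⟦X⟧) (X ^ 2) (p - 1) * tgs 2 (-3))
      = rho p (U (1 + 2 * X : ℤ⟦X⟧) (X ^ 2) (p - 1)) * rho p (tgs 2 (-3)) := by
    rw [map_mul]
  have hU : rho p (U (1 + 2 * X : ℤ⟦X⟧) (X ^ 2) (p - 1)) = (1 + 4 * X) ^ n := by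
    have h1 := congrArg (Polynomial.coeToPowerSeries.ringHom : Polynomial (ZMod p) →+* (ZMod p)⟦X⟧)
      (U43_mod p n hp hp3)
    simp only [map_sub, map_mul, map_add, map_pow, map_one, map_ofNat, map_U,
      Polynomial.coeToPowerSeries.ringHom_apply, Polynomial.coe_X] at h1
    rw [map_U]
    simp only [map_sub, map_mul, map_add, map_pow, map_one, map_ofNat, rho_X]
    rw [h1]
  have hT := tgs_sq 2 (-3)
  have h4 : (C (2 * 2) : ℤ⟦X⟧) = 4 := by
    rw [show (2 * 2 : ℤ) = 4 by norm_num]; exact map_ofNat C 4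
  have h5 : (C (2 ^ 2 - 4 * (-3)) : ℤ⟦X⟧) = 16 := by
    rw [show (2 ^ 2 - 4 * (-3) : ℤ) = 16 by norm_num]; exact map_ofNat C 16
  rw [h4, h5] at hT
  have hT' := congrArg (rho p) hT
  simp only [map_sub, map_mul, map_add, map_pow, map_one, map_ofNat, rho_X] at hT'
  have hcmp : X ^ p ∣ rho p (tgs 2 (-3)) - (1 - 4 * X + 16 * X ^ 2) ^ n := by
    apply cmp (two_ne_zero_zmod p hp3)
    · rw [← coeff_zero_eq_constantCoeff_apply, coeff_rho]
      simp [tgs, trinom_zero]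
    · simp
    · have hu : constantCoeff (1 - 4 * X + 16 * X ^ 2 : (ZMod p)⟦X⟧) = 1 := by simp
      apply cancel_unit hu
      have h4p : (4 : (ZMod p)⟦X⟧) ^ p = 4 := by
        have : (C (4 : ZMod p) : (ZMod p)⟦X⟧) ^ p = C 4 := by rw [← map_pow, ZMod.pow_card]
        rwa [map_ofNat] at this
      have h16p : (16 : (ZMod p)⟦X⟧) ^ p = 16 := by
        have : (C (16 : ZMod p) : (ZMod p)⟦X⟧) ^ p = C 16 := by rw [← map_pow, ZMod.pow_card]
        rwa [map_ofNat] at this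
      have e1 : (1 - 4 * X + 16 * X ^ 2 : (ZMod p)⟦X⟧) ^ p = 1 - 4 * X ^ p + 16 * (X ^ p) ^ 2 := by
        rw [add_pow_char, sub_pow_char, one_pow, mul_pow, mul_pow, h4p, h16p, ← pow_mul,
          ← pow_mul, mul_comm 2 p]
      have e3 : (1 - 4 * X + 16 * X ^ 2 : (ZMod p)⟦X⟧) * ((1 - 4 * X + 16 * X ^ 2) ^ n) ^ 2
          = (1 - 4 * X + 16 * X ^ 2) ^ p := by
        rw [← pow_mul, ← pow_succ']; congr 1; omega
      refine ⟨4 - 16 * X ^ p, ?_⟩
      rw [mul_sub, e3, e1]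
      linear_combination hT'
  rw [hmm, hU]
  have h6 : X ^ p ∣ ((1 + 4 * X : (ZMod p)⟦X⟧) ^ n * rho p (tgs 2 (-3)))
        - (((1 + Polynomial.C (64 : ZMod p) * Polynomial.X ^ 3 : Polynomial (ZMod p)) ^ n :
        Polynomial (ZMod p)) : (ZMod p)⟦X⟧) := by
    have h7 : (((1 + Polynomial.C (64 : ZMod p) * Polynomial.X ^ 3 : Polynomial (ZMod p)) ^ n :
        Polynomial (ZMod p)) : (ZMod p)⟦X⟧) = (1 + 4 * X) ^ n * (1 - 4 * X + 16 * X ^ 2) ^ n := by
      rw [Polynomial.coe_pow, Polynomial.coe_add, Polynomial.coe_one, Polynomial.coe_mul,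
        Polynomial.coe_pow, Polynomial.coe_X, Polynomial.coe_C, map_ofNat, ← mul_pow]
      congr 1; ring
    rw [h7, ← mul_sub]
    exact Dvd.dvd.mul_left hcmp _
  rw [coeff_eq_of_dvd h6 (by omega), Polynomial.coeff_coe]
  exact coeff_cube_zero p n (p - 1) 64 (by omega)

end H27Tri
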