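import Pool.Agent.Helper27.Tri.Reduce
import Pool.Agent.Helper27.Tri.ModSq
import Pool.Agent.Helper27.Tri.TwoModThree

/-!
# The congruences for the sums
-/

open Finset

namespace H27Tri

/-- Terms with `(p - 1) / 2 < k < p` vanish modulo `p`. -/
theorem tail_mod (p n : ℕ) [Fact p.Prime] (hp : p = 2 * n + 1) (b c : ℤ) :
    ((numer b c (p - 1) (p - 1) : ℤ) : ZMod p)
      = 16 ^ (p - 1 - n) * ((numer b c n n : ℤ) : ZMod p) := by
  have hpr : p.Prime := Fact.out
  unfold numer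
  have hsub : range (n + 1) ⊆ range (p - 1 + 1) := by
    intro k hk
    rw [mem_range] at hk ⊢
    omega
  have hz : ∀ k ∈ range (p - 1 + 1), k ∉ range (n + 1) →
      ((((2 * k).choose k : ℤ) * 16 ^ (p - 1 - k) * trinom (2 * k) b c : ℤ) : ZMod p) = 0 := by
    intro k h1 h2
    rw [mem_range] at h1 h2
    have h3 : p ∣ (k + k).choose k := hpr.dvd_choose_add (by omega) (by omega) (by omega)
    rw [← two_mul] at h3
    have h4 : (((2 * k).choose k : ℕ) : ZMod p) = 0 := (ZMod.natCast_eq_zero_iff _ _).mpr h3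
    push_cast
    rw [h4]; ring
  rw [Int.cast_sum, ← sum_subset hsub hz, Int.cast_sum, mul_sum]
  refine sum_congr rfl fun k hk => ?_
  rw [mem_range] at hk
  push_cast
  rw [show p - 1 - k = (p - 1 - n) + (n - k) by omega, pow_add]
  ring

theorem red_numer (p n : ℕ) [Fact p.Prime] (hp : p = 2 * n + 1) (b c : ℤ) :
    ((numer b c n n : ℤ) : ZMod p) = 16 ^ n * (-1) ^ n * ((cn b c n : ℤ) : ZMod p) := by
  have h := congrArg (red p) (numer_mod p n hp b c)
  rw [red_intCast, map_mul, map_mul, map_pow, map_pow, red_intCast, map_neg, map_one,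
    map_ofNat] at h
  exact h

/-- The case `p ≡ 2 (mod 3)`. -/
theorem final_two (p n : ℕ) [Fact p.Prime] (hp : p = 2 * n + 1) (hp3 : 2 < p) (b c : ℤ)
    (hcn : ((cn b c n : ℤ) : ZMod p) = 0) :
    CongMod p 1 (∑ k ∈ range ((p - 1) / 2 + 1), ((2 * k).choose k : ℚ) / 16 ^ k * (trinom (2 * k) b c : ℚ)) 0 ∧
    CongMod p 1 (∑ k ∈ range p, ((2 * k).choose k : ℚ) / 16 ^ k * (trinom (2 * k) b c : ℚ)) 0 := by
  have hpr : p.Prime := Fact.out
  have hn : (p - 1) / 2 = n := by omega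
  have h1 := red_numer p n hp b c
  rw [hcn, mul_zero] at h1
  have h2 := tail_mod p n hp b c
  rw [h1, mul_zero] at h2
  constructor
  · refine congMod_of_int p 1 _ _ (numer b c n n) (16 ^ n) (not_dvd_pow_two hpr hp3 n) ?_ ?_
    · rw [numer_cast b c n n le_rfl, hn]; push_cast; ring
    · rw [pow_one]; exact (ZMod.intCast_zmod_eq_zero_iff_dvd _ _).mp h1
  · refine congMod_of_int p 1 _ _ (numer b c (p - 1) (p - 1)) (16 ^ (p - 1))
      (not_dvd_pow_two hpr hp3 _) ?_ ?_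
    · rw [numer_cast b c (p - 1) (p - 1) le_rfl, show p - 1 + 1 = p by omega]; push_cast; ring
    · rw [pow_one]; exact (ZMod.intCast_zmod_eq_zero_iff_dvd _ _).mp h2

/-- The case `p ≡ 1 (mod 3)`. -/
theorem final_one (p n : ℕ) [Fact p.Prime] (hp : p = 2 * n + 1) (hp3 : 3 < p) (b c : ℤ)
    (x y : ℤ) (hxy : (p : ℤ) = x ^ 2 + 3 * y ^ 2)
    (hcn : 2 * (x : ZMod (p ^ 2)) * ((cn b c n : ℤ) : ZMod (p ^ 2))
      = 4 * (x : ZMod (p ^ 2)) ^ 2 - (p : ZMod (p ^ 2))) :
    CongMod p 2 (∑ k ∈ range ((p - 1) / 2 + 1), ((2 * k).choose k : ℚ) / 16 ^ k * (trinom (2 * k) b c : ℚ))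
      ((-1) ^ ((p - 1) / 2) * (2 * (x : ℚ) - (p : ℚ) / (2 * (x : ℚ)))) ∧
    CongMod p 1 (∑ k ∈ range p, ((2 * k).choose k : ℚ) / 16 ^ k * (trinom (2 * k) b c : ℚ))
      ((-1) ^ ((p - 1) / 2) * (2 * (x : ℚ) - (p : ℚ) / (2 * (x : ℚ)))) := by
  have hpr : p.Prime := Fact.out
  have hpi : Prime (p : ℤ) := Nat.prime_iff_prime_int.mp hpr
  have hn : (p - 1) / 2 = n := by omega
  have hpx : ¬ (p : ℤ) ∣ x := by
    intro h
    have h1 : (p : ℤ) ∣ 3 * y ^ 2 := by
      have : 3 * y ^ 2 = (p : ℤ) - x * x := by rw [hxy]; ring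
      rw [this]
      exact dvd_sub dvd_rfl (h.mul_right x)
    have h2 : (p : ℤ) ∣ y := by
      rcases hpi.dvd_or_dvd h1 with h2 | h2
      · have := Int.le_of_dvd (by norm_num) h2
        omega
      · exact hpi.dvd_of_dvd_pow h2
    obtain ⟨a, ha⟩ := h
    obtain ⟨d, hd⟩ := h2
    rw [ha, hd] at hxy
    have hp0 : (p : ℤ) ≠ 0 := by exact_mod_cast hpr.ne_zero
    have h3 : (1 : ℤ) = p * (a ^ 2 + 3 * d ^ 2) := by
      apply mul_left_cancel₀ hp0
      linear_combination hxy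
    have h4 : (p : ℤ) ∣ 1 := ⟨_, h3⟩
    have := Int.le_of_dvd (by norm_num) h4
    omega
  have hx0 : (x : ℚ) ≠ 0 := by
    intro h
    have : x = 0 := by exact_mod_cast h
    rw [this] at hpx
    exact hpx (dvd_zero _)
  have h2p : ¬ (p : ℤ) ∣ 2 := by
    intro h
    have := Int.le_of_dvd (by norm_num) h
    omega
  have hE : ∀ N : ℕ, ¬ (p : ℤ) ∣ 16 ^ N * (2 * x) := by
    intro N h
    rcases hpi.dvd_or_dvd h with h1 | h1
    · exact not_dvd_pow_two hpr (by omega) N h1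
    · rcases hpi.dvd_or_dvd h1 with h2 | h2
      · exact h2p h2
      · exact hpx h2
  have hnum := numer_mod p n hp b c
  constructor
  · refine congMod_of_int p 2 _ _ (2 * x * numer b c n n - 16 ^ n * (-1) ^ n * (4 * x ^ 2 - p))
      (16 ^ n * (2 * x)) (hE n) ?_ ?_
    · rw [hn]
      push_cast
      rw [numer_cast b c n n le_rfl]
      field_simp
      ring
    · have h1 : ((2 * x * numer b c n n - 16 ^ n * (-1) ^ n * (4 * x ^ 2 - p) : ℤ) : ZMod (p ^ 2)) = 0 := by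
        push_cast
        rw [hnum]
        linear_combination (16 ^ n * (-1) ^ n) * hcn
      have h2 := (ZMod.intCast_zmod_eq_zero_iff_dvd _ _).mp h1
      exact_mod_cast h2
  · have hcn' := congrArg (red p) hcn
    rw [map_mul, map_mul, red_intCast, red_intCast, map_sub, map_mul, map_pow, red_intCast,
      red_natCast, map_ofNat, map_ofNat] at hcn'
    refine congMod_of_int p 1 _ _
      (2 * x * numer b c (p - 1) (p - 1) - 16 ^ (p - 1) * (-1) ^ n * (4 * x ^ 2 - p))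
      (16 ^ (p - 1) * (2 * x)) (hE (p - 1)) ?_ ?_
    · rw [hn]
      push_cast
      rw [numer_cast b c (p - 1) (p - 1) le_rfl, show p - 1 + 1 = p by omega]
      field_simp
      ring
    · have h1 : ((2 * x * numer b c (p - 1) (p - 1) - 16 ^ (p - 1) * (-1) ^ n * (4 * x ^ 2 - p) : ℤ)
          : ZMod p) = 0 := by
        push_cast
        rw [tail_mod p n hp b c, red_numer p n hp b c,
          show (16 : ZMod p) ^ (p - 1) = 16 ^ (p - 1 - n) * 16 ^ n by
            rw [← pow_add]; congr 1; omega]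
        linear_combination (16 ^ (p - 1 - n) * 16 ^ n * (-1) ^ n) * hcn'
      rw [pow_one]
      exact (ZMod.intCast_zmod_eq_zero_iff_dvd _ _).mp h1

/-- The value of `cn` for `p ≡ 1 (mod 3)`. -/
theorem cn_values (p n M K : ℕ) [Fact p.Prime] (hp : p = 2 * n + 1) (hM : p = 3 * M + 1)
    (hK : p = 6 * K + 1) (hK0 : 0 < K) (x y : ℤ) (hxy : (p : ℤ) = x ^ 2 + 3 * y ^ 2)
    (hx3 : x % 3 = 1) :
    2 * (x : ZMod (p ^ 2)) * ((cn 2 3 n : ℤ) : ZMod (p ^ 2))
      = 4 * (x : ZMod (p ^ 2)) ^ 2 - (p : ZMod (p ^ 2)) ∧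
    2 * (x : ZMod (p ^ 2)) * ((cn 4 (-3) n : ℤ) : ZMod (p ^ 2))
      = 4 * (x : ZMod (p ^ 2)) ^ 2 - (p : ZMod (p ^ 2)) := by
  have hpr : p.Prime := Fact.out
  have hMK : M = 2 * K := by omega
  obtain ⟨q, hq⟩ : ∃ q : ℤ, (2 : ℤ) ^ (p - 1) = 1 + p * q := by
    have h1 : ((2 : ℕ) : ZMod p) ≠ 0 := by
      rw [Ne, ZMod.natCast_eq_zero_iff]
      intro h
      have := Nat.le_of_dvd (by norm_num) h
      omega
    have h2 := ZMod.pow_card_sub_one_eq_one h1
    have h3 : (((2 : ℤ) ^ (p - 1) - 1 : ℤ) : ZMod p) = 0 := by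
      push_cast at h2 ⊢
      rw [h2]; ring
    obtain ⟨q, hq⟩ := (ZMod.intCast_zmod_eq_zero_iff_dvd _ _).mp h3
    exact ⟨q, by linarith⟩
  obtain ⟨x', y', δ, hxy', hx3', hδ, hθ⟩ := exists_rep p M hM (by omega) ⟨K, by omega⟩
  have hxx : x = x' := rep_unique hpr hxy hxy' hx3 hx3'
  subst hxx
  have hθu : IsUnit ((2 : ZMod (p ^ 2)) ^ (p * M) * ((Nat.centralBinom M : ℕ) : ZMod (p ^ 2))) := by
    apply IsUnit.mul
    · have := nat_isUnit (p := p) (k := 2) (by norm_num) (by omega)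
      push_cast at this
      exact this.pow _
    · apply isUnit_of_red
      rw [red_natCast, Ne, ZMod.natCast_eq_zero_iff, Nat.centralBinom_eq_two_mul_choose]
      intro h
      have h1 : p ∣ (2 * M).factorial := by
        rw [← Nat.choose_mul_factorial_mul_factorial (n := 2 * M) (k := M) (by omega)]
        exact (h.mul_right _).mul_right _
      rw [hpr.dvd_factorial] at h1
      omega
  have hval := theta_eq x y' δ _ hxy' hδ hθ hθu
  have h3u : IsUnit (3 : ZMod (p ^ 2)) := by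
    have := nat_isUnit (p := p) (k := 3) (by norm_num) (by omega)
    exact_mod_cast this
  have e1 := h3u.mul_left_cancel (c23_mod p n M K hp hM hK hK0 q hq)
  have e2 := h3u.mul_left_cancel (c43_mod p n M K hp hM hK hK0 q hq)
  exact ⟨by rw [e1]; exact hval, by rw [e2]; exact hval⟩

end H27Tri
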