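import Mathlib

/-!
# The polynomial `G` and coefficient extraction in characteristic `p`
-/

open Polynomial Finset

namespace H27Tri

variable {F : Type*} [Field F]

/-- `γ = ∑_{m ≠ M} C(n,m) (-1)^m / (3m+1)`. -/
noncomputable def gam (F : Type*) [Field F] (n M : ℕ) : F :=
  ∑ m ∈ (range (n + 1)).erase M, (n.choose m : F) * (-1) ^ m / (3 * m + 1 : ℕ)

/-- `G = ∑_{m ≠ M} C(n,m) κ^m X^(3m+1) / (3m+1)`. -/
noncomputable def Gp (κ : F) (n M : ℕ) : F[X] :=
  ∑ m ∈ (range (n + 1)).erase M, C ((n.choose m : F) * κ ^ m / (3 * m + 1 : ℕ)) * X ^ (3 * m + 1)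

theorem cast_ne_zero_aux (p n M : ℕ) [CharP F p] (hp : p = 2 * n + 1) (hM : p = 3 * M + 1)
    {m : ℕ} (hm : m ∈ (range (n + 1)).erase M) : ((3 * m + 1 : ℕ) : F) ≠ 0 := by
  rw [mem_erase, mem_range] at hm
  intro h0
  rw [CharP.cast_eq_zero_iff F p] at h0
  obtain ⟨k, hk⟩ := h0
  rcases k with _ | _ | k
  · omega
  · apply hm.1; omega
  · have : p * (k + 1 + 1) ≥ p * 2 := Nat.mul_le_mul_left p (by omega)
    omega

theorem Gp_derivative (p n M : ℕ) [CharP F p] (hp : p = 2 * n + 1) (hM : p = 3 * M + 1) (κ : F) :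
    derivative (Gp κ n M) = (1 + C κ * X ^ 3) ^ n - C ((n.choose M : F) * κ ^ M) * X ^ (p - 1) := by
  unfold Gp
  rw [derivative_sum]
  have hMn : M ∈ range (n + 1) := by rw [mem_range]; omega
  have h1 : ∑ m ∈ (range (n + 1)).erase M,
      derivative (C ((n.choose m : F) * κ ^ m / (3 * m + 1 : ℕ)) * X ^ (3 * m + 1))
      = ∑ m ∈ (range (n + 1)).erase M, C ((n.choose m : F) * κ ^ m) * X ^ (3 * m) := by
    refine sum_congr rfl fun m hm => ?_
    have h0 := cast_ne_zero_aux (F := F) p n M hp hM hm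
    rw [derivative_C_mul_X_pow, Nat.add_sub_cancel, div_mul_cancel₀ _ h0]
  rw [h1]
  have h2 := sum_erase_add (range (n + 1)) (fun m => C ((n.choose m : F) * κ ^ m) * X ^ (3 * m)) hMn
  have h3 : (1 + C κ * X ^ 3 : F[X]) ^ n
      = ∑ m ∈ range (n + 1), C ((n.choose m : F) * κ ^ m) * X ^ (3 * m) := by
    rw [add_comm, add_pow]
    refine sum_congr rfl fun m _ => ?_
    rw [one_pow, mul_one, mul_pow, ← pow_mul, C_mul, C_pow, ← C_eq_natCast]
    ring
  rw [h3, ← h2, show p - 1 = 3 * M by omega]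
  ring

theorem Gp_coeff_zero (κ : F) (n M : ℕ) : (Gp κ n M).coeff 0 = 0 := by
  unfold Gp
  rw [finsetSum_coeff]
  refine sum_eq_zero fun m _ => ?_
  rw [coeff_C_mul_X_pow, if_neg (by omega)]

theorem Gp_coeff_p (p n M : ℕ) (hM : p = 3 * M + 1) (κ : F) : (Gp κ n M).coeff p = 0 := by
  unfold Gp
  rw [finsetSum_coeff]
  refine sum_eq_zero fun m hm => ?_
  rw [mem_erase] at hm
  rw [coeff_C_mul_X_pow, if_neg (by intro h; apply hm.1; omega)]

theorem Gp_natDegree (κ : F) (n M : ℕ) : (Gp κ n M).natDegree ≤ 3 * n + 1 := by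
  unfold Gp
  refine natDegree_sum_le_of_forall_le _ _ fun m hm => ?_
  rw [mem_erase, mem_range] at hm
  exact (natDegree_C_mul_X_pow_le _ _).trans (by omega)

theorem Gp_eval (κ x : F) (n M : ℕ) (hx : κ * x ^ 3 = -1) :
    (Gp κ n M).eval x = x * gam F n M := by
  unfold Gp gam
  rw [eval_finsetSum, mul_sum]
  refine sum_congr rfl fun m _ => ?_
  rw [eval_mul, eval_C, eval_pow, eval_X, pow_succ, pow_mul, ← hx, mul_pow]
  ring

theorem coeff_derivative_p (p : ℕ) [CharP F p] (f : F[X]) (k : ℕ) (hp : 0 < p) (hk : 0 < k) :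
    (derivative f).coeff (k * p - 1) = 0 := by
  rw [coeff_derivative]
  have h1 : 0 < k * p := Nat.mul_pos hk hp
  have : ((k * p - 1 : ℕ) : F) + 1 = 0 := by
    have : ((k * p - 1 + 1 : ℕ) : F) = 0 := by
      rw [Nat.sub_add_cancel h1, Nat.cast_mul, CharP.cast_eq_zero F p, mul_zero]
    push_cast at this
    exact this
  rw [this, mul_zero]

/-- `G H` with `G' = H - α X^(p-1)` has vanishing coefficients at `p-1` and `2p-1`. -/
theorem coeff_GH (p : ℕ) [CharP F p] (h2 : (2 : F) ≠ 0) (hp : 0 < p) (G H : F[X]) (α : F)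
    (hG : derivative G = H - C α * X ^ (p - 1)) (h0 : G.coeff 0 = 0) (hGp : G.coeff p = 0) :
    (G * H).coeff (p - 1) = 0 ∧ (G * H).coeff (2 * p - 1) = 0 := by
  have e : C (2 : F) * (G * H) = derivative (G ^ 2) + C (2 * α) * (X ^ (p - 1) * G) := by
    rw [derivative_pow, hG]
    have : (C (2 : F) : F[X]) = 2 := map_ofNat C 2
    simp only [map_mul, this]
    norm_num
    rw [this]
    ring
  have key : ∀ k, C (2 : F) * (G * H) = derivative (G ^ 2) + C (2 * α) * (X ^ (p - 1) * G) →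
      (2 : F) * (G * H).coeff k = (derivative (G ^ 2)).coeff k + (2 * α) * (X ^ (p - 1) * G).coeff k := by
    intro k hk
    have := congrArg (fun f => coeff f k) hk
    simp only [coeff_C_mul, coeff_add] at this
    exact this
  constructor
  · have h := key (p - 1) e
    have h3 := coeff_derivative_p p (G ^ 2) 1 hp one_pos
    rw [one_mul] at h3
    rw [h3, coeff_X_pow_mul', if_pos le_rfl, Nat.sub_self, h0] at h
    simpa [h2] using h
  · have h := key (2 * p - 1) e
    have h3 := coeff_derivative_p p (G ^ 2) 2 hp two_pos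
    rw [h3, coeff_X_pow_mul', if_pos (by omega), show 2 * p - 1 - (p - 1) = p by omega, hGp] at h
    simpa [h2] using h

end H27Tri
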