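import Pool.Agent.Helper27.Tri.GPoly
import Pool.Agent.Helper27.Tri.ELemma

/-!
# The polynomial identity for the pair `(2,3)`
-/

open Polynomial Finset

namespace H27Tri

theorem exists_cube_root (p M : ℕ) [Fact p.Prime] (hM : p = 3 * M + 1) :
    ∃ z : ZMod p, z ^ 2 + z + 1 = 0 := by
  have h3 : Fact (Nat.Prime 3) := ⟨by norm_num⟩
  have hc : 3 ∣ Fintype.card (ZMod p)ˣ := by
    rw [ZMod.card_units p]; exact ⟨M, by omega⟩
  obtain ⟨x, hx⟩ := exists_prime_orderOf_dvd_card 3 hc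
  refine ⟨(x : ZMod p), ?_⟩
  have h1 : (x : ZMod p) ^ 3 = 1 := by
    rw [← Units.val_pow_eq_pow_val, ← hx, pow_orderOf_eq_one, Units.val_one]
  have h2 : (x : ZMod p) ≠ 1 := by
    intro h
    have : x = 1 := Units.ext h
    rw [this, orderOf_one] at hx
    omega
  have h4 : ((x : ZMod p) - 1) * ((x : ZMod p) ^ 2 + (x : ZMod p) + 1) = 0 := by
    linear_combination h1
  rcases mul_eq_zero.mp h4 with h | h
  · exact absurd (sub_eq_zero.mp h) h2
  · exact h

variable {F : Type*} [Field F]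

theorem derivative_pow_p (p : ℕ) [CharP F p] (f : F[X]) : derivative (f ^ p) = 0 := by
  rw [derivative_pow, CharP.cast_eq_zero, C_0]
  simp

theorem natCast_pow_p (p : ℕ) [Fact p.Prime] [CharP F p] (k : ℕ) : ((k : F)) ^ p = k := by
  have := ZMod.pow_card ((k : ℕ) : ZMod p)
  have h2 : ((k ^ p : ℕ) : ZMod p) = ((k : ℕ) : ZMod p) := by push_cast; exact_mod_cast this
  rw [ZMod.natCast_eq_natCast_iff] at h2
  have := (CharP.natCast_eq_natCast F p).mpr h2
  push_cast at this
  exact this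

theorem C_pow_p (p : ℕ) [Fact p.Prime] [CharP F p] (k : ℕ) : (C (k : F) : F[X]) ^ p = C (k : F) := by
  rw [← C_pow, natCast_pow_p]

theorem pol23 (p n M : ℕ) [Fact p.Prime] [CharP F p] (hF : ∀ x : F, x ^ p = x)
    (z : F) (hz : z ^ 2 + z + 1 = 0)
    (hp : p = 2 * n + 1) (hM : p = 3 * M + 1) (hM0 : 0 < M)
    (q : F) (Z : F[X])
    (Z1 : X * derivative Z = (1 - 2 * X - 2 * X ^ 2) ^ p
      - (1 - X) ^ (p - 1) * (1 - 2 * X - 2 * X ^ 2) * (1 + 8 * X ^ 3) ^ n)
    (Z3 : Z.natDegree ≤ 3 * p - 1)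
    (Z4 : ∀ x : F, 1 + 8 * x ^ 3 = 0 → Z.eval x = - q * (1 - 2 * x - 2 * x ^ 2)) :
    (n.choose M : F) * 8 ^ M * ((Z * (1 + 8 * X ^ 3) ^ n).coeff (p - 1)
      + (q * ((n.choose M : F) * 8 ^ M) - gam F n M)) = 0 := by
  have hpp : 0 < p := by omega
  have hprime : p.Prime := Fact.out
  set α : F := (n.choose M : F) * 8 ^ M with hα
  set r : F := q * α - gam F n M with hr
  set B : F[X] := 1 - 2 * X - 2 * X ^ 2 with hB
  set N : F[X] := (1 + 8 * X ^ 3) ^ n with hN
  have hC2 : (C (2 : F) : F[X]) = 2 := map_ofNat C 2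
  have hC4 : (C (4 : F) : F[X]) = 4 := map_ofNat C 4
  have hC8 : (C (8 : F) : F[X]) = 8 := map_ofNat C 8
  -- the exactness lemma
  have hda : (1 + 2 * X ^ 2 : F[X]).natDegree ≤ 2 := by
    rw [← hC2]; compute_degree
  have hde : (X - X ^ 2 : F[X]).natDegree ≤ 2 := by compute_degree
  obtain ⟨α', E, hE1, hE2, hE3⟩ := good_quad_pow p (1 + 2 * X ^ 2 : F[X]) (X - X ^ 2) n 2
    hp.symm hda hde (-4) (-8)
  have hQ : ((1 + 2 * X ^ 2) ^ 2 - 4 * (X - X ^ 2) ^ 2 : F[X]) = 1 + 8 * X ^ 3 := by ring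
  have hBd : ((1 + 2 * X ^ 2) * derivative (X - X ^ 2)
      - derivative (1 + 2 * X ^ 2) * (X - X ^ 2) : F[X]) = B := by
    simp [hB]; ring
  have hR : ((1 + 2 * X ^ 2) ^ 2 + C (-4) * ((1 + 2 * X ^ 2) * (X - X ^ 2))
      + C (-8) * (X - X ^ 2) ^ 2 : F[X]) = B ^ 2 := by
    rw [C_neg, C_neg, hC4, hC8, hB]; ring
  rw [hQ, hBd, hR, ← hN] at hE3
  have hB2 : (B ^ 2) ^ n * (B * N) = B ^ p * N := by
    rw [← pow_mul, hp, pow_succ]; ring
  rw [hB2] at hE3
  -- powers
  have h2p : (2 : F[X]) ^ p = 2 := by have := C_pow_p (F := F) p 2; rwa [Nat.cast_ofNat, hC2] at this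
  have h8p : (8 : F[X]) ^ p = 8 := by have := C_pow_p (F := F) p 8; rwa [Nat.cast_ofNat, hC8] at this
  have hBp : B ^ p = 1 - 2 * X ^ p - 2 * X ^ (2 * p) := by
    rw [hB, sub_pow_char, sub_pow_char, one_pow, mul_pow, mul_pow, h2p, ← pow_mul]
  have hQp : (1 + 8 * X ^ 3 : F[X]) ^ p = 1 + 8 * X ^ (3 * p) := by
    rw [add_pow_char, one_pow, mul_pow, h8p, ← pow_mul]
  -- G
  have hG := Gp_derivative (F := F) p n M hp hM 8
  rw [hC8, ← hN, ← hα] at hG
  set G := Gp (8 : F) n M with hGdef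
  have hG0 : G.coeff 0 = 0 := Gp_coeff_zero _ _ _
  have hGp : G.coeff p = 0 := Gp_coeff_p p n M hM _
  -- the polynomial P
  set P : F[X] := C α * (X ^ p * Z) + B ^ p * (C r * X ^ p + G) + (1 + 8 * X ^ 3) ^ (n + 1) * E with hP
  have hXp : (X : F[X]) ^ p = X ^ (p - 1) * X := by
    rw [← pow_succ, Nat.sub_add_cancel hpp]
  have hdX : derivative ((X : F[X]) ^ p) = 0 := derivative_pow_p p X
  have he2n : ((X : F[X]) - X ^ 2) ^ (2 * n) = X ^ (p - 1) * (1 - X) ^ (p - 1) := by
    rw [← mul_pow, show 2 * n = p - 1 by omega]; congr 1; ring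
  have hPd : derivative P = C (α' - α) * (X ^ (p - 1) * ((1 - X) ^ (p - 1) * B * N)) := by
    rw [hP, derivative_add, derivative_add, derivative_C_mul, derivative_mul (f := X ^ p), hdX,
      derivative_mul (f := B ^ p), derivative_pow_p, derivative_add, derivative_C_mul, hdX, hG]
    have h1 : X ^ p * derivative Z = X ^ (p - 1) * (X * derivative Z) := by rw [hXp]; ring
    have hCs : (C (α' - α) : F[X]) = C α' - C α := C_sub
    rw [zero_mul, zero_add, h1, Z1, hCs]
    rw [he2n] at hE3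
    linear_combination hE3
  have hcoef : (X ^ (p - 1) * ((1 - X) ^ (p - 1) * B * N)).coeff (p - 1) = 1 := by
    rw [coeff_X_pow_mul', if_pos le_rfl, Nat.sub_self, mul_coeff_zero, mul_coeff_zero,
      coeff_zero_eq_eval_zero, coeff_zero_eq_eval_zero, coeff_zero_eq_eval_zero]
    simp [hB, hN]
  have hαα : α' - α = 0 := by
    have h1 := coeff_derivative_p p P 1 hpp one_pos
    rw [one_mul, hPd, coeff_C_mul, hcoef, mul_one] at h1
    exact h1
  have hP0 : derivative P = 0 := by rw [hPd, hαα, C_0, zero_mul]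
  -- degree
  have hdB : B.natDegree ≤ 2 := by rw [hB, ← hC2]; compute_degree
  have hdQ : (1 + 8 * X ^ 3 : F[X]).natDegree ≤ 3 := by rw [← hC8]; compute_degree
  have hdG : G.natDegree ≤ 3 * n + 1 := Gp_natDegree _ _ _
  have hdP : P.natDegree ≤ 4 * p - 1 := by
    rw [hP]
    refine natDegree_add_le_of_degree_le (natDegree_add_le_of_degree_le ?_ ?_) ?_
    · refine (natDegree_C_mul_le _ _).trans (natDegree_mul_le.trans ?_)
      have : (X ^ p : F[X]).natDegree ≤ p := natDegree_X_pow_le p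
      omega
    · refine natDegree_mul_le.trans ?_
      have h1 : (B ^ p).natDegree ≤ p * 2 := natDegree_pow_le_of_le p hdB
      have h2 : (C r * X ^ p + G).natDegree ≤ 2 * p - 1 := by
        refine natDegree_add_le_of_degree_le ((natDegree_C_mul_X_pow_le _ _).trans (by omega))
          (hdG.trans (by omega))
      omega
    · refine natDegree_mul_le.trans ?_
      have h1 : ((1 + 8 * X ^ 3 : F[X]) ^ (n + 1)).natDegree ≤ (n + 1) * 3 :=
        natDegree_pow_le_of_le (n + 1) hdQ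
      omega
  -- P is a polynomial in X^p
  obtain ⟨A, hA⟩ : ∃ A : F[X], P = expand F p A := ⟨contract p P, (expand_contract p hP0
    hprime.ne_zero).symm⟩
  have hdA : A.natDegree < 4 := by
    have h1 : P.natDegree = A.natDegree * p := by rw [hA, natDegree_expand]
    by_contra h4
    have : 4 * p ≤ A.natDegree * p := Nat.mul_le_mul_right p (by omega)
    omega
  have hAev : ∀ x : F, 1 + 8 * x ^ 3 = 0 → A.eval x = 0 := by
    intro x hx
    have h1 : P.eval x = A.eval x := by rw [hA, expand_eval, hF]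
    rw [← h1, hP]
    have h2 : (1 + 8 * X ^ 3 : F[X]).eval x = 0 := by simp [hx]
    have h3 : (1 + 8 * X ^ 3 : F[X]) ^ (n + 1) = (1 + 8 * X ^ 3) * (1 + 8 * X ^ 3 : F[X]) ^ n :=
      pow_succ' _ _
    rw [h3, eval_add, eval_add, eval_mul, eval_mul, eval_mul, eval_mul, eval_mul, h2, eval_add,
      eval_mul, eval_C, eval_C, eval_pow, eval_pow, eval_X, hF, hF, Z4 x hx, hGdef,
      Gp_eval (8 : F) x n M (by linear_combination hx), hB]
    simp only [eval_sub, eval_one, eval_mul, eval_pow, eval_X, eval_ofNat]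
    rw [hr]
    ring
  have h2ne : (2 : F) ≠ 0 := by
    intro h0
    have : ((2 : ℕ) : F) = 0 := by exact_mod_cast h0
    rw [CharP.cast_eq_zero_iff F p] at this
    have := Nat.le_of_dvd (by norm_num) this
    omega
  have h3ne : (3 : F) ≠ 0 := by
    intro h0
    have : ((3 : ℕ) : F) = 0 := by exact_mod_cast h0
    rw [CharP.cast_eq_zero_iff F p] at this
    have := Nat.le_of_dvd (by norm_num) this
    omega
  have hA1 : A.coeff 1 = 0 := by
    obtain ⟨h, hh⟩ : ∃ h : F, 2 * h = 1 := ⟨2⁻¹, mul_inv_cancel₀ h2ne⟩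
    have hz3 : z ^ 3 = 1 := by linear_combination (z - 1) * hz
    have e0 := hAev (-h) (by linear_combination (-(4 * h ^ 2 + 2 * h + 1)) * hh)
    have e1 := hAev (-h * z) (by
      linear_combination (-(4 * h ^ 2 + 2 * h + 1)) * hh - 8 * h ^ 3 * hz3)
    have e2 := hAev (-h * z ^ 2) (by
      linear_combination (-(4 * h ^ 2 + 2 * h + 1)) * hh - 8 * h ^ 3 * (z ^ 3 + 1) * hz3)
    rw [eval_eq_sum_range' hdA] at e0 e1 e2
    simp only [sum_range_succ, sum_range_zero] at e0 e1 e2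
    have h0 : (3 * h) * A.coeff 1 = 0 := by
      have hz2 : z ^ 2 = - z - 1 := by linear_combination hz
      have hz4 : z ^ 4 = z := by linear_combination z * hz3
      have hz5 : z ^ 5 = z ^ 2 := by linear_combination z ^ 2 * hz3
      have hz6 : z ^ 6 = 1 := by linear_combination (z ^ 3 + 1) * hz3
      have hz7 : z ^ 7 = z := by linear_combination (z ^ 4 + z) * hz3
      linear_combination (-1 : F) * e0 - z ^ 2 * e1 - z * e2 + A.coeff 0 * hz
        - A.coeff 1 * h * 2 * hz3 + A.coeff 2 * h ^ 2 * (hz + hz4 + hz5)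
        - A.coeff 3 * h ^ 3 * (hz + hz5 + hz7)
    rcases mul_eq_zero.mp h0 with h1 | h1
    · exfalso
      rcases mul_eq_zero.mp h1 with h1 | h1
      · exact h3ne h1
      · rw [h1, mul_zero] at hh; exact zero_ne_one hh
    · exact h1
  have hdN : N.natDegree ≤ 3 * n := by
    rw [hN]
    exact (natDegree_pow_le_of_le n hdQ).trans (by omega)
  have hPN : (P * N).coeff (2 * p - 1) = 0 := by
    have e1 : P = X ^ (2 * p) * expand F p (divX (divX A)) + C (A.coeff 0) := by
      have h1 := divX_mul_X_add A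
      have h2 := divX_mul_X_add (divX A)
      have h3 : (divX A).coeff 0 = 0 := by rw [coeff_divX]; exact hA1
      rw [h3, C_0, add_zero] at h2
      rw [hA]
      conv_lhs => rw [← h1, ← h2]
      rw [map_add, map_mul, map_mul, expand_X, expand_C, two_mul, pow_add]
      ring
    rw [e1, add_mul, mul_assoc, coeff_add, coeff_C_mul, coeff_X_pow_mul', if_neg (by omega),
      coeff_eq_zero_of_natDegree_lt (by omega : N.natDegree < 2 * p - 1)]
    ring
  have hN1 : N.coeff (p - 1) = α := by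
    have h1 : N = derivative G + C α * X ^ (p - 1) := by rw [hG]; ring
    have h2 := coeff_derivative_p p G 1 hpp one_pos
    rw [one_mul] at h2
    rw [h1, coeff_add, h2, coeff_C_mul_X_pow, if_pos rfl, zero_add]
  have hGN := coeff_GH p h2ne hpp G N α hG hG0 hGp
  have hE : E.coeff (2 * p - 1) = 0 := coeff_eq_zero_of_natDegree_lt (by omega)
  have hexp : P * N = C α * (X ^ p * (Z * N)) + C r * (X ^ p * N) + G * N
      + C (-2) * (X ^ p * (G * N)) + E
      + X ^ (2 * p) * (-2 * C r * N - 2 * C r * X ^ p * N - 2 * G * N + 8 * X ^ p * E) := by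
    have h1 : (1 + 8 * X ^ 3 : F[X]) ^ (n + 1) * N = 1 + 8 * X ^ (3 * p) := by
      rw [hN, ← pow_add, ← hQp]; congr 1; omega
    have h3 : (X : F[X]) ^ (3 * p) = X ^ (2 * p) * X ^ p := by rw [← pow_add]; congr 1; ring
    have h4 : (X : F[X]) ^ (2 * p) = X ^ p * X ^ p := by rw [← pow_add]; congr 1; ring
    have h5 : (C (-2 : F) : F[X]) = -2 := by rw [C_neg, hC2]
    rw [h5]
    calc P * N = C α * (X ^ p * (Z * N)) + B ^ p * (C r * X ^ p + G) * N
          + E * ((1 + 8 * X ^ 3) ^ (n + 1) * N) := by rw [hP]; ring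
      _ = _ := by rw [h1, hBp, h3]; rw [h4]; ring
  rw [hexp] at hPN
  simp only [coeff_add, coeff_C_mul] at hPN
  rw [coeff_X_pow_mul' _ p, if_pos (by omega), coeff_X_pow_mul' _ p, if_pos (by omega),
    coeff_X_pow_mul' _ p, if_pos (by omega), coeff_X_pow_mul' _ (2 * p), if_neg (by omega),
    show 2 * p - 1 - p = p - 1 by omega, hGN.1, hGN.2, hE, hN1] at hPN
  linear_combination hPN

end H27Tri
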