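import Mathlib

/-!
# Teichmüller representatives modulo `p ^ 2`
-/

open Finset

namespace H27Tri

variable (p : ℕ) [Fact p.Prime]

/-- Reduction modulo `p`. -/
def red : ZMod (p ^ 2) →+* ZMod p := ZMod.castHom (dvd_pow_self p two_ne_zero) (ZMod p)

theorem red_intCast (k : ℤ) : red p (k : ZMod (p ^ 2)) = (k : ZMod p) := map_intCast (red p) k

theorem red_natCast (k : ℕ) : red p (k : ZMod (p ^ 2)) = (k : ZMod p) := map_natCast (red p) k

theorem red_eq_zero_iff (y : ZMod (p ^ 2)) : red p y = 0 ↔ (p : ZMod (p ^ 2)) ∣ y := by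
  have : NeZero (p ^ 2) := ⟨pow_ne_zero 2 (Fact.out : p.Prime).ne_zero⟩
  constructor
  · intro h
    have h1 : (y.val : ZMod (p ^ 2)) = y := ZMod.natCast_zmod_val y
    rw [← h1, red_natCast, ZMod.natCast_eq_zero_iff] at h
    obtain ⟨k, hk⟩ := h
    exact ⟨k, by rw [← h1, hk]; push_cast; ring⟩
  · rintro ⟨k, rfl⟩
    rw [map_mul, red_natCast, CharP.cast_eq_zero, zero_mul]

theorem p_sq_zero : (p : ZMod (p ^ 2)) * p = 0 := by
  have := CharP.cast_eq_zero (ZMod (p ^ 2)) (p ^ 2)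
  push_cast at this
  rw [← this]; ring

theorem p_mul_eq_zero_iff (y : ZMod (p ^ 2)) : (p : ZMod (p ^ 2)) * y = 0 ↔ red p y = 0 := by
  have : NeZero (p ^ 2) := ⟨pow_ne_zero 2 (Fact.out : p.Prime).ne_zero⟩
  constructor
  · intro h
    have h1 : (y.val : ZMod (p ^ 2)) = y := ZMod.natCast_zmod_val y
    rw [← h1, ← Nat.cast_mul, ZMod.natCast_eq_zero_iff] at h
    rw [← h1, red_natCast, ZMod.natCast_eq_zero_iff]
    generalize y.val = k at h
    rw [pow_two] at h
    exact Nat.dvd_of_mul_dvd_mul_left (Fact.out : p.Prime).pos h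
  · intro h
    rw [red_eq_zero_iff] at h
    obtain ⟨k, rfl⟩ := h
    rw [← mul_assoc, p_sq_zero, zero_mul]

/-- If `x ≡ y (mod p)` then `x ^ p ≡ y ^ p (mod p ^ 2)`. -/
theorem pow_p_eq {x y : ZMod (p ^ 2)} (h : red p x = red p y) : x ^ p = y ^ p := by
  have h1 : red p (x - y) = 0 := by rw [map_sub, h, sub_self]
  rw [red_eq_zero_iff] at h1
  have h2 := dvd_sub_pow_of_dvd_sub (R := ZMod (p ^ 2)) (p := p) h1 1
  rw [pow_one] at h2
  have h3 : ((p : ZMod (p ^ 2)) ^ (1 + 1)) = 0 := by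
    rw [pow_succ (p : ZMod (p ^ 2)) 1, pow_one]
    exact p_sq_zero p
  rw [h3] at h2
  exact sub_eq_zero.mp (zero_dvd_iff.mp h2)

/-- The Teichmüller representative modulo `p ^ 2`. -/
def tau (s : ZMod p) : ZMod (p ^ 2) := (s.val : ZMod (p ^ 2)) ^ p

theorem red_tau (s : ZMod p) : red p (tau p s) = s := by
  unfold tau
  rw [map_pow, red_natCast, ZMod.natCast_zmod_val, ZMod.pow_card]

theorem tau_eq {s : ZMod p} {y : ZMod (p ^ 2)} (h : red p y = s) : tau p s = y ^ p := by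
  unfold tau
  apply pow_p_eq
  rw [red_natCast, ZMod.natCast_zmod_val, h]

theorem tau_mul (s t : ZMod p) : tau p (s * t) = tau p s * tau p t := by
  rw [tau_eq p (y := (s.val : ZMod (p ^ 2)) * t.val)]
  · rw [mul_pow]; rfl
  · rw [map_mul, red_natCast, red_natCast, ZMod.natCast_zmod_val, ZMod.natCast_zmod_val]

theorem tau_one : tau p 1 = 1 := by
  rw [tau_eq p (y := 1) (map_one _), one_pow]

theorem tau_zero : tau p 0 = 0 := by
  rw [tau_eq p (y := 0) (map_zero _), zero_pow (Fact.out : p.Prime).ne_zero]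

theorem tau_pow (s : ZMod p) (k : ℕ) : tau p (s ^ k) = tau p s ^ k := by
  induction k with
  | zero => simp [tau_one]
  | succ k ih => rw [pow_succ s k, tau_mul, ih, pow_succ (tau p s) k]

theorem tau_pow_p (s : ZMod p) : tau p s ^ p = tau p s := by
  rw [← tau_pow, ZMod.pow_card]

theorem tau_pow_pred {s : ZMod p} (hs : s ≠ 0) : tau p s ^ (p - 1) = 1 := by
  rw [← tau_pow, ZMod.pow_card_sub_one_eq_one hs, tau_one]

theorem isUnit_of_red {y : ZMod (p ^ 2)} (h : red p y ≠ 0) : IsUnit y := by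
  have : NeZero (p ^ 2) := ⟨pow_ne_zero 2 (Fact.out : p.Prime).ne_zero⟩
  have h1 : (y.val : ZMod (p ^ 2)) = y := ZMod.natCast_zmod_val y
  rw [← h1, red_natCast, Ne, ZMod.natCast_eq_zero_iff] at h
  rw [← h1, ZMod.isUnit_iff_coprime]
  exact Nat.Coprime.pow_right 2 ((Nat.Prime.coprime_iff_not_dvd (Fact.out : p.Prime)).mpr h).symm

theorem pow_eq_one_of_red {y : ZMod (p ^ 2)} (h : red p y ≠ 0) : y ^ (p * (p - 1)) = 1 := by
  rw [pow_mul, ← tau_eq p (y := y) rfl, tau_pow_pred p h]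

end H27Tri
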