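import Pool.Agent.Helper27.Tri.CharP
import Pool.Agent.Helper27.Tri.Teich
import Pool.Agent.Helper27.Tri.Pol23

/-!
# The integral polynomials `Z`
-/

open Polynomial Finset

namespace H27Tri

theorem U_zero_arg {R : Type*} [CommRing R] (x : R) (m : ℕ) : U x 0 m = x ^ m := by
  induction m using Nat.strong_induction_on with
  | _ m ih =>
    match m, ih with
    | 0, _ => simp
    | 1, _ => simp
    | (m + 2), ih => rw [U_add_two, ih (m + 1) (by omega)]; ring

theorem D_two_one (m : ℕ) : D (2 : ℤ) 1 m = 2 ∧ D (2 : ℤ) 1 (m + 1) = 2 := by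
  induction m with
  | zero => simp
  | succ m ih => refine ⟨ih.2, ?_⟩; rw [D_add_two, ih.1, ih.2]; norm_num

theorem natDegree_D (a f : ℤ[X]) (δ : ℕ) (ha : a.natDegree ≤ δ) (hf : f.natDegree ≤ 2 * δ)
    (ha2 : a.coeff δ = 2) (hf2 : f.coeff (2 * δ) = 1) (m : ℕ) :
    ((D a f m).natDegree ≤ δ * m ∧ (D a f m).coeff (δ * m) = 2) ∧
    ((D a f (m + 1)).natDegree ≤ δ * (m + 1) ∧ (D a f (m + 1)).coeff (δ * (m + 1)) = 2) := by
  induction m with
  | zero =>
    refine ⟨⟨?_, ?_⟩, ?_, ?_⟩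
    · simp
    · simp
    · simpa using ha
    · simpa using ha2
  | succ m ih =>
    refine ⟨ih.2, ?_, ?_⟩
    · rw [D_add_two]
      refine (natDegree_sub_le_of_le (natDegree_mul_le_of_le ha ih.2.1)
        (natDegree_mul_le_of_le hf ih.1.1)).trans ?_
      rw [max_le_iff]
      constructor
      · apply le_of_eq; ring
      · apply le_of_eq; ring
    · rw [D_add_two, coeff_sub]
      have h1 : (a * D a f (m + 1)).coeff (δ * (m + 1 + 1)) = 2 * 2 := by
        rw [show δ * (m + 1 + 1) = δ + δ * (m + 1) by ring,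
          coeff_mul_add_eq_of_natDegree_le ha ih.2.1, ha2, ih.2.2]
      have h2 : (f * D a f m).coeff (δ * (m + 1 + 1)) = 1 * 2 := by
        rw [show δ * (m + 1 + 1) = 2 * δ + δ * m by ring,
          coeff_mul_add_eq_of_natDegree_le hf ih.1.1, hf2, ih.1.2]
      rw [h1, h2]; norm_num

theorem exists_div (p : ℕ) (f : ℤ[X]) (h : f.map (Int.castRingHom (ZMod p)) = 0) :
    ∃ Z : ℤ[X], f = C (p : ℤ) * Z := by
  have : C (p : ℤ) ∣ f := by
    rw [C_dvd_iff_dvd_coeff]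
    intro i
    have := congrArg (fun g => coeff g i) h
    simp only [coeff_map, coeff_zero] at this
    exact (ZMod.intCast_zmod_eq_zero_iff_dvd _ _).mp this
  exact this

theorem pow_p_int_map (p : ℕ) [Fact p.Prime] (k : ℕ) : ((k : (ZMod p)[X])) ^ p = k := by
  have := C_pow_p (F := ZMod p) p k
  simpa using this

theorem eval_red (p : ℕ) [Fact p.Prime] (Z : ℤ[X]) (y : ZMod (p ^ 2)) :
    (Z.map (Int.castRingHom (ZMod p))).eval (red p y) = red p (aeval y Z) := by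
  rw [eval_map, aeval_def, hom_eval₂]
  congr 1
  exact RingHom.ext_int _ _

theorem two_inv (p n : ℕ) [Fact p.Prime] (hp : p = 2 * n + 1) :
    ∃ h : ZMod (p ^ 2), 2 * h = 1 := by
  have hpr : p.Prime := Fact.out
  have h1 : red p (2 : ZMod (p ^ 2)) ≠ 0 := by
    have : (2 : ZMod (p ^ 2)) = ((2 : ℕ) : ZMod (p ^ 2)) := by norm_num
    rw [this, red_natCast]
    intro h0
    rw [ZMod.natCast_eq_zero_iff] at h0
    have := Nat.le_of_dvd (by norm_num) h0
    have := hpr.two_le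
    omega
  obtain ⟨u, hu⟩ := isUnit_of_red p h1
  exact ⟨(u⁻¹ : (ZMod (p ^ 2))ˣ), by rw [← hu, Units.mul_inv]⟩

theorem exists_Z23 (p n K : ℕ) [Fact p.Prime] (hp : p = 2 * n + 1) (hK : p = 6 * K + 1)
    (hK0 : 0 < K) (q : ℤ) (hq : (2 : ℤ) ^ (p - 1) = 1 + p * q) :
    ∃ Z : ℤ[X], (1 - X ^ p) * D (1 + 2 * X ^ 2 : ℤ[X]) ((X - X ^ 2) ^ 2) p
        - (1 - X) ^ p * (1 + 2 * X ^ (2 * p)) = C (p : ℤ) * Z ∧
      U (1 + 2 * X ^ 2 : (ZMod p)[X]) ((X - X ^ 2) ^ 2) (p - 1) = (1 + 8 * X ^ 3) ^ n ∧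
      X * derivative (Z.map (Int.castRingHom (ZMod p))) = (1 - 2 * X - 2 * X ^ 2) ^ p
        - (1 - X) ^ (p - 1) * (1 - 2 * X - 2 * X ^ 2) * (1 + 8 * X ^ 3) ^ n ∧
      (Z.map (Int.castRingHom (ZMod p))).natDegree ≤ 3 * p - 1 ∧
      ∀ x : ZMod p, 1 + 8 * x ^ 3 = 0 →
        (Z.map (Int.castRingHom (ZMod p))).eval x = - (q : ZMod p) * (1 - 2 * x - 2 * x ^ 2) := by
  have hpr : p.Prime := Fact.out
  have hp0 : (p : ℤ) ≠ 0 := by exact_mod_cast hpr.ne_zero
  have hodd : Odd p := ⟨n, hp⟩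
  set φ : ℤ[X] →+* (ZMod p)[X] := mapRingHom (Int.castRingHom (ZMod p)) with hφ
  have hφX : φ X = X := by simp [hφ]
  have h2p : (2 : (ZMod p)[X]) ^ p = 2 := by simpa using pow_p_int_map p 2
  have h8p : (8 : (ZMod p)[X]) ^ p = 8 := by simpa using pow_p_int_map p 8
  have hap : (1 + 2 * X ^ 2 : (ZMod p)[X]) ^ p = 1 + 2 * X ^ (2 * p) := by
    rw [add_pow_char, one_pow, mul_pow, h2p, ← pow_mul]
  have hXp : (1 - X : (ZMod p)[X]) ^ p = 1 - X ^ p := by rw [sub_pow_char, one_pow]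
  have hφD : φ (D (1 + 2 * X ^ 2 : ℤ[X]) ((X - X ^ 2) ^ 2) p) = 1 + 2 * X ^ (2 * p) := by
    rw [map_D]
    simp only [map_add, map_sub, map_mul, map_pow, map_one, map_ofNat, hφX]
    rw [D_charP p, hap]
  obtain ⟨Z, hZ⟩ := exists_div p ((1 - X ^ p) * D (1 + 2 * X ^ 2 : ℤ[X]) ((X - X ^ 2) ^ 2) p
        - (1 - X) ^ p * (1 + 2 * X ^ (2 * p))) (by
    change φ _ = 0
    rw [map_sub, map_mul, map_mul, hφD]
    simp only [map_add, map_sub, map_mul, map_pow, map_one, map_ofNat, hφX]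
    rw [hXp]; ring)
  have h2ne : (2 : ZMod p) ≠ 0 := by
    intro h0
    have : ((2 : ℕ) : ZMod p) = 0 := by exact_mod_cast h0
    rw [ZMod.natCast_eq_zero_iff] at this
    have := Nat.le_of_dvd (by norm_num) this
    omega
  have hU : U (1 + 2 * X ^ 2 : (ZMod p)[X]) ((X - X ^ 2) ^ 2) (p - 1) = (1 + 8 * X ^ 3) ^ n := by
    have hQ : ((1 + 2 * X ^ 2) ^ 2 - 4 * (X - X ^ 2) ^ 2 : (ZMod p)[X]) = 1 + 8 * X ^ 3 := by ring
    have hQ0 : ((1 + 2 * X ^ 2) ^ 2 - 4 * (X - X ^ 2) ^ 2 : (ZMod p)[X]) ≠ 0 := by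
      rw [hQ]
      intro h
      have := congrArg (eval 0) h
      simp at this
    have h1 := U_charP p hodd (1 + 2 * X ^ 2 : (ZMod p)[X]) (X - X ^ 2) hQ0
    rw [hQ, show (p - 1) / 2 = n by omega] at h1
    rcases h1 with h1 | h1
    · exact h1
    · exfalso
      have h3 : (evalRingHom (0 : ZMod p)) (U (1 + 2 * X ^ 2 : (ZMod p)[X]) ((X - X ^ 2) ^ 2) (p - 1))
          = 1 := by
        rw [map_U]
        simp [U_zero_arg]
      rw [h1] at h3
      simp at h3
      apply h2ne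
      linear_combination -h3
  refine ⟨Z, hZ, hU, ?_, ?_, ?_⟩
  · have hCp : (C ((p : ℕ) : ℤ) : ℤ[X]) = (p : ℤ[X]) := map_natCast C p
    have hP0 : (p : ℤ[X]) ≠ 0 := by rw [← hCp]; exact C_ne_zero.mpr hp0
    have hd := (D_derivative (1 + 2 * X ^ 2 : ℤ[X]) (X - X ^ 2) (p - 1)).1
    rw [Nat.sub_add_cancel hpr.one_lt.le] at hd
    have hdZ := congrArg derivative hZ
    have e1 : derivative ((1 : ℤ[X]) - X ^ p) = - ((p : ℤ[X]) * X ^ (p - 1)) := by
      rw [derivative_sub, derivative_one, derivative_X_pow, hCp]; ring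
    have e2 : derivative (((1 : ℤ[X]) - X) ^ p) = - ((p : ℤ[X]) * (1 - X) ^ (p - 1)) := by
      rw [derivative_pow, derivative_sub, derivative_one, derivative_X, hCp]; ring
    have e3 : derivative ((1 : ℤ[X]) + 2 * X ^ (2 * p)) = (p : ℤ[X]) * (4 * X ^ (2 * p - 1)) := by
      rw [derivative_add, derivative_one, derivative_mul, derivative_X_pow, derivative_ofNat]
      push_cast
      rw [C_mul, hCp, map_ofNat]
      ring
    rw [derivative_sub, derivative_mul, derivative_mul, e1, e2, e3, derivative_C_mul, hCp] at hdZ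
    have e4 : derivative (X - X ^ 2 : ℤ[X]) = 1 - 2 * X := by
      simp
    have e5 : ((1 + 2 * X ^ 2) * derivative (X - X ^ 2)
      - derivative (1 + 2 * X ^ 2) * (X - X ^ 2) : ℤ[X]) = 1 - 2 * X - 2 * X ^ 2 := by
      simp; ring
    rw [e5, e4] at hd
    set DD := D (1 + 2 * X ^ 2 : ℤ[X]) ((X - X ^ 2) ^ 2) p with hDD
    set UU := U (1 + 2 * X ^ 2 : ℤ[X]) ((X - X ^ 2) ^ 2) (p - 1) with hUU
    have key : (X - X ^ 2) * derivative Z = - ((X - X ^ 2) * X ^ (p - 1)) * DD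
        + (1 - X ^ p) * ((1 - 2 * X) * DD - (1 - 2 * X - 2 * X ^ 2) * UU)
        + (X - X ^ 2) * (1 - X) ^ (p - 1) * (1 + 2 * X ^ (2 * p))
        - (X - X ^ 2) * (1 - X) ^ p * (4 * X ^ (2 * p - 1)) := by
      apply mul_left_cancel₀ hP0
      linear_combination (-(X - X ^ 2)) * hdZ + (1 - X ^ p) * hd
    have key2 := congrArg φ key
    have hφD' : φ DD = 1 + 2 * X ^ (2 * p) := hφD
    have hφU : φ UU = (1 + 8 * X ^ 3) ^ n := by
      rw [hUU, map_U]
      simp only [map_add, map_sub, map_mul, map_pow, map_one, map_ofNat, hφX]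
      exact hU
    have hφZ : φ (derivative Z) = derivative (Z.map (Int.castRingHom (ZMod p))) := by
      rw [derivative_map]; rfl
    simp only [map_add, map_sub, map_mul, map_neg, map_pow, map_one, map_ofNat, hφX, hφD', hφU,
      hφZ] at key2
    have h1X : (1 - X : (ZMod p)[X]) ≠ 0 := by
      intro h
      have := congrArg (eval 0) h
      simp at this
    have hBp : (1 - 2 * X - 2 * X ^ 2 : (ZMod p)[X]) ^ p = 1 - 2 * X ^ p - 2 * X ^ (2 * p) := by
      rw [sub_pow_char, sub_pow_char, one_pow, mul_pow, mul_pow, h2p, ← pow_mul]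
    apply mul_left_cancel₀ h1X
    rw [hBp]
    rw [hXp] at key2
    have hw : (1 - X : (ZMod p)[X]) * (1 - X) ^ (p - 1) = 1 - X ^ p := by
      rw [← pow_succ', Nat.sub_add_cancel hpr.one_lt.le, hXp]
    have hu1 : (X : (ZMod p)[X]) ^ p = X * X ^ (p - 1) := by
      rw [← pow_succ', Nat.sub_add_cancel hpr.one_lt.le]
    have hu2 : (X : (ZMod p)[X]) ^ (2 * p) = X ^ 2 * (X ^ (p - 1)) ^ 2 := by
      rw [mul_comm 2 p, pow_mul, hu1]; ring
    have hu3 : (X : (ZMod p)[X]) ^ (2 * p - 1) = X * (X ^ (p - 1)) ^ 2 := by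
      rw [← pow_mul, ← pow_succ']; congr 1; omega
    rw [hu1] at hw
    rw [hu1, hu2, hu3] at key2
    rw [hu1, hu2]
    generalize (X : (ZMod p)[X]) ^ (p - 1) = u at *
    generalize (1 - X : (ZMod p)[X]) ^ (p - 1) = w at *
    linear_combination key2 + (X * (1 + 2 * (X ^ 2 * u ^ 2))
      + (1 - 2 * X - 2 * X ^ 2) * (1 + 8 * X ^ 3) ^ n) * hw
  · -- degree
    have hC2 : (C (2 : ℤ) : ℤ[X]) = 2 := map_ofNat C 2
    have ha : (1 + 2 * X ^ 2 : ℤ[X]).natDegree ≤ 2 := by rw [← hC2]; compute_degree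
    have he : ((X - X ^ 2 : ℤ[X]) ^ 2).natDegree ≤ 2 * 2 := by compute_degree
    have ha2 : (1 + 2 * X ^ 2 : ℤ[X]).coeff 2 = 2 := by
      rw [← hC2, coeff_add, coeff_C_mul, coeff_X_pow, coeff_one]; simp
    have he2 : ((X - X ^ 2 : ℤ[X]) ^ 2).coeff (2 * 2) = 1 := by
      rw [show ((X - X ^ 2 : ℤ[X]) ^ 2) = X ^ 2 - C 2 * X ^ 3 + X ^ 4 by rw [hC2]; ring]
      simp [coeff_X_pow]
    have hD := (natDegree_D _ _ 2 ha he ha2 he2 p).1
    set DD := D (1 + 2 * X ^ 2 : ℤ[X]) ((X - X ^ 2) ^ 2) p with hDD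
    have h1 : ((1 : ℤ[X]) - X ^ p).natDegree ≤ p := by compute_degree
    have h2 : ((1 : ℤ[X]) - X ^ p).coeff p = -1 := by
      rw [coeff_sub, coeff_one, if_neg (by omega), coeff_X_pow, if_pos rfl]; norm_num
    have h3' : ((1 : ℤ[X]) - X).natDegree ≤ 1 := by compute_degree
    have h3 : (((1 : ℤ[X]) - X) ^ p).natDegree ≤ p := by
      simpa using natDegree_pow_le_of_le p h3'
    have h4 : (((1 : ℤ[X]) - X) ^ p).coeff p = -1 := by
      have := coeff_pow_of_natDegree_le (m := p) h3'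
      rw [mul_one] at this
      rw [this, coeff_sub, coeff_one, if_neg (by omega), coeff_X_one, zero_sub, hodd.neg_one_pow]
    have h5 : ((1 : ℤ[X]) + 2 * X ^ (2 * p)).natDegree ≤ 2 * p := by rw [← hC2]; compute_degree
    have h6 : ((1 : ℤ[X]) + 2 * X ^ (2 * p)).coeff (2 * p) = 2 := by
      rw [← hC2, coeff_add, coeff_one, if_neg (by omega), coeff_C_mul_X_pow, if_pos rfl]; norm_num
    have h7 : Z.natDegree ≤ 3 * p - 1 := by
      rw [natDegree_le_iff_coeff_eq_zero]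
      intro N hN
      have h8 : ((p : ℤ)) * Z.coeff N = 0 := by
        rw [← coeff_C_mul, ← hZ, coeff_sub]
        rcases Nat.lt_or_ge (3 * p) N with h | h
        · rw [coeff_eq_zero_of_natDegree_lt (lt_of_le_of_lt (natDegree_mul_le_of_le h1 hD.1)
            (by omega)), coeff_eq_zero_of_natDegree_lt (lt_of_le_of_lt
            (natDegree_mul_le_of_le h3 h5) (by omega)), sub_zero]
        · rw [show N = p + 2 * p by omega, coeff_mul_add_eq_of_natDegree_le h1 hD.1,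
            coeff_mul_add_eq_of_natDegree_le h3 h5, h2, h4, h6, hD.2]
          norm_num
      exact (mul_eq_zero.mp h8).resolve_left hp0
    exact natDegree_map_le.trans h7
  · -- values at the roots of `1 + 8 x ^ 3`
    intro x hx
    obtain ⟨h, hh⟩ := two_inv p n hp
    have hp1 : p - 1 + 1 = p := Nat.sub_add_cancel hpr.one_lt.le
    set t : ZMod (p ^ 2) := tau p (-2 * x) with ht
    have ht3 : t ^ 3 = 1 := by
      rw [ht, ← tau_pow, show (-2 * x) ^ 3 = 1 by linear_combination -hx, tau_one]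
    have htp : t ^ p = t := tau_pow_p p _
    have hrt : red p t = -2 * x := red_tau p _
    obtain ⟨y, hy⟩ : ∃ y, y = - t * h := ⟨_, rfl⟩
    have hr2 : red p 2 = 2 := by rw [map_ofNat]
    have hrh : 2 * red p h = 1 := by rw [← hr2, ← map_mul, hh, map_one]
    have hry : red p y = x := by
      rw [hy, map_mul, map_neg, hrt]
      linear_combination x * hrh
    obtain ⟨κ, hκ⟩ : ∃ κ, κ = h ^ (p - 1) := ⟨_, rfl⟩
    have hκ2 : (1 + (p : ZMod (p ^ 2)) * q) * κ = 1 := by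
      have h1 : (2 : ZMod (p ^ 2)) ^ (p - 1) = 1 + p * q := by
        have := congrArg (Int.cast : ℤ → ZMod (p ^ 2)) hq
        push_cast at this
        exact this
      rw [← h1, hκ, ← mul_pow, hh, one_pow]
    have hrκ : red p κ = 1 := by
      have := congrArg (red p) hκ2
      rw [map_mul, map_add, map_mul, red_natCast, CharP.cast_eq_zero, map_one] at this
      linear_combination this
    have hyp : y ^ p = κ * y := by
      rw [hy, mul_pow, hodd.neg_pow, htp, hκ, ← pow_sub_one_mul hpr.ne_zero h]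
      ring
    have hy3 : 1 + 8 * y ^ 3 = 0 := by
      rw [hy]
      linear_combination (-(8 * h ^ 3)) * ht3 - (4 * h ^ 2 + 2 * h + 1) * hh
    obtain ⟨a, ha⟩ : ∃ a, a = 1 + 2 * y ^ 2 := ⟨_, rfl⟩
    have ha4 : a ^ 2 = 4 * (y - y ^ 2) ^ 2 := by
      rw [ha]; linear_combination hy3
    have hDd := (D_double a ((y - y ^ 2) ^ 2) ha4 (p - 1)).1
    rw [hp1] at hDd
    have hDy : D a ((y - y ^ 2) ^ 2) p = κ * a ^ p := by
      have h2k : κ * 2 ^ (p - 1) = 1 := by rw [hκ, ← mul_pow, mul_comm h 2, hh, one_pow]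
      linear_combination κ * hDd - D a ((y - y ^ 2) ^ 2) p * h2k
    have ha6 : a ^ (p - 1) = (1 - y) ^ (p - 1) := by
      have h6 : a ^ 6 = (1 - y) ^ 6 := by
        have e1 : a ^ 6 = (4 * (y - y ^ 2) ^ 2) ^ 3 := by rw [← ha4]; ring
        rw [e1]
        linear_combination (1 - y) ^ 6 * (8 * y ^ 3 - 1) * hy3
      rw [show p - 1 = 6 * K by omega, pow_mul, pow_mul, h6]
    have hev := congrArg (fun f : ℤ[X] => (aeval y : ℤ[X] →ₐ[ℤ] ZMod (p ^ 2)) f) hZ
    have hmD : (aeval y : ℤ[X] →ₐ[ℤ] ZMod (p ^ 2)) (D (1 + 2 * X ^ 2 : ℤ[X]) ((X - X ^ 2) ^ 2) p)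
        = D a ((y - y ^ 2) ^ 2) p := by
      have := map_D ((aeval y : ℤ[X] →ₐ[ℤ] ZMod (p ^ 2)) : ℤ[X] →+* ZMod (p ^ 2))
        (1 + 2 * X ^ 2 : ℤ[X]) ((X - X ^ 2) ^ 2) p
      simp only [RingHom.coe_coe, map_add, map_sub, map_mul, map_pow, map_one, map_ofNat,
        aeval_X] at this
      rw [this, ha]
    simp only [map_add, map_sub, map_mul, map_pow, map_one, map_ofNat, aeval_X, hmD, hDy,
      map_natCast, map_intCast] at hev
    have hap1 : a ^ p = a ^ (p - 1) * a := (pow_sub_one_mul hpr.ne_zero a).symm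
    have hyp1 : (1 - y) ^ p = a ^ (p - 1) * (1 - y) := by
      rw [← pow_sub_one_mul hpr.ne_zero (1 - y), ha6]
    rw [show y ^ (2 * p) = (y ^ p) ^ 2 by rw [← pow_mul, mul_comm], hyp, hap1, hyp1] at hev
    obtain ⟨Zy, hZy⟩ : ∃ Zy, Zy = (aeval y : ℤ[X] →ₐ[ℤ] ZMod (p ^ 2)) Z := ⟨_, rfl⟩
    rw [← hZy] at hev
    have hfin : (p : ZMod (p ^ 2)) * (Zy + q * κ * a ^ (p - 1)
        * (1 - (1 + κ) * y - 2 * κ * y ^ 2)) = 0 := by
      have : (C ((p : ℕ) : ℤ) : ℤ[X]) = (p : ℤ[X]) := map_natCast C p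
      rw [ha] at hev ⊢
      linear_combination (-1 : ZMod (p ^ 2)) * hev + ((1 + 2 * y ^ 2) ^ (p - 1)
        * (1 - (1 + κ) * y - 2 * κ * y ^ 2)) * hκ2
    rw [p_mul_eq_zero_iff, map_add, hZy, ← eval_red, hry] at hfin
    have hra : red p a ^ (p - 1) = 1 := by
      apply ZMod.pow_card_sub_one_eq_one
      intro h0
      have h9 := congrArg (red p) ha4
      simp only [map_mul, map_pow, map_sub, map_ofNat, hry, h0] at h9
      have h3ne : (9 : ZMod p) ≠ 0 := by
        intro h0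
        have : ((9 : ℕ) : ZMod p) = 0 := by exact_mod_cast h0
        rw [ZMod.natCast_eq_zero_iff, show 9 = 3 ^ 2 by norm_num] at this
        have := (Nat.prime_dvd_prime_iff_eq hpr Nat.prime_three).mp (hpr.dvd_of_dvd_pow this)
        omega
      have h10 : (2 * x * (1 - x)) ^ 2 = 0 := by linear_combination -h9
      have h11 : 2 * x * (1 - x) = 0 := pow_eq_zero_iff two_ne_zero |>.mp h10
      rcases mul_eq_zero.mp h11 with h12 | h12
      · have hx0 : x = 0 := (mul_eq_zero.mp h12).resolve_left h2ne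
        rw [hx0] at hx; simp at hx
      · have hx1 : x = 1 := by linear_combination -h12
        rw [hx1] at hx
        apply h3ne
        linear_combination hx
    simp only [map_mul, map_sub, map_add, map_pow, map_one, map_ofNat, map_intCast, hrκ, hry,
      hra] at hfin
    linear_combination hfin

end H27Tri
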