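import Pool.Agent.Helper27.Tri.JacobiSum

/-!
# Arithmetic of the cubic Jacobi sum
-/

open Finset

namespace H27Tri

/-- The ring of Eisenstein integers `ℤ[w]`, `w ^ 2 = -1 - w`. -/
abbrev Eis := QuadraticAlgebra ℤ (-1) (-1)

theorem w_sq : (QuadraticAlgebra.omega : Eis) * QuadraticAlgebra.omega
    = -1 - QuadraticAlgebra.omega := by
  ext <;> simp [QuadraticAlgebra.re_one, QuadraticAlgebra.im_one]

theorem w_cube : (QuadraticAlgebra.omega : Eis) ^ 3 = 1 := by
  have := w_sq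
  linear_combination ((QuadraticAlgebra.omega : Eis) - 1) * this

/-- The ring homomorphism sending `w` to a given root. -/
noncomputable def hom {A : Type*} [CommRing A] (u : A) (hu : u * u = -1 - u) : Eis →+* A :=
  (QuadraticAlgebra.lift (R := ℤ) (a := -1) (b := -1) ⟨u, by rw [hu]; simp; ring⟩).toRingHom

theorem hom_apply {A : Type*} [CommRing A] (u : A) (hu : u * u = -1 - u) (z : Eis) :
    hom u hu z = (z.re : A) + (z.im : A) * u := by
  simp [hom, QuadraticAlgebra.lift]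

theorem hom_w {A : Type*} [CommRing A] (u : A) (hu : u * u = -1 - u) :
    hom u hu QuadraticAlgebra.omega = u := by
  rw [hom_apply]; simp

/-- `w` as a unit. -/
noncomputable def wu : Eisˣ where
  val := QuadraticAlgebra.omega
  inv := QuadraticAlgebra.omega ^ 2
  val_inv := by rw [← pow_succ']; exact w_cube
  inv_val := by rw [← pow_succ]; exact w_cube

theorem wu_val : (wu : Eis) = QuadraticAlgebra.omega := rfl

theorem wu_cube : wu ^ 3 = 1 := Units.ext (by rw [Units.val_pow_eq_pow_val, wu_val, w_cube]; rfl)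

section

variable (p : ℕ) [Fact p.Prime]

theorem exists_char (M : ℕ) (hM : p = 3 * M + 1) (g : (ZMod p)ˣ)
    (hg : ∀ x : (ZMod p)ˣ, x ∈ Subgroup.zpowers g) :
    ∃ χ : MulChar (ZMod p) Eis, χ (g : ZMod p) = QuadraticAlgebra.omega := by
  have hz : wu ∈ rootsOfUnity (Fintype.card (ZMod p)ˣ) Eis := by
    rw [mem_rootsOfUnity, ZMod.card_units, hM, Nat.add_sub_cancel, pow_mul, wu_cube, one_pow]
  exact ⟨MulChar.ofRootOfUnity hz hg, by rw [MulChar.ofRootOfUnity_spec, wu_val]⟩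

theorem exists_pow_eq {g : (ZMod p)ˣ} (hg : ∀ x : (ZMod p)ˣ, x ∈ Subgroup.zpowers g)
    {s : ZMod p} (hs : s ≠ 0) : ∃ k : ℕ, s = (g : ZMod p) ^ k := by
  obtain ⟨k, hk⟩ := (mem_powers_iff_mem_zpowers.mpr (hg (Units.mk0 s hs)))
  refine ⟨k, ?_⟩
  have := congrArg Units.val hk
  simpa using this.symm

variable {p} in
theorem char_cube {g : (ZMod p)ˣ} (hg : ∀ x : (ZMod p)ˣ, x ∈ Subgroup.zpowers g)
    (χ : MulChar (ZMod p) Eis) (hχ : χ (g : ZMod p) = QuadraticAlgebra.omega)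
    {s : ZMod p} (hs : s ≠ 0) : χ s ^ 3 = 1 := by
  obtain ⟨k, rfl⟩ := exists_pow_eq p hg hs
  rw [map_pow, hχ, ← pow_mul, mul_comm k 3, pow_mul, w_cube, one_pow]

/-- The Jacobi sum has norm `p`. -/
theorem jac_norm {g : (ZMod p)ˣ}
    (hg : ∀ x : (ZMod p)ˣ, x ∈ Subgroup.zpowers g)
    (χ : MulChar (ZMod p) Eis) (hχ : χ (g : ZMod p) = QuadraticAlgebra.omega) :
    (jacobiSum χ χ).re ^ 2 - (jacobiSum χ χ).re * (jacobiSum χ χ).im + (jacobiSum χ χ).im ^ 2
      = (p : ℤ) := by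
  have hpr : p.Prime := Fact.out
  -- a primitive cube root of unity in `ℂ`
  obtain ⟨u, hu⟩ : ∃ u : ℂ, u * u + u + 1 = 0 := by
    obtain ⟨z, hz⟩ := IsAlgClosed.exists_root (Polynomial.X ^ 2 + Polynomial.X + 1 : Polynomial ℂ)
      (by
        have : (Polynomial.X ^ 2 + Polynomial.X + 1 : Polynomial ℂ).natDegree = 2 := by
          compute_degree!
        intro h
        rw [Polynomial.natDegree_eq_of_degree_eq_some h] at this
        exact absurd this (by norm_num))
    refine ⟨z, ?_⟩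
    have := hz
    simp only [Polynomial.IsRoot.def, Polynomial.eval_add, Polynomial.eval_pow,
      Polynomial.eval_X, Polynomial.eval_one] at this
    linear_combination this
  have hu1 : u * u = -1 - u := by linear_combination hu
  have hu2 : (-1 - u) * (-1 - u) = -1 - (-1 - u) := by linear_combination hu
  have hu3 : u * (-1 - u) = 1 := by linear_combination -hu
  have hune : u ≠ 1 := by rintro rfl; norm_num at hu
  have hune2 : u * u ≠ 1 := by
    intro h
    have : u = -2 := by linear_combination hu - h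
    rw [this] at hu; norm_num at hu
  set A := χ.ringHomComp (hom u hu1) with hA
  set B := χ.ringHomComp (hom (-1 - u) hu2) with hB
  have hAg : A (g : ZMod p) = u := by
    rw [hA, MulChar.ringHomComp_apply, hχ, hom_w]
  have hBg : B (g : ZMod p) = -1 - u := by
    rw [hB, MulChar.ringHomComp_apply, hχ, hom_w]
  have hinv : B = A⁻¹ := by
    rw [eq_comm, inv_eq_iff_mul_eq_one]
    rw [MulChar.eq_iff hg, MulChar.mul_apply, hAg, hBg, hu3, MulChar.one_apply_coe]
  have h1 : A ≠ 1 := by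
    intro h
    have := hAg
    rw [h, MulChar.one_apply_coe] at this
    exact hune this.symm
  have h2 : A * A ≠ 1 := by
    intro h
    have h3 := congrArg (fun f : MulChar (ZMod p) ℂ => f (g : ZMod p)) h
    simp only [MulChar.mul_apply, hAg, MulChar.one_apply_coe] at h3
    exact hune2 h3
  have hch : ringChar ℂ ≠ ringChar (ZMod p) := by
    rw [ringChar.eq_zero, ZMod.ringChar_zmod_n]
    exact hpr.ne_zero.symm
  have key := jacobiSum_mul_jacobiSum_inv hch h1 h1 h2
  rw [← hinv, hA, hB, jacobiSum_ringHomComp, jacobiSum_ringHomComp, hom_apply, hom_apply,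
    ZMod.card] at key
  have h5 : (((jacobiSum χ χ).re ^ 2 - (jacobiSum χ χ).re * (jacobiSum χ χ).im
      + (jacobiSum χ χ).im ^ 2 : ℤ) : ℂ) = ((p : ℤ) : ℂ) := by
    push_cast
    linear_combination key + ((jacobiSum χ χ).im : ℂ) ^ 2 * hu
  exact_mod_cast h5

/-- `J ≡ χ(2)` modulo `2`. -/
theorem jac_mod_two (h2 : p ≠ 2) {g : (ZMod p)ˣ}
    (hg : ∀ x : (ZMod p)ˣ, x ∈ Subgroup.zpowers g)
    (χ : MulChar (ZMod p) Eis) (hχ : χ (g : ZMod p) = QuadraticAlgebra.omega) :
    ∃ κ : Eis, jacobiSum χ χ = χ 2 + 2 * κ := by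
  have hpr : p.Prime := Fact.out
  have h20 : (2 : ZMod p) ≠ 0 := by
    intro h
    have h' : ((2 : ℕ) : ZMod p) = 0 := by exact_mod_cast h
    rw [ZMod.natCast_eq_zero_iff] at h'
    have := Nat.le_of_dvd (by norm_num) h'
    have := hpr.two_le
    omega
  -- reduction modulo 2
  let A2 := QuadraticAlgebra (ZMod 2) (-1) (-1)
  have hA : (QuadraticAlgebra.omega : A2) * QuadraticAlgebra.omega
      = -1 - QuadraticAlgebra.omega := by
    ext <;> simp [QuadraticAlgebra.re_one, QuadraticAlgebra.im_one]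
  have htwo : ∀ z : A2, z + z = 0 := by
    intro z
    ext
    · rw [QuadraticAlgebra.re_add, QuadraticAlgebra.re_zero]; exact CharTwo.add_self_eq_zero _
    · rw [QuadraticAlgebra.im_add, QuadraticAlgebra.im_zero]; exact CharTwo.add_self_eq_zero _
  have hhalf : χ (2⁻¹ : ZMod p) * χ (1 - 2⁻¹) = χ 2 := by
    have e1 : (1 : ZMod p) - 2⁻¹ = 2⁻¹ := by
      field_simp; norm_num
    rw [e1]
    have e2 : χ 2 * χ (2⁻¹ : ZMod p) = 1 := by
      rw [← map_mul, mul_inv_cancel₀ h20, map_one]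
    have e3 := char_cube hg χ hχ h20
    linear_combination (-(χ (2⁻¹ : ZMod p)) ^ 2) * e3
      + (χ 2 * (χ 2 * χ (2⁻¹ : ZMod p) + 1)) * e2
  have hsum : hom (QuadraticAlgebra.omega : A2) hA (jacobiSum χ χ)
      = hom (QuadraticAlgebra.omega : A2) hA (χ 2) := by
    unfold jacobiSum
    rw [map_sum, ← Finset.add_sum_erase univ _ (mem_univ (2⁻¹ : ZMod p)), hhalf]
    have hz : ∑ x ∈ univ.erase (2⁻¹ : ZMod p),
        hom (QuadraticAlgebra.omega : A2) hA (χ x * χ (1 - x)) = 0 := by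
      refine Finset.sum_involution (fun x _ => 1 - x) ?_ ?_ ?_ ?_
      · intro x _
        rw [sub_sub_cancel, mul_comm (χ (1 - x)) (χ x)]
        exact htwo _
      · intro x hx _ hxx
        rw [mem_erase] at hx
        apply hx.1
        have : (2 : ZMod p) * x = 1 := by linear_combination -hxx
        exact (eq_inv_of_mul_eq_one_right this)
      · intro x hx
        rw [mem_erase] at hx ⊢
        refine ⟨?_, mem_univ _⟩
        intro h
        apply hx.1
        have : (2 : ZMod p) * x = 1 := by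
          have h3 : (2 : ZMod p) * 2⁻¹ = 1 := mul_inv_cancel₀ h20
          linear_combination (-2 : ZMod p) * h - h3
        exact (eq_inv_of_mul_eq_one_right this)
      · intro x _
        exact sub_sub_cancel 1 x
    rw [hz, add_zero]
  rw [hom_apply, hom_apply] at hsum
  have hre := congrArg QuadraticAlgebra.re hsum
  have him := congrArg QuadraticAlgebra.im hsum
  simp only [QuadraticAlgebra.re_add, QuadraticAlgebra.im_add, QuadraticAlgebra.re_mul,
    QuadraticAlgebra.im_mul, QuadraticAlgebra.re_intCast, QuadraticAlgebra.im_intCast,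
    QuadraticAlgebra.omega_re, QuadraticAlgebra.omega_im] at hre him
  have hre' : (((jacobiSum χ χ).re - (χ 2).re : ℤ) : ZMod 2) = 0 := by
    push_cast; linear_combination hre
  have him' : (((jacobiSum χ χ).im - (χ 2).im : ℤ) : ZMod 2) = 0 := by
    push_cast; linear_combination him
  rw [ZMod.intCast_zmod_eq_zero_iff_dvd] at hre' him'
  obtain ⟨a, ha⟩ := hre'
  obtain ⟨b, hb⟩ := him'
  refine ⟨⟨a, b⟩, ?_⟩
  rw [two_mul]
  ext
  · simp only [QuadraticAlgebra.re_add]
    push_cast at ha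
    linarith
  · simp only [QuadraticAlgebra.im_add]
    push_cast at hb
    linarith

/-- The augmentation of `J` modulo `3`. -/
theorem jac_mod_three (M : ℕ) (hM : p = 3 * M + 1) {g : (ZMod p)ˣ}
    (hg : ∀ x : (ZMod p)ˣ, x ∈ Subgroup.zpowers g)
    (χ : MulChar (ZMod p) Eis) (hχ : χ (g : ZMod p) = QuadraticAlgebra.omega) :
    (3 : ℤ) ∣ (jacobiSum χ χ).re + (jacobiSum χ χ).im + 1 := by
  have hpr : p.Prime := Fact.out
  have h3 : (1 : ZMod 3) * 1 = -1 - 1 := by decide
  have h1 : ∀ s : ZMod p, hom (1 : ZMod 3) h3 (χ s) = if s = 0 then 0 else 1 := by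
    intro s
    split_ifs with hs
    · rw [hs, MulChar.map_zero, map_zero]
    · obtain ⟨k, rfl⟩ := exists_pow_eq p hg hs
      rw [map_pow, map_pow, hχ, hom_w, one_pow]
  have h2 : hom (1 : ZMod 3) h3 (jacobiSum χ χ) = (p : ZMod 3) - 2 := by
    unfold jacobiSum
    rw [map_sum]
    have h4 : ∀ s : ZMod p, hom (1 : ZMod 3) h3 (χ s * χ (1 - s))
        = 1 - (if s = 0 then 1 else 0) - (if s = 1 then 1 else 0) := by
      intro s
      rw [map_mul, h1, h1]
      by_cases hs0 : s = 0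
      · subst hs0; simp
      · by_cases hs1 : s = 1
        · subst hs1; simp
        · rw [if_neg hs0, if_neg (fun h => hs1 (sub_eq_zero.mp h).symm), if_neg hs0, if_neg hs1]
          ring
    rw [sum_congr rfl (fun s _ => h4 s), sum_sub_distrib, sum_sub_distrib, sum_ite_eq',
      sum_ite_eq', if_pos (mem_univ _), if_pos (mem_univ _), sum_const, card_univ, ZMod.card,
      nsmul_eq_mul]
    ring
  rw [hom_apply] at h2
  have h5 : (((jacobiSum χ χ).re + (jacobiSum χ χ).im + 1 : ℤ) : ZMod 3) = 0 := by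
    push_cast
    have h6 : ((3 * M + 1 : ℕ) : ZMod 3) = 1 := by
      push_cast
      have : (3 : ZMod 3) = 0 := by decide
      rw [this]; ring
    have h7 : (p : ZMod 3) = 1 := (congrArg (Nat.cast : ℕ → ZMod 3) hM).trans h6
    have h8 : (3 : ZMod 3) = 0 := by decide
    linear_combination h2 + h7
  rw [ZMod.intCast_zmod_eq_zero_iff_dvd] at h5
  exact_mod_cast h5

/-- The image of `J` in `ℤ / p ^ 2`. -/
theorem jac_mod_sq (M : ℕ) (hM : p = 3 * M + 1) (hM0 : 0 < M) (hE : Even M) {g : (ZMod p)ˣ}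
    (hg : ∀ x : (ZMod p)ˣ, x ∈ Subgroup.zpowers g)
    (χ : MulChar (ZMod p) Eis) (hχ : χ (g : ZMod p) = QuadraticAlgebra.omega) :
    ∃ (v : ZMod (p ^ 2)) (hv : v * v = -1 - v), hom v hv (χ 2) = tau p 2 ^ (2 * M) ∧
      hom v hv (jacobiSum χ χ) = - ((Nat.centralBinom M : ℕ) : ZMod (p ^ 2)) := by
  have hpr : p.Prime := Fact.out
  have hord : orderOf g = p - 1 := by
    rw [orderOf_eq_card_of_forall_mem_zpowers hg, Nat.card_eq_fintype_card, ZMod.card_units p]
  have hgk : ((g : ZMod p)) ^ (2 * M) ≠ 1 := by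
    intro h1
    have : g ^ (2 * M) = 1 := Units.ext (by rw [Units.val_pow_eq_pow_val, h1, Units.val_one])
    rw [← orderOf_dvd_iff_pow_eq_one, hord] at this
    have := Nat.le_of_dvd (by omega) this
    omega
  set v := tau p (g : ZMod p) ^ (2 * M) with hv
  have hv3 : v ^ 3 = 1 := by
    rw [hv, ← pow_mul, show 2 * M * 3 = (p - 1) * 2 by omega, pow_mul,
      tau_pow_pred p g.ne_zero, one_pow]
  have hv1 : IsUnit (v - 1) := by
    apply isUnit_of_red
    rw [hv, map_sub, map_pow, red_tau, map_one]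
    exact sub_ne_zero.mpr hgk
  have hvv : v * v = -1 - v := by
    apply hv1.mul_left_cancel
    linear_combination hv3
  have hall : ∀ s : ZMod p, hom v hvv (χ s) = tau p s ^ (2 * M) := by
    intro s
    by_cases hs : s = 0
    · rw [hs, MulChar.map_zero, map_zero, tau_zero, zero_pow (by omega)]
    · obtain ⟨k, rfl⟩ := exists_pow_eq p hg hs
      rw [map_pow, map_pow, hχ, hom_w, hv, tau_pow, ← pow_mul, ← pow_mul, mul_comm k (2 * M)]
  refine ⟨v, hvv, hall 2, ?_⟩
  unfold jacobiSum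
  rw [map_sum, ← jac_eval p M hM hM0 hE]
  refine sum_congr rfl fun s _ => ?_
  rw [map_mul, hall, hall]

/-- The Eisenstein integer attached to `p`. -/
theorem exists_rep (M : ℕ) (hM : p = 3 * M + 1) (hM0 : 0 < M) (hE : Even M) :
    ∃ (x y : ℤ) (δ : ZMod (p ^ 2)), (p : ℤ) = x ^ 2 + 3 * y ^ 2 ∧ x % 3 = 1 ∧ δ * δ = -3 ∧
      (2 : ZMod (p ^ 2)) ^ (p * M) * ((Nat.centralBinom M : ℕ) : ZMod (p ^ 2))
        = (x : ZMod (p ^ 2)) + (y : ZMod (p ^ 2)) * δ := by
  have hpr : p.Prime := Fact.out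
  have hp2 : p ≠ 2 := by omega
  obtain ⟨g, hg⟩ : ∃ g : (ZMod p)ˣ, ∀ x : (ZMod p)ˣ, x ∈ Subgroup.zpowers g :=
    IsCyclic.exists_generator
  obtain ⟨χ, hχ⟩ := exists_char p M hM g hg
  have h20 : (2 : ZMod p) ≠ 0 := by
    intro h
    have h' : ((2 : ℕ) : ZMod p) = 0 := by exact_mod_cast h
    rw [ZMod.natCast_eq_zero_iff] at h'
    have := Nat.le_of_dvd (by norm_num) h'
    omega
  obtain ⟨κ, hκ⟩ := jac_mod_two p hp2 hg χ hχ
  have hnorm := jac_norm p hg χ hχ
  have haug := jac_mod_three p M hM hg χ hχ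
  obtain ⟨v, hv, hv2, hvJ⟩ := jac_mod_sq p M hM hM0 hE hg χ hχ
  have hcube := char_cube hg χ hχ h20
  obtain ⟨J, hJ⟩ : ∃ J : Eis, J = jacobiSum χ χ := ⟨_, rfl⟩
  obtain ⟨t, ht⟩ : ∃ t : Eis, t = χ 2 := ⟨_, rfl⟩
  rw [← hJ] at hκ hnorm haug hvJ
  rw [← ht] at hκ hcube hv2
  -- the element `Ψ = -χ(2)² J`
  have hΨ : -(t ^ 2) * J = -1 + 2 * (-(t ^ 2) * κ) := by
    rw [hκ]; linear_combination -hcube
  obtain ⟨κ', hκ'⟩ : ∃ κ' : Eis, κ' = -(t ^ 2) * κ := ⟨_, rfl⟩
  obtain ⟨Ψ, hΨ'⟩ : ∃ Ψ : Eis, Ψ = -(t ^ 2) * J := ⟨_, rfl⟩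
  rw [← hκ', ← hΨ'] at hΨ
  have hre : Ψ.re = -1 + 2 * κ'.re := by
    rw [hΨ, two_mul]
    simp [QuadraticAlgebra.re_one]
    ring
  have him : Ψ.im = 2 * κ'.im := by
    rw [hΨ, two_mul]
    simp [QuadraticAlgebra.im_one]
    ring
  have hN : ∀ z : Eis, QuadraticAlgebra.norm z = z.re ^ 2 - z.re * z.im + z.im ^ 2 := by
    intro z
    rw [QuadraticAlgebra.norm_def]; ring
  have hNt : QuadraticAlgebra.norm t = 1 := by
    have h1 : (QuadraticAlgebra.norm t) ^ 3 = 1 := by rw [← map_pow, hcube, map_one]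
    have h2 : (QuadraticAlgebra.norm t) ^ 3 = (1 : ℤ) ^ 3 := by rw [h1]; norm_num
    exact (Odd.strictMono_pow (by decide : Odd 3)).injective h2
  have hNΨ : Ψ.re ^ 2 - Ψ.re * Ψ.im + Ψ.im ^ 2 = p := by
    rw [← hN, hΨ', map_mul, show -(t ^ 2) = (-1 : Eis) * t ^ 2 by ring, map_mul, map_pow, hNt,
      hN J, hnorm, QuadraticAlgebra.norm_neg, QuadraticAlgebra.norm_one]
    ring
  have h3 : (1 : ZMod 3) * 1 = -1 - 1 := by decide
  have hεt : hom (1 : ZMod 3) h3 t = 1 := by
    have h1 : (hom (1 : ZMod 3) h3 t) ^ 3 = 1 := by rw [← map_pow, hcube, map_one]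
    revert h1
    generalize hom (1 : ZMod 3) h3 t = a
    revert a
    decide
  have hεJ : hom (1 : ZMod 3) h3 J = -1 := by
    rw [hom_apply]
    have h1 : ((J.re + J.im + 1 : ℤ) : ZMod 3) = 0 := by
      rw [ZMod.intCast_zmod_eq_zero_iff_dvd]
      exact_mod_cast haug
    push_cast at h1
    linear_combination h1
  have hεΨ : hom (1 : ZMod 3) h3 Ψ = 1 := by
    rw [hΨ', map_mul, map_neg, map_pow, hεt, hεJ]; ring
  refine ⟨Ψ.re - κ'.im, κ'.im, 1 + 2 * v, ?_, ?_, ?_, ?_⟩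
  · rw [← hNΨ, him]; ring
  · rw [hom_apply] at hεΨ
    have h1 : ((Ψ.re - κ'.im - 1 : ℤ) : ZMod 3) = 0 := by
      rw [him] at hεΨ
      push_cast at hεΨ ⊢
      have h8 : (3 : ZMod 3) = 0 := by decide
      linear_combination hεΨ - (κ'.im : ZMod 3) * h8
    rw [ZMod.intCast_zmod_eq_zero_iff_dvd] at h1
    push_cast at h1
    omega
  · linear_combination 4 * hv
  · have h1 : hom v hv Ψ = (2 : ZMod (p ^ 2)) ^ (p * M) * ((Nat.centralBinom M : ℕ) : ZMod (p ^ 2)) := by
      rw [hΨ', map_mul, map_neg, map_pow, hv2, hvJ]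
      have h2 : tau p 2 = (2 : ZMod (p ^ 2)) ^ p := tau_eq p (by
        have : (2 : ZMod (p ^ 2)) = ((2 : ℕ) : ZMod (p ^ 2)) := by norm_num
        rw [this, red_natCast]; norm_num)
      have h4 : (2 : ZMod (p ^ 2)) ^ (p * (p - 1)) = 1 := pow_eq_one_of_red p (by
        have : (2 : ZMod (p ^ 2)) = ((2 : ℕ) : ZMod (p ^ 2)) := by norm_num
        rw [this, red_natCast]
        exact_mod_cast h20)
      have h5 : ((tau p 2) ^ (2 * M)) ^ 2 = (2 : ZMod (p ^ 2)) ^ (p * M) := by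
        rw [h2, ← pow_mul, ← pow_mul, show p * (2 * M * 2) = p * (p - 1) + p * M by
          rw [hM, Nat.add_sub_cancel]; ring, pow_add, h4, one_mul]
      rw [h5]; ring
    rw [← h1, hom_apply, him]
    push_cast
    ring

end

end H27Tri
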