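import Pool.Agent.Helper27.Tri.IntZ

/-!
# A Jacobi sum modulo `p ^ 2`
-/

open Polynomial Finset

namespace H27Tri

variable (p : ℕ) [Fact p.Prime]

theorem sum_tau_pow (k : ℕ) (hk : 0 < k) :
    ∑ s : ZMod p, tau p s ^ k = if (p - 1) ∣ k then ((p : ZMod (p ^ 2)) - 1) else 0 := by
  have hpr : p.Prime := Fact.out
  split_ifs with h
  · have h1 : ∀ s : ZMod p, tau p s ^ k = if s = 0 then 0 else 1 := by
      intro s
      split_ifs with hs
      · rw [hs, tau_zero, zero_pow hk.ne']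
      · obtain ⟨j, rfl⟩ := h
        rw [pow_mul, tau_pow_pred p hs, one_pow]
    rw [sum_congr rfl (fun s _ => h1 s), sum_ite, sum_const_zero, zero_add, sum_const,
      nsmul_eq_mul, mul_one]
    have h2 : (univ.filter fun s : ZMod p => ¬ s = 0).card = p - 1 := by
      rw [filter_not, card_sdiff_of_subset (filter_subset _ _)]
      have : (univ.filter fun s : ZMod p => s = 0) = {0} := by ext s; simp
      rw [this, card_singleton, card_univ, ZMod.card]
    rw [h2, Nat.cast_sub hpr.one_lt.le, Nat.cast_one]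
  · -- choose a primitive root
    obtain ⟨g, hg⟩ : ∃ g : (ZMod p)ˣ, ∀ x : (ZMod p)ˣ, x ∈ Subgroup.zpowers g := IsCyclic.exists_generator
    have hord : orderOf g = p - 1 := by
      rw [orderOf_eq_card_of_forall_mem_zpowers hg, Nat.card_eq_fintype_card, ZMod.card_units p]
    have hgk : ((g : ZMod p)) ^ k ≠ 1 := by
      intro h1
      have : g ^ k = 1 := Units.ext (by rw [Units.val_pow_eq_pow_val, h1, Units.val_one])
      rw [← orderOf_dvd_iff_pow_eq_one, hord] at this
      exact h this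
    have h3 : tau p (g : ZMod p) ^ k * ∑ s : ZMod p, tau p s ^ k = ∑ s : ZMod p, tau p s ^ k := by
      rw [mul_sum]
      rw [← Equiv.sum_comp (Units.mulLeft g) (fun s => tau p s ^ k)]
      refine sum_congr rfl fun s _ => ?_
      rw [Units.mulLeft_apply, tau_mul, mul_pow]
    have h4 : (tau p (g : ZMod p) ^ k - 1) * ∑ s : ZMod p, tau p s ^ k = 0 := by
      linear_combination h3
    have h5 : IsUnit (tau p (g : ZMod p) ^ k - 1) := by
      apply isUnit_of_red
      rw [map_sub, map_pow, red_tau, map_one]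
      exact sub_ne_zero.mpr hgk
    exact (h5.mul_right_eq_zero).mp h4

/-- Sum of the values of a polynomial at the Teichmüller points. -/
theorem sum_poly (f : ℤ[X]) (h0 : f.coeff 0 = 0) (hd : f.natDegree < 3 * (p - 1)) :
    ∑ s : ZMod p, (aeval (tau p s) : ℤ[X] →ₐ[ℤ] ZMod (p ^ 2)) f
      = ((p : ZMod (p ^ 2)) - 1) * ((f.coeff (p - 1) : ZMod (p ^ 2)) + f.coeff (2 * (p - 1))) := by
  have hpr : p.Prime := Fact.out
  have hp1 : 0 < p - 1 := by have := hpr.one_lt; omega
  have h1 : ∀ s : ZMod p, (aeval (tau p s) : ℤ[X] →ₐ[ℤ] ZMod (p ^ 2)) f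
      = ∑ k ∈ range (3 * (p - 1)), (f.coeff k : ZMod (p ^ 2)) * tau p s ^ k := by
    intro s
    rw [aeval_eq_sum_range' hd]
    refine sum_congr rfl fun k _ => ?_
    rw [zsmul_eq_mul]
  rw [sum_congr rfl (fun s _ => h1 s), sum_comm]
  have h2 : ∀ k ∈ range (3 * (p - 1)), ∑ s : ZMod p, (f.coeff k : ZMod (p ^ 2)) * tau p s ^ k
      = (if k = p - 1 then ((p : ZMod (p ^ 2)) - 1) * f.coeff (p - 1) else 0)
        + (if k = 2 * (p - 1) then ((p : ZMod (p ^ 2)) - 1) * f.coeff (2 * (p - 1)) else 0) := by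
    intro k hk
    rw [mem_range] at hk
    rw [← mul_sum]
    rcases Nat.eq_zero_or_pos k with rfl | hk0
    · rw [h0, if_neg (by omega), if_neg (by omega)]; simp
    · rw [sum_tau_pow p k hk0]
      by_cases hdv : (p - 1) ∣ k
      · obtain ⟨j, rfl⟩ := hdv
        have hj : j < 3 := by
          by_contra hj
          have : (p - 1) * 3 ≤ (p - 1) * j := Nat.mul_le_mul_left _ (by omega)
          omega
        have hj0 : 0 < j := Nat.pos_of_mul_pos_left hk0 |> fun _ => by
          rcases Nat.eq_zero_or_pos j with rfl | h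
          · omega
          · exact h
        rw [if_pos (dvd_mul_right _ _)]
        interval_cases j
        · rw [mul_one, if_pos rfl, if_neg (by omega)]; ring
        · rw [mul_comm (p - 1) 2, if_neg (by omega), if_pos rfl]; ring
      · rw [if_neg hdv, if_neg (by rintro rfl; exact hdv dvd_rfl),
          if_neg (by rintro rfl; exact hdv (dvd_mul_left _ _))]
        ring
  rw [sum_congr rfl h2, sum_add_distrib, sum_ite_eq' (range (3 * (p - 1))),
    sum_ite_eq' (range (3 * (p - 1))), if_pos (by rw [mem_range]; omega),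
    if_pos (by rw [mem_range]; omega)]
  ring

theorem tau_one_sub (s : ZMod p) : tau p (1 - s) = (1 - tau p s) ^ p :=
  tau_eq p (by rw [map_sub, map_one, red_tau])

theorem add_pow_of_sq {R : Type*} [CommRing R] (x ε : R) (h : ε * ε = 0) (m : ℕ) :
    (x + ε) ^ (m + 1) = x ^ (m + 1) + (m + 1 : ℕ) * x ^ m * ε := by
  induction m with
  | zero => simp
  | succ m ih =>
    rw [pow_succ, ih]
    push_cast
    linear_combination ((m : R) + 1) * x ^ m * h

theorem coeff_one_sub_X_pow (N k : ℕ) :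
    ((1 - X : ℤ[X]) ^ N).coeff k = (-1) ^ k * (N.choose k : ℤ) := by
  rw [sub_eq_add_neg, add_comm, add_pow, finsetSum_coeff]
  have h1 : ∀ m ∈ range (N + 1), (((-X : ℤ[X]) ^ m * 1 ^ (N - m) * ((N.choose m : ℕ) : ℤ[X])).coeff k)
      = if m = k then (-1) ^ k * (N.choose k : ℤ) else 0 := by
    intro m _
    rw [one_pow, mul_one, neg_pow, ← C_eq_natCast,
      show ((-1 : ℤ[X]) ^ m * X ^ m * C ((N.choose m : ℕ) : ℤ))
        = C ((-1) ^ m * ((N.choose m : ℕ) : ℤ)) * X ^ m by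
          rw [C_mul, C_pow, C_neg, C_1]; ring, coeff_C_mul_X_pow]
    by_cases hm : m = k
    · subst hm; simp
    · rw [if_neg (fun h => hm h.symm), if_neg hm]
  rw [sum_congr rfl h1, sum_ite_eq']
  split_ifs with h
  · rfl
  · rw [mem_range] at h
    rw [Nat.choose_eq_zero_of_lt (by omega)]; simp

/-- The product identity behind the evaluation. -/
theorem choose_identity (M : ℕ) (hM : p = 3 * M + 1) (hM0 : 0 < M) (hE : Even M) :
    4 * (M : ZMod (p ^ 2)) * ((5 * M).choose M : ℕ)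
      = (5 * M + 1) * (Nat.centralBinom M : ℕ) := by
  have hpr : p.Prime := Fact.out
  have hunit : ∀ k : ℕ, 0 < k → k < p → IsUnit ((k : ℕ) : ZMod (p ^ 2)) := by
    intro k h1 h2
    apply isUnit_of_red
    rw [red_natCast, Ne, ZMod.natCast_eq_zero_iff]
    intro h3
    have := Nat.le_of_dvd h1 h3
    omega
  have hfact : ∀ k : ℕ, k < p → IsUnit ((k.factorial : ℕ) : ZMod (p ^ 2)) := by
    intro k h1
    apply isUnit_of_red
    rw [red_natCast, Ne, ZMod.natCast_eq_zero_iff, hpr.dvd_factorial]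
    omega
  set a : ZMod (p ^ 2) := ((M.factorial : ℕ) : ZMod (p ^ 2)) with ha
  set B : ZMod (p ^ 2) := ((Nat.centralBinom M : ℕ) : ZMod (p ^ 2)) with hB
  set c5 : ZMod (p ^ 2) := (((5 * M).choose M : ℕ) : ZMod (p ^ 2)) with hc5
  have hau : IsUnit a := hfact M (by omega)
  have hpp := p_sq_zero p
  have hpM : (p : ZMod (p ^ 2)) = 3 * M + 1 := by
    have : ((3 * M + 1 : ℕ) : ZMod (p ^ 2)) = (p : ZMod (p ^ 2)) := by rw [← hM]
    push_cast at this
    exact this.symm
  -- (2M)! = B a^2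
  have h2M : (((2 * M).factorial : ℕ) : ZMod (p ^ 2)) = B * a * a := by
    have h := Nat.choose_mul_factorial_mul_factorial (n := 2 * M) (k := M) (by omega)
    rw [show 2 * M - M = M by omega, ← Nat.centralBinom_eq_two_mul_choose] at h
    rw [← h]; push_cast; rfl
  have hBu : IsUnit B := by
    have h1 := hfact (2 * M) (by omega)
    rw [h2M] at h1
    exact isUnit_of_mul_isUnit_left (isUnit_of_mul_isUnit_left h1)
  -- products
  obtain ⟨Q0, hQ0⟩ : ∃ Q0 : ZMod (p ^ 2), Q0 = ∏ i ∈ range M, ((M : ZMod (p ^ 2)) + i) := ⟨_, rfl⟩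
  obtain ⟨Q1, hQ1⟩ : ∃ Q1 : ZMod (p ^ 2), Q1 = ∏ i ∈ range M, ((p : ZMod (p ^ 2)) + (M + i)) := ⟨_, rfl⟩
  obtain ⟨Q2, hQ2⟩ : ∃ Q2 : ZMod (p ^ 2), Q2 = ∏ i ∈ range M, ((p : ZMod (p ^ 2)) - (M + i)) := ⟨_, rfl⟩
  have h12 : Q1 * Q2 = Q0 * Q0 := by
    rw [hQ1, hQ2, hQ0, ← prod_mul_distrib, ← prod_mul_distrib]
    have h1 : ∀ i ∈ range M, ((p : ZMod (p ^ 2)) + (M + i)) * ((p : ZMod (p ^ 2)) - (M + i))
        = (-1) * (((M : ZMod (p ^ 2)) + i) * ((M : ZMod (p ^ 2)) + i)) := by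
      intro i _
      linear_combination hpp
    rw [prod_congr rfl h1, prod_mul_distrib, prod_const, card_range, hE.neg_one_pow, one_mul]
  have hc5a : c5 * a = Q1 := by
    have h1 := Nat.descFactorial_eq_factorial_mul_choose (5 * M) M
    have h2 : (((5 * M).descFactorial M : ℕ) : ZMod (p ^ 2)) = Q1 := by
      rw [Nat.descFactorial_eq_prod_range, hQ1, ← prod_range_reflect]
      push_cast
      refine prod_congr rfl fun i hi => ?_
      rw [mem_range] at hi
      rw [show 5 * M - (M - 1 - i) = (3 * M + 1) + (M + i) by omega]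
      push_cast
      rw [hpM]
    rw [← h2, h1]; push_cast; ring
  have hQ2a : Q2 * ((M : ZMod (p ^ 2)) + 1) = (2 * M + 1) * B * a := by
    have h1 := Nat.factorial_mul_descFactorial (n := 2 * M + 1) (k := M) (by omega)
    have h2 : (((2 * M + 1).descFactorial M : ℕ) : ZMod (p ^ 2)) = Q2 := by
      rw [Nat.descFactorial_eq_prod_range, hQ2]
      push_cast
      refine prod_congr rfl fun i hi => ?_
      rw [mem_range] at hi
      rw [Nat.cast_sub (by omega)]
      push_cast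
      rw [hpM]; ring
    rw [show 2 * M + 1 - M = M + 1 by omega, Nat.factorial_succ, Nat.factorial_succ] at h1
    have h3 := congrArg (Nat.cast : ℕ → ZMod (p ^ 2)) h1
    push_cast at h3
    rw [h2, ← ha, show (((2 * M).factorial : ℕ) : ZMod (p ^ 2)) = B * a * a from h2M] at h3
    apply hau.mul_left_cancel
    linear_combination h3
  have hQ0a : 2 * Q0 = B * a := by
    have h2 : ((M.ascFactorial M : ℕ) : ZMod (p ^ 2)) = Q0 := by
      rw [Nat.ascFactorial_eq_prod_range, hQ0]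
      push_cast
      rfl
    have h1 := Nat.factorial_mul_ascFactorial' M M hM0
    have h3 := congrArg (Nat.cast : ℕ → ZMod (p ^ 2)) h1
    push_cast at h3
    rw [h2] at h3
    -- (M-1)! * Q0 = (2M-1)!
    have h4 : (M : ZMod (p ^ 2)) * (((M - 1).factorial : ℕ) : ZMod (p ^ 2)) = a := by
      rw [ha, ← Nat.mul_factorial_pred hM0.ne']; push_cast; ring
    have h5 : (2 * M : ZMod (p ^ 2)) * (((M + M - 1).factorial : ℕ) : ZMod (p ^ 2)) = B * a * a := by
      rw [← h2M, show 2 * M = M + M by ring, ← Nat.mul_factorial_pred (n := M + M) (by omega)]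
      push_cast; ring
    apply hau.mul_left_cancel
    apply (hunit M hM0 (by omega)).mul_left_cancel
    linear_combination (2 * M * M : ZMod (p ^ 2)) * h3 - 2 * M * Q0 * h4 + M * h5
  -- combine
  have hcomb : 4 * (2 * (M : ZMod (p ^ 2)) + 1) * c5 = (M + 1) * B := by
    apply hau.mul_left_cancel
    apply hau.mul_left_cancel
    apply hBu.mul_left_cancel
    have e1 : 4 * (c5 * a) * Q2 = (B * a) * (B * a) := by
      rw [hc5a, ← hQ0a]; linear_combination 4 * h12
    linear_combination (-4 * c5 * a) * hQ2a + (M + 1 : ZMod (p ^ 2)) * e1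
  apply (hunit (2 * M + 1) (by omega) (by omega)).mul_left_cancel
  push_cast
  have hpp' : (3 * (M : ZMod (p ^ 2)) + 1) * (3 * M + 1) = 0 := by rw [← hpM]; exact hpp
  linear_combination (M : ZMod (p ^ 2)) * hcomb - B * hpp'

theorem exists_g : ∃ g : ℤ[X], (1 - X) ^ p - 1 + X ^ p = C (p : ℤ) * g := by
  apply exists_div
  simp only [Polynomial.map_add, Polynomial.map_sub, Polynomial.map_pow, Polynomial.map_one,
    Polynomial.map_X]
  rw [sub_pow_char, one_pow]; ring

theorem jac_eval (M : ℕ) (hM : p = 3 * M + 1) (hM0 : 0 < M) (hE : Even M) :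
    ∑ s : ZMod p, tau p s ^ (2 * M) * tau p (1 - s) ^ (2 * M)
      = - ((Nat.centralBinom M : ℕ) : ZMod (p ^ 2)) := by
  have hpr : p.Prime := Fact.out
  have hp0 : (p : ℤ) ≠ 0 := by exact_mod_cast hpr.ne_zero
  obtain ⟨g, hg⟩ := exists_g p
  have hpp := p_sq_zero p
  have hg0 : g.coeff 0 = 0 := by
    have h := congrArg (fun f => coeff f 0) hg
    simp only [coeff_add, coeff_sub, coeff_C_mul, coeff_one_zero, coeff_X_pow] at h
    rw [if_neg (by omega), coeff_one_sub_X_pow] at h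
    simp at h
    rcases h with h | h
    · exact absurd h hpr.ne_zero
    · exact h
  have hgd : g.natDegree ≤ p := by
    have h1 : (C (p : ℤ) * g).natDegree ≤ p := by
      rw [← hg]
      have h3' : ((1 : ℤ[X]) - X).natDegree ≤ 1 := by compute_degree
      have h3 : (((1 : ℤ[X]) - X) ^ p).natDegree ≤ p := by
        simpa using natDegree_pow_le_of_le p h3'
      refine natDegree_add_le_of_degree_le ((natDegree_sub_le_of_le h3
        (show (1 : ℤ[X]).natDegree ≤ p by simp)).trans (by simp)) ?_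
      exact natDegree_X_pow_le p
    rwa [natDegree_C_mul hp0] at h1
  -- pointwise expansion
  have hterm : ∀ s : ZMod p, tau p s ^ (2 * M) * tau p (1 - s) ^ (2 * M)
      = (aeval (tau p s) : ℤ[X] →ₐ[ℤ] ZMod (p ^ 2)) (X ^ (2 * M) * (1 - X) ^ (2 * M))
        + (p : ZMod (p ^ 2)) * (2 * M) *
          (aeval (tau p s) : ℤ[X] →ₐ[ℤ] ZMod (p ^ 2)) (X ^ (2 * M) * (1 - X) ^ (2 * M - 1) * g) := by
    intro s
    have h1 := congrArg (fun f : ℤ[X] => (aeval (tau p s) : ℤ[X] →ₐ[ℤ] ZMod (p ^ 2)) f) hg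
    simp only [map_add, map_sub, map_mul, map_pow, map_one, aeval_X, aeval_C, tau_pow_p] at h1
    have h1' : (1 - tau p s) ^ p = (1 - tau p s)
        + p * (aeval (tau p s) : ℤ[X] →ₐ[ℤ] ZMod (p ^ 2)) g := by
      have : (algebraMap ℤ (ZMod (p ^ 2))) (p : ℤ) = (p : ZMod (p ^ 2)) := by simp
      rw [this] at h1
      linear_combination h1
    rw [tau_one_sub, h1']
    obtain ⟨m, hm⟩ : ∃ m, 2 * M = m + 1 := ⟨2 * M - 1, by omega⟩
    rw [hm, Nat.add_sub_cancel, add_pow_of_sq _ _ (by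
      linear_combination ((aeval (tau p s) : ℤ[X] →ₐ[ℤ] ZMod (p ^ 2)) g) ^ 2 * hpp)]
    have h2 : (2 * (M : ZMod (p ^ 2))) = m + 1 := by
      have : ((2 * M : ℕ) : ZMod (p ^ 2)) = ((m + 1 : ℕ) : ZMod (p ^ 2)) := by rw [hm]
      push_cast at this; exact this
    simp only [map_add, map_sub, map_mul, map_pow, map_one, aeval_X]
    rw [h2]
    push_cast
    ring
  rw [sum_congr rfl (fun s _ => hterm s), sum_add_distrib, ← mul_sum]
  have h1X : ((1 : ℤ[X]) - X).natDegree ≤ 1 := by compute_degree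
  have hpow : ∀ N : ℕ, (((1 : ℤ[X]) - X) ^ N).natDegree ≤ N := fun N => by
    simpa using natDegree_pow_le_of_le N h1X
  have hXp : ∀ N : ℕ, ((X : ℤ[X]) ^ N).natDegree ≤ N := fun N => natDegree_X_pow_le N
  rw [sum_poly p _ (by rw [coeff_X_pow_mul', if_neg (by omega)]) (by
      have h1 := hpow (2 * M)
      have h2 := hXp (2 * M)
      exact lt_of_le_of_lt (natDegree_mul_le_of_le h2 h1) (by omega)),
    sum_poly p _ (by rw [mul_assoc, coeff_X_pow_mul', if_neg (by omega)]) (by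
      have h1 := hpow (2 * M - 1)
      have h2 := hXp (2 * M)
      exact lt_of_le_of_lt (natDegree_mul_le_of_le (natDegree_mul_le_of_le h2 h1) hgd) (by omega))]
  -- the coefficients
  have c1 : (X ^ (2 * M) * (1 - X : ℤ[X]) ^ (2 * M)).coeff (p - 1) = (Nat.centralBinom M : ℤ) := by
    rw [coeff_X_pow_mul', if_pos (by omega), show p - 1 - 2 * M = M by omega, coeff_one_sub_X_pow,
      hE.neg_one_pow, one_mul, Nat.centralBinom_eq_two_mul_choose]
  have c2 : (X ^ (2 * M) * (1 - X : ℤ[X]) ^ (2 * M)).coeff (2 * (p - 1)) = 0 := by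
    rw [coeff_X_pow_mul', if_pos (by omega), coeff_one_sub_X_pow,
      Nat.choose_eq_zero_of_lt (by omega)]; simp
  have hco : Odd (M - 1) := by
    obtain ⟨j, hj⟩ := hE; exact ⟨j - 1, by omega⟩
  have cg : ∀ k, (p : ℤ) * ((1 - X : ℤ[X]) ^ (2 * M - 1) * g).coeff k
      = (-1) ^ k * ((5 * M).choose k : ℤ) - (-1) ^ k * ((2 * M - 1).choose k : ℤ)
        + (if p ≤ k then (-1) ^ (k - p) * ((2 * M - 1).choose (k - p) : ℤ) else 0) := by
    intro k
    have h1 : C (p : ℤ) * ((1 - X : ℤ[X]) ^ (2 * M - 1) * g)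
        = (1 - X : ℤ[X]) ^ (5 * M) - (1 - X : ℤ[X]) ^ (2 * M - 1) + X ^ p * (1 - X) ^ (2 * M - 1) := by
      rw [show 5 * M = (2 * M - 1) + p by omega, pow_add]
      linear_combination (-(1 - X : ℤ[X]) ^ (2 * M - 1)) * hg
    rw [← coeff_C_mul, h1, coeff_add, coeff_sub, coeff_one_sub_X_pow, coeff_one_sub_X_pow,
      coeff_X_pow_mul', coeff_one_sub_X_pow]
  have c3 : (p : ℤ) * (X ^ (2 * M) * (1 - X : ℤ[X]) ^ (2 * M - 1) * g).coeff (p - 1)
      = ((5 * M).choose M : ℤ) - ((2 * M - 1).choose M : ℤ) := by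
    rw [mul_assoc (X ^ (2 * M)), coeff_X_pow_mul', if_pos (by omega),
      show p - 1 - 2 * M = M by omega, cg, if_neg (by omega), hE.neg_one_pow]
    ring
  have c4 : (p : ℤ) * (X ^ (2 * M) * (1 - X : ℤ[X]) ^ (2 * M - 1) * g).coeff (2 * (p - 1))
      = ((5 * M).choose M : ℤ) - ((2 * M - 1).choose M : ℤ) := by
    rw [mul_assoc (X ^ (2 * M)), coeff_X_pow_mul', if_pos (by omega),
      show 2 * (p - 1) - 2 * M = 4 * M by omega, cg, if_pos (by omega),
      show 4 * M - p = M - 1 by omega, hco.neg_one_pow,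
      Nat.choose_eq_zero_of_lt (by omega : 2 * M - 1 < 4 * M)]
    have h1 : (5 * M).choose (4 * M) = (5 * M).choose M :=
      Nat.choose_symm_of_eq_add (by omega)
    have h2 : (2 * M - 1).choose (M - 1) = (2 * M - 1).choose M :=
      Nat.choose_symm_of_eq_add (by omega)
    have h3 : (-1 : ℤ) ^ (4 * M) = 1 := by rw [pow_mul]; norm_num
    rw [h1, h2, h3]
    push_cast
    ring
  rw [c1, c2]
  obtain ⟨u, hu⟩ : ∃ u, u = (X ^ (2 * M) * (1 - X : ℤ[X]) ^ (2 * M - 1) * g).coeff (p - 1) := ⟨_, rfl⟩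
  obtain ⟨v, hv⟩ : ∃ v, v = (X ^ (2 * M) * (1 - X : ℤ[X]) ^ (2 * M - 1) * g).coeff (2 * (p - 1)) :=
    ⟨_, rfl⟩
  rw [← hu] at c3 ⊢
  rw [← hv] at c4 ⊢
  have c3' := congrArg (Int.cast : ℤ → ZMod (p ^ 2)) c3
  have c4' := congrArg (Int.cast : ℤ → ZMod (p ^ 2)) c4
  push_cast at c3' c4'
  have hcb : 2 * (((2 * M - 1).choose M : ℕ) : ZMod (p ^ 2)) = ((Nat.centralBinom M : ℕ) : ZMod (p ^ 2)) := by
    have h1 : Nat.centralBinom M = 2 * (2 * M - 1).choose M := by
      rw [Nat.centralBinom_eq_two_mul_choose]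
      obtain ⟨m, hm⟩ : ∃ m, M = m + 1 := ⟨M - 1, by omega⟩
      rw [hm, show 2 * (m + 1) - 1 = 2 * m + 1 by omega, show 2 * (m + 1) = 2 * m + 1 + 1 by ring,
        Nat.choose_succ_succ, Nat.choose_symm_of_eq_add (show 2 * m + 1 = m + (m + 1) by ring)]
      ring
    rw [h1]; push_cast; ring
  have hid := choose_identity p M hM hM0 hE
  have hpM : (p : ZMod (p ^ 2)) = 3 * M + 1 := by
    have : ((3 * M + 1 : ℕ) : ZMod (p ^ 2)) = (p : ZMod (p ^ 2)) := by rw [← hM]
    push_cast at this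
    exact this.symm
  push_cast
  have e1 : (p : ZMod (p ^ 2)) * (2 * M) * (((p : ZMod (p ^ 2)) - 1) * (u + v))
      = - (2 * M) * (p * u + p * v) := by
    linear_combination (2 * M * (u + v) : ZMod (p ^ 2)) * hpp
  rw [e1, c3', c4']
  have e2 : ((p : ZMod (p ^ 2)) - 1) = 3 * M := by rw [hpM]; ring
  rw [e2]
  linear_combination (-1 : ZMod (p ^ 2)) * hid + (2 * M : ZMod (p ^ 2)) * hcb

end H27Tri
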