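import Pool.Agent.Helper27.Tri.Series

/-!
# The sums as coefficients of power series
-/

open PowerSeries Finset

namespace H27Tri

/-- `(-1)^n ∑ (-1)^k C(n+k, 2k) T_{2k}(b,c)`. -/
noncomputable def cn (b c : ℤ) (n : ℕ) : ℤ :=
  ∑ k ∈ range (n + 1), ((n + k).choose (2 * k) : ℤ) * trinom (2 * k) b c * (-1) ^ (n - k)

/-- `1 / (1 - X)`. -/
noncomputable def I : ℤ⟦X⟧ := PowerSeries.mk 1

theorem I_mul : I * (1 - X) = 1 := PowerSeries.mk_one_mul_one_sub_eq_one ℤ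

theorem coeff_I_pow (d m : ℕ) : coeff m (I ^ (d + 1)) = ((d + m).choose d : ℤ) := by
  unfold I
  rw [PowerSeries.mk_one_pow_eq_mk_choose_add, coeff_mk]

theorem T23 (m : ℕ) : trinom m 2 3 = coeff m ((1 + 2 * X ^ 2) ^ m * I ^ (m + 1)) := by
  have h1 : (Polynomial.X ^ 2 + Polynomial.C 2 * Polynomial.X + Polynomial.C 3 : Polynomial ℤ)
      = (Polynomial.X + 1) ^ 2 + Polynomial.C 2 := by
    have : (Polynomial.C 3 : Polynomial ℤ) = Polynomial.C 2 + 1 := by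
      rw [← Polynomial.C_1, ← Polynomial.C_add]; norm_num
    have h2 : (Polynomial.C 2 : Polynomial ℤ) = 2 := map_ofNat _ 2
    rw [this, h2]
    ring
  unfold trinom
  rw [h1, add_pow ((Polynomial.X + 1) ^ 2) (Polynomial.C 2) m, Polynomial.finsetSum_coeff,
    add_pow (1 : ℤ⟦X⟧) (2 * X ^ 2) m, sum_mul, map_sum]
  refine sum_congr rfl fun i hi => ?_
  rw [mem_range] at hi
  rw [← pow_mul, mul_assoc, ← Polynomial.C_pow, ← Polynomial.C_eq_natCast, ← Polynomial.C_mul,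
    Polynomial.coeff_mul_C, Polynomial.coeff_X_add_one_pow]
  rw [one_pow, one_mul, mul_pow, ← pow_mul,
    show (2 : ℤ⟦X⟧) = C (2 : ℤ) from (map_ofNat C 2).symm, ← map_pow,
    show ((m.choose i : ℕ) : ℤ⟦X⟧) = C ((m.choose i : ℕ) : ℤ) from (map_natCast C _).symm,
    show C (2 ^ (m - i)) * X ^ (2 * (m - i)) * C ((m.choose i : ℕ) : ℤ) * I ^ (m + 1)
      = C (2 ^ (m - i) * ((m.choose i : ℕ) : ℤ)) * (X ^ (2 * (m - i)) * I ^ (m + 1)) by
        rw [map_mul]; ring,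
    coeff_C_mul, coeff_X_pow_mul']
  split_ifs with h
  · rw [coeff_I_pow, show m + (m - 2 * (m - i)) = 2 * i by omega]
    ring
  · rw [Nat.choose_eq_zero_of_lt (by omega : 2 * i < m)]
    simp

theorem T43 (m : ℕ) : trinom m 4 (-3) = coeff m ((1 + 2 * X) ^ m * tgs 2 (-3)) := by
  have h1 : (Polynomial.X ^ 2 + Polynomial.C 4 * Polynomial.X + Polynomial.C (-3) : Polynomial ℤ)
      = (Polynomial.X ^ 2 + Polynomial.C 2 * Polynomial.X + Polynomial.C (-3))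
        + Polynomial.C 2 * Polynomial.X := by
    have h2 : (Polynomial.C 2 : Polynomial ℤ) = 2 := map_ofNat _ 2
    have h4 : (Polynomial.C 4 : Polynomial ℤ) = 4 := map_ofNat _ 4
    rw [h2, h4]
    ring
  unfold trinom
  rw [h1, add_pow, Polynomial.finsetSum_coeff,
    add_pow, sum_mul, map_sum]
  refine sum_congr rfl fun i hi => ?_
  rw [mem_range] at hi
  rw [mul_pow, ← Polynomial.C_pow, ← Polynomial.C_eq_natCast,
    show ∀ A : Polynomial ℤ, A ^ i * (Polynomial.C (2 ^ (m - i)) * Polynomial.X ^ (m - i))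
        * Polynomial.C ((m.choose i : ℕ) : ℤ)
      = Polynomial.C (2 ^ (m - i) * ((m.choose i : ℕ) : ℤ)) * (Polynomial.X ^ (m - i) * A ^ i) by
        intro A; rw [Polynomial.C_mul]; ring, Polynomial.coeff_C_mul, Polynomial.coeff_X_pow_mul',
      if_pos (by omega), show m - (m - i) = i by omega]
  rw [one_pow, one_mul, mul_pow,
    show (2 : ℤ⟦X⟧) = C (2 : ℤ) from (map_ofNat C 2).symm, ← map_pow,
    show ((m.choose i : ℕ) : ℤ⟦X⟧) = C ((m.choose i : ℕ) : ℤ) from (map_natCast C _).symm,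
    show C (2 ^ (m - i)) * X ^ (m - i) * C ((m.choose i : ℕ) : ℤ) * tgs 2 (-3)
      = C (2 ^ (m - i) * ((m.choose i : ℕ) : ℤ)) * (X ^ (m - i) * tgs 2 (-3)) by
        rw [map_mul]; ring,
    coeff_C_mul, coeff_X_pow_mul', if_pos (by omega), show m - (m - i) = i by omega,
    show coeff i (tgs 2 (-3)) = trinom i 2 (-3) from coeff_mk _ _]
  rfl

theorem c23 (n : ℕ) :
    cn 2 3 n = coeff (2 * n) (U (1 + 2 * X ^ 2 : ℤ⟦X⟧) ((X - X ^ 2) ^ 2) (2 * n) * I ^ (2 * n + 1)) := by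
  rw [(U_explicit _ _ n).1, sum_mul, map_sum]
  unfold cn
  refine sum_congr rfl fun k hk => ?_
  rw [mem_range] at hk
  have h1 : (-(X - X ^ 2) ^ 2 : ℤ⟦X⟧) ^ (n - k) * I ^ (2 * n + 1)
      = C ((-1) ^ (n - k)) * (X ^ (2 * (n - k)) * I ^ (2 * k + 1)) := by
    obtain ⟨j, rfl⟩ : ∃ j, n = k + j := ⟨n - k, by omega⟩
    rw [show k + j - k = j by omega, map_pow, map_neg, map_one, pow_mul X,
      show 2 * (k + j) + 1 = 2 * j + (2 * k + 1) by ring, pow_add, pow_mul I]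
    have h2 : ((X - X ^ 2) ^ 2 : ℤ⟦X⟧) * I ^ 2 = X ^ 2 := by
      have := I_mul
      linear_combination (X ^ 2 * (I * (1 - X) + 1)) * this
    calc (-(X - X ^ 2) ^ 2 : ℤ⟦X⟧) ^ j * ((I ^ 2) ^ j * I ^ (2 * k + 1))
        = (-(((X - X ^ 2) ^ 2 : ℤ⟦X⟧) * I ^ 2)) ^ j * I ^ (2 * k + 1) := by
          rw [← mul_assoc, ← mul_pow]; ring
      _ = _ := by rw [h2, neg_pow]; ring
  rw [T23, mul_assoc _ (_ ^ (n - k)), h1,
    show ((((n + k).choose (2 * k) : ℕ)) : ℤ⟦X⟧) = C (((n + k).choose (2 * k) : ℕ) : ℤ)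
      from (map_natCast C _).symm,
    show ∀ A B : ℤ⟦X⟧, C (((n + k).choose (2 * k) : ℕ) : ℤ) * A * (C ((-1) ^ (n - k)) *
      (X ^ (2 * (n - k)) * B)) = C ((((n + k).choose (2 * k) : ℕ) : ℤ) * (-1) ^ (n - k))
        * (X ^ (2 * (n - k)) * (A * B)) by intro A B; rw [map_mul]; ring,
    coeff_C_mul, coeff_X_pow_mul', if_pos (by omega), show 2 * n - 2 * (n - k) = 2 * k by omega]
  ring

theorem c43 (n : ℕ) :
    cn 4 (-3) n = coeff (2 * n) (U (1 + 2 * X : ℤ⟦X⟧) (X ^ 2) (2 * n) * tgs 2 (-3)) := by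
  rw [(U_explicit _ _ n).1, sum_mul, map_sum]
  unfold cn
  refine sum_congr rfl fun k hk => ?_
  rw [mem_range] at hk
  have h1 : (-X ^ 2 : ℤ⟦X⟧) ^ (n - k)
      = C ((-1) ^ (n - k)) * (X ^ (2 * (n - k))) := by
    rw [map_pow, map_neg, map_one, pow_mul X, neg_pow]
  rw [T43, h1,
    show ((((n + k).choose (2 * k) : ℕ)) : ℤ⟦X⟧) = C (((n + k).choose (2 * k) : ℕ) : ℤ)
      from (map_natCast C _).symm,
    show ∀ A B : ℤ⟦X⟧, C (((n + k).choose (2 * k) : ℕ) : ℤ) * A * (C ((-1) ^ (n - k)) *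
      X ^ (2 * (n - k))) * B = C ((((n + k).choose (2 * k) : ℕ) : ℤ) * (-1) ^ (n - k))
        * (X ^ (2 * (n - k)) * (A * B)) by intro A B; rw [map_mul]; ring,
    coeff_C_mul, coeff_X_pow_mul', if_pos (by omega), show 2 * n - 2 * (n - k) = 2 * k by omega]
  ring

end H27Tri
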