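import Pool.Agent.Helper27.Tri.JacobiArith
import Pool.Agent.Helper27.Tri.Transform

/-!
# From the sums to the coefficients `cn`, and the end of the evaluation
-/

open Finset

namespace H27Tri

/-! ### Uniqueness of `p = x ^ 2 + 3 y ^ 2` -/

theorem rep_unique {p : ℕ} (hp : p.Prime) {x y x' y' : ℤ}
    (h : (p : ℤ) = x ^ 2 + 3 * y ^ 2) (h' : (p : ℤ) = x' ^ 2 + 3 * y' ^ 2)
    (hx : x % 3 = 1) (hx' : x' % 3 = 1) : x = x' := by
  have hp0 : (0 : ℤ) < p := by exact_mod_cast hp.pos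
  have hpi : Prime (p : ℤ) := Nat.prime_iff_prime_int.mp hp
  -- the main step
  have main : ∀ z : ℤ, (p : ℤ) = x' ^ 2 + 3 * z ^ 2 → (p : ℤ) ∣ x * z - x' * y → x = x' := by
    intro z hz hd
    obtain ⟨k, hk⟩ := hd
    have h1 : (x * x' + 3 * y * z) ^ 2 = (p : ℤ) ^ 2 * (1 - 3 * k ^ 2) := by
      have : (x * x' + 3 * y * z) ^ 2 + 3 * (x * z - x' * y) ^ 2
          = (x ^ 2 + 3 * y ^ 2) * (x' ^ 2 + 3 * z ^ 2) := by ring
      rw [← h, ← hz, hk] at this
      linear_combination this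
    have hk0 : k = 0 := by
      by_contra hk0
      have h2 : 1 ≤ k ^ 2 := by
        have : 0 < k ^ 2 := by positivity
        omega
      have h3 : 0 ≤ (x * x' + 3 * y * z) ^ 2 := sq_nonneg _
      have h4 : (p : ℤ) ^ 2 * (1 - 3 * k ^ 2) < 0 := by
        have : 0 < (p : ℤ) ^ 2 := by positivity
        nlinarith
      omega
    rw [hk0] at h1 hk
    have h5 : x * x' + 3 * y * z = p ∨ x * x' + 3 * y * z = -p := by
      have : (x * x' + 3 * y * z) ^ 2 = (p : ℤ) ^ 2 := by linear_combination h1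
      exact sq_eq_sq_iff_eq_or_eq_neg.mp this
    have h6 : x * p = x' * (x * x' + 3 * y * z) := by
      linear_combination x * hz + 3 * z * hk
    rcases h5 with h5 | h5
    · rw [h5] at h6
      exact mul_right_cancel₀ hp0.ne' h6
    · rw [h5] at h6
      have : x = -x' := by
        apply mul_right_cancel₀ hp0.ne'
        linear_combination h6
      omega
  have hprod : (p : ℤ) ∣ (x * y' - x' * y) * (x * y' + x' * y) := by
    refine ⟨y' ^ 2 - y ^ 2, ?_⟩
    linear_combination (-y' ^ 2) * h + y ^ 2 * h'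
  rcases hpi.dvd_or_dvd hprod with hd | hd
  · exact main y' h' hd
  · refine main (-y') (by rw [h']; ring) ?_
    obtain ⟨k, hk⟩ := hd
    exact ⟨-k, by linear_combination -hk⟩

/-! ### The quadratic equation -/

theorem theta_eq {p : ℕ} [Fact p.Prime] (x y : ℤ) (δ c : ZMod (p ^ 2))
    (h : (p : ℤ) = x ^ 2 + 3 * y ^ 2) (hδ : δ * δ = -3)
    (hc : c = (x : ZMod (p ^ 2)) + (y : ZMod (p ^ 2)) * δ) (hcu : IsUnit c) :
    2 * (x : ZMod (p ^ 2)) * c = 4 * (x : ZMod (p ^ 2)) ^ 2 - (p : ZMod (p ^ 2)) := by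
  have hpZ : (p : ZMod (p ^ 2)) = (x : ZMod (p ^ 2)) ^ 2 + 3 * (y : ZMod (p ^ 2)) ^ 2 := by
    have := congrArg (Int.cast : ℤ → ZMod (p ^ 2)) h
    push_cast at this
    exact this
  have h1 : (c - 2 * x) * c = -(p : ZMod (p ^ 2)) := by
    rw [hc, hpZ]
    linear_combination (y : ZMod (p ^ 2)) ^ 2 * hδ
  have h2 : (p : ZMod (p ^ 2)) ∣ c - 2 * x := by
    obtain ⟨d, hd⟩ := hcu.exists_left_inv
    refine ⟨-d, ?_⟩
    linear_combination (-(c - 2 * x)) * hd + d * h1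
  obtain ⟨k, hk⟩ := h2
  have hpp := p_sq_zero p
  have h3 : (c - 2 * x) * (c - 2 * x) = 0 := by
    rw [hk]; linear_combination k ^ 2 * hpp
  linear_combination h1 - h3

/-! ### The central binomial coefficients modulo `p ^ 2` -/

theorem nat_isUnit {p : ℕ} [Fact p.Prime] {k : ℕ} (h1 : 0 < k) (h2 : k < p) :
    IsUnit ((k : ℕ) : ZMod (p ^ 2)) := by
  apply isUnit_of_red
  rw [red_natCast, Ne, ZMod.natCast_eq_zero_iff]
  intro h3
  have := Nat.le_of_dvd h1 h3
  omega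

theorem central_eq (p n : ℕ) [Fact p.Prime] (hp : p = 2 * n + 1) (k : ℕ) (hk : k ≤ n) :
    (((2 * k).choose k : ℕ) : ZMod (p ^ 2))
      = (-16) ^ k * (((n + k).choose (2 * k) : ℕ) : ZMod (p ^ 2)) := by
  induction k with
  | zero => simp
  | succ k ih =>
    have ih' := ih (by omega)
    have hpp := p_sq_zero p
    have hpn : (p : ZMod (p ^ 2)) = 2 * n + 1 := by
      have : ((2 * n + 1 : ℕ) : ZMod (p ^ 2)) = (p : ZMod (p ^ 2)) := by rw [← hp]
      push_cast at this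
      exact this.symm
    -- the two recurrences
    have e1 := Nat.succ_mul_centralBinom_succ k
    rw [Nat.centralBinom_eq_two_mul_choose, Nat.centralBinom_eq_two_mul_choose] at e1
    have e2 : (n + (k + 1)).choose (2 * (k + 1)) * ((2 * k + 2) * (2 * k + 1))
        = (n + k).choose (2 * k) * ((n + k + 1) * (n - k)) := by
      have f1 := Nat.add_one_mul_choose_eq (n + k) (2 * k + 1)
      have f2 := Nat.choose_succ_right_eq (n + k) (2 * k)
      have f1' : (n + k + 1) * (n + k).choose (2 * k + 1)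
          = (n + (k + 1)).choose (2 * (k + 1)) * (2 * k + 2) := by
        simpa [Nat.succ_eq_add_one, add_assoc, mul_add] using f1
      rw [show n + k - 2 * k = n - k by omega] at f2
      calc (n + (k + 1)).choose (2 * (k + 1)) * ((2 * k + 2) * (2 * k + 1))
          = ((n + (k + 1)).choose (2 * (k + 1)) * (2 * k + 2)) * (2 * k + 1) := by ring
        _ = (n + k + 1) * ((n + k).choose (2 * k + 1) * (2 * k + 1)) := by rw [← f1']; ring
        _ = _ := by rw [f2]; ring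
    have e1' := congrArg (Nat.cast : ℕ → ZMod (p ^ 2)) e1
    have e2' := congrArg (Nat.cast : ℕ → ZMod (p ^ 2)) e2
    rw [Nat.cast_mul, Nat.cast_mul] at e1'
    rw [Nat.cast_mul, Nat.cast_mul ((n + k).choose (2 * k)), Nat.cast_mul (n + k + 1) (n - k),
      Nat.cast_sub (by omega : k ≤ n)] at e2'
    obtain ⟨A, hA⟩ : ∃ A : ZMod (p ^ 2), A = (((2 * (k + 1)).choose (k + 1) : ℕ) : ZMod (p ^ 2)) :=
      ⟨_, rfl⟩
    obtain ⟨B, hB⟩ : ∃ B : ZMod (p ^ 2), B = (((n + (k + 1)).choose (2 * (k + 1)) : ℕ) : ZMod (p ^ 2)) :=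
      ⟨_, rfl⟩
    obtain ⟨a, ha⟩ : ∃ A : ZMod (p ^ 2), A = (((2 * k).choose k : ℕ) : ZMod (p ^ 2)) :=
      ⟨_, rfl⟩
    obtain ⟨b, hb⟩ : ∃ B : ZMod (p ^ 2), B = (((n + k).choose (2 * k) : ℕ) : ZMod (p ^ 2)) :=
      ⟨_, rfl⟩
    rw [← hA]
    rw [← hB]
    rw [← hA, ← ha] at e1'
    rw [← hB, ← hb] at e2'
    rw [← ha, ← hb] at ih'
    push_cast at e1' e2'
    have hu1 : IsUnit (((k + 1 : ℕ)) : ZMod (p ^ 2)) := nat_isUnit (by omega) (by omega)
    have hu2 : IsUnit (((2 * k + 1 : ℕ)) : ZMod (p ^ 2)) := nat_isUnit (by omega) (by omega)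
    have hu3 : IsUnit (((2 : ℕ)) : ZMod (p ^ 2)) := nat_isUnit (by omega) (by omega)
    apply hu3.mul_left_cancel
    apply hu1.mul_left_cancel
    apply hu2.mul_left_cancel
    push_cast
    have h4 : (4 : ZMod (p ^ 2)) * (2 * k + 1) ^ 2 = -16 * ((n + k + 1) * (n - k)) := by
      have : (2 * (n : ZMod (p ^ 2)) + 1) * (2 * n + 1) = 0 := by rw [← hpn]; exact hpp
      linear_combination 4 * this
    rw [pow_succ (-16 : ZMod (p ^ 2)) k]
    linear_combination (2 * (2 * (k : ZMod (p ^ 2)) + 1)) * e1' + (4 * (2 * (k : ZMod (p ^ 2)) + 1) ^ 2) * ih'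
      + ((-16) ^ k * b) * h4 + (16 * (-16) ^ k) * e2'

/-! ### The sums as integers -/

/-- `16 ^ N` times the sum with the terms `k ≤ n`. -/
noncomputable def numer (b c : ℤ) (n N : ℕ) : ℤ :=
  ∑ k ∈ range (n + 1), ((2 * k).choose k : ℤ) * 16 ^ (N - k) * trinom (2 * k) b c

theorem numer_cast (b c : ℤ) (n N : ℕ) (h : n ≤ N) :
    ((numer b c n N : ℤ) : ℚ)
      = 16 ^ N * ∑ k ∈ range (n + 1), ((2 * k).choose k : ℚ) / 16 ^ k * (trinom (2 * k) b c : ℚ) := by
  unfold numer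
  push_cast
  rw [mul_sum]
  refine sum_congr rfl fun k hk => ?_
  rw [mem_range] at hk
  have h1 : (16 : ℚ) ^ N = 16 ^ (N - k) * 16 ^ k := by
    rw [← pow_add]; congr 1; omega
  rw [h1]
  have h2 : (16 : ℚ) ^ k ≠ 0 := by positivity
  field_simp

theorem numer_mod (p n : ℕ) [Fact p.Prime] (hp : p = 2 * n + 1) (b c : ℤ) :
    ((numer b c n n : ℤ) : ZMod (p ^ 2))
      = 16 ^ n * (-1) ^ n * ((cn b c n : ℤ) : ZMod (p ^ 2)) := by
  unfold numer cn
  push_cast
  rw [mul_sum]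
  refine sum_congr rfl fun k hk => ?_
  rw [mem_range] at hk
  rw [central_eq p n hp k (by omega)]
  have h1 : (16 : ZMod (p ^ 2)) ^ n = 16 ^ (n - k) * 16 ^ k := by
    rw [← pow_add]; congr 1; omega
  have h2 : (-1 : ZMod (p ^ 2)) ^ n = (-1) ^ (n - k) * (-1) ^ k := by
    rw [← pow_add]; congr 1; omega
  have h3 : (-1 : ZMod (p ^ 2)) ^ (n - k) * (-1) ^ (n - k) = 1 := by
    rw [← mul_pow]; norm_num
  have h4 : (-16 : ZMod (p ^ 2)) ^ k = (-1) ^ k * 16 ^ k := by
    rw [← mul_pow]; norm_num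
  rw [h1, h2, h4]
  linear_combination (-((-1) ^ k * 16 ^ k * (((n + k).choose (2 * k) : ℕ) : ZMod (p ^ 2)) * 16 ^ (n - k) *
    (trinom (2 * k) b c : ZMod (p ^ 2)))) * h3

/-- A criterion for congruences of rational numbers. -/
theorem congMod_of_int (p m : ℕ) [Fact p.Prime] (r s : ℚ) (D E : ℤ) (hE : ¬ (p : ℤ) ∣ E)
    (h : (r - s) * E = D) (hD : (p : ℤ) ^ m ∣ D) : CongMod p m r s := by
  by_cases hrs : r = s
  · exact Or.inl hrs
  right
  have hE0 : (E : ℚ) ≠ 0 := by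
    intro h0
    have : E = 0 := by exact_mod_cast h0
    rw [this] at hE
    exact hE (dvd_zero _)
  have hr : r - s ≠ 0 := sub_ne_zero.mpr hrs
  have hD0 : D ≠ 0 := by
    rintro rfl
    rw [Int.cast_zero] at h
    rcases mul_eq_zero.mp h with h1 | h1
    · exact hr h1
    · exact hE0 h1
  have h1 : padicValRat p ((r - s) * E) = padicValRat p D := by rw [h]
  rw [padicValRat.mul hr hE0, padicValRat.of_int, padicValRat.of_int,
    padicValInt.eq_zero_of_not_dvd hE] at h1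
  have h2 : m ≤ padicValInt p D := by
    rw [padicValInt_dvd_iff] at hD
    rcases hD with h3 | h3
    · exact absurd h3 hD0
    · exact h3
  push_cast at h1
  omega

theorem not_dvd_pow_two {p : ℕ} (hp : p.Prime) (h2 : 2 < p) (n : ℕ) : ¬ (p : ℤ) ∣ 16 ^ n := by
  intro h
  have h1 : (p : ℤ) ∣ 16 := Int.Prime.dvd_pow' hp h |> fun h => by exact_mod_cast h
  have h3 : p ∣ 2 ^ 4 := by
    have : ((p : ℕ) : ℤ) ∣ ((16 : ℕ) : ℤ) := by exact_mod_cast h1
    have := Int.natCast_dvd_natCast.mp this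
    simpa using this
  have h4 := hp.dvd_of_dvd_pow h3
  have := Nat.le_of_dvd (by norm_num) h4
  omega

end H27Tri
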