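import Pool.Agent.Helper27.Tri.Trinom
import Pool.Agent.Helper27.Tri.Cheb

/-!
# Power series over the integers
-/

open PowerSeries Finset

namespace H27Tri

/-- The central binomial series. -/
def cbs : ℤ⟦X⟧ := PowerSeries.mk fun m => (Nat.centralBinom m : ℤ)

theorem cbs_ode : (1 - 4 * X) * d⁄dX ℤ cbs = 2 * cbs := by
  ext m
  rw [sub_mul, one_mul, mul_assoc, map_sub, coeff_derivative]
  have h4 : (4 : ℤ⟦X⟧) = C (4 : ℤ) := (map_ofNat C 4).symm
  have h2 : (2 : ℤ⟦X⟧) = C (2 : ℤ) := (map_ofNat C 2).symm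
  rw [h4, h2, coeff_C_mul, coeff_C_mul]
  have key := Nat.succ_mul_centralBinom_succ m
  have key' : ((m : ℤ) + 1) * (Nat.centralBinom (m + 1) : ℤ)
      = 2 * (2 * m + 1) * (Nat.centralBinom m : ℤ) := by exact_mod_cast key
  rcases m with _ | m
  · simp [cbs, Nat.centralBinom]
  · rw [coeff_succ_X_mul, coeff_derivative]
    simp only [cbs, coeff_mk]
    push_cast at key' ⊢
    linear_combination key'

theorem cbs_sq : cbs ^ 2 * (1 - 4 * X) = 1 := by
  apply PowerSeries.derivative.ext
  · have h4 : d⁄dX ℤ (4 : ℤ⟦X⟧) = 0 := by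
      rw [show (4 : ℤ⟦X⟧) = C (4 : ℤ) from (map_ofNat C 4).symm, derivative_C]
    have h := cbs_ode
    simp only [Derivation.leibniz, map_sub, Derivation.map_one_eq_zero, smul_eq_mul,
      derivative_X, h4, pow_two]
    linear_combination 2 * cbs * h
  · simp [cbs, Nat.centralBinom_zero]

/-- `V κ = ∑ C(2m, m) κ ^ m X ^ (3 m)`. -/
noncomputable def V (κ : ℤ) : ℤ⟦X⟧ := PowerSeries.expand 3 (by norm_num) (PowerSeries.rescale κ cbs)

theorem V_sq (κ : ℤ) : V κ ^ 2 * (1 - C (4 * κ) * X ^ 3) = 1 := by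
  have h := congrArg (PowerSeries.expand 3 (by norm_num)) (congrArg (PowerSeries.rescale κ) cbs_sq)
  rw [map_mul, map_mul, map_pow, map_pow, map_one, map_one] at h
  have h2 : (PowerSeries.expand 3 (by norm_num)) ((PowerSeries.rescale κ) (1 - 4 * X))
      = 1 - C (4 * κ) * X ^ 3 := by
    rw [map_sub, map_sub, map_mul, map_mul, map_one, map_one, rescale_X, map_mul, expand_X,
      map_ofNat, map_ofNat, expand_C, map_mul, map_ofNat]
    ring
  rw [h2] at h
  exact h

theorem coeff_V (κ : ℤ) (m : ℕ) : coeff (3 * m) (V κ) = κ ^ m * (Nat.centralBinom m : ℤ) := by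
  unfold V
  rw [coeff_expand_mul, coeff_rescale]
  simp [cbs]

theorem constantCoeff_V (κ : ℤ) : constantCoeff (V κ) = 1 := by
  have := coeff_V κ 0
  simpa using this

/-- The generating series of `trinom`. -/
noncomputable def tgs (b c : ℤ) : ℤ⟦X⟧ := PowerSeries.mk fun m => trinom m b c

theorem tgs_ode (b c : ℤ) :
    (1 - C (2 * b) * X + C (b ^ 2 - 4 * c) * X ^ 2) * d⁄dX ℤ (tgs b c)
      = (C b - C (b ^ 2 - 4 * c) * X) * tgs b c := by
  obtain ⟨B, hB⟩ : ∃ B, B = b ^ 2 - 4 * c := ⟨_, rfl⟩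
  rw [← hB]
  ext m
  rw [add_mul, sub_mul, one_mul, mul_assoc (C (2 * b)), mul_assoc (C B), map_add, map_sub,
    coeff_C_mul, coeff_C_mul, sub_mul, map_sub, coeff_C_mul, mul_assoc (C B), coeff_C_mul,
    coeff_derivative]
  rcases m with _ | m
  · simp [tgs, pow_two, mul_assoc, trinom_zero, trinom_one]
  · rcases m with _ | m
    · rw [coeff_succ_X_mul, coeff_succ_X_mul, coeff_derivative, pow_two, mul_assoc X X,
        coeff_succ_X_mul]
      simp only [tgs, coeff_mk]
      have := trinom_rec b c 0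
      rw [← hB] at this
      simp [trinom_zero, trinom_one] at this ⊢
      linear_combination this
    · rw [coeff_succ_X_mul, coeff_succ_X_mul, coeff_derivative, pow_two, mul_assoc X X,
        coeff_succ_X_mul, coeff_succ_X_mul, coeff_derivative]
      simp only [tgs, coeff_mk]
      have := trinom_rec b c (m + 1)
      rw [← hB] at this
      push_cast at this ⊢
      linear_combination this

theorem tgs_sq (b c : ℤ) :
    tgs b c ^ 2 * (1 - C (2 * b) * X + C (b ^ 2 - 4 * c) * X ^ 2) = 1 := by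
  apply PowerSeries.derivative.ext
  · have h := tgs_ode b c
    simp only [Derivation.leibniz, map_sub, map_add, Derivation.map_one_eq_zero, smul_eq_mul,
      derivative_X, derivative_C, pow_two] at h ⊢
    simp only [map_mul, map_ofNat] at h ⊢
    linear_combination 2 * tgs b c * h
  · simp [tgs, trinom_zero]

end H27Tri
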