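import Mathlib

/-!
# Generalised central trinomial coefficients

Definitions used for problem MP_b67006_nt and the three term recurrence.
-/

open Polynomial Finset

namespace H27Tri

/-- The generalised central trinomial coefficient: the coefficient of `t ^ n` in
`(t ^ 2 + b t + c) ^ n`. -/
noncomputable def trinom (n : ℕ) (b c : ℤ) : ℤ :=
  ((X ^ 2 + C b * X + C c : ℤ[X]) ^ n).coeff n

theorem trinom_zero (b c : ℤ) : trinom 0 b c = 1 := by simp [trinom]

theorem trinom_one (b c : ℤ) : trinom 1 b c = b := by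
  unfold trinom
  rw [pow_one, coeff_add, coeff_add, coeff_X_pow, coeff_C_mul, coeff_X_one, coeff_C]
  norm_num

/-- The coefficient of `t ^ (m)` of `t g' - m g` vanishes. -/
theorem coeff_euler (g : ℤ[X]) (m : ℕ) :
    (X * derivative g - C (m : ℤ) * g).coeff m = 0 := by
  cases m with
  | zero => simp
  | succ m =>
    rw [coeff_sub, coeff_C_mul, coeff_X_mul, coeff_derivative]
    push_cast
    ring

theorem trinom_rec (b c : ℤ) (i : ℕ) :
    ((i : ℤ) + 2) * trinom (i + 2) b c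
      = (2 * (i : ℤ) + 3) * b * trinom (i + 1) b c
        - ((i : ℤ) + 1) * (b ^ 2 - 4 * c) * trinom i b c := by
  have key := coeff_euler ((X ^ 2 + C b * X + C c : ℤ[X]) ^ (i + 1) * (X ^ 2 - C c)) (i + 2)
  have hd : X * derivative ((X ^ 2 + C b * X + C c : ℤ[X]) ^ (i + 1) * (X ^ 2 - C c))
      - C (((i + 2 : ℕ) : ℤ)) * ((X ^ 2 + C b * X + C c : ℤ[X]) ^ (i + 1) * (X ^ 2 - C c))
      = C ((i : ℤ) + 2) * (X ^ 2 + C b * X + C c : ℤ[X]) ^ (i + 2)
        - C ((2 * (i : ℤ) + 3) * b) * (X * (X ^ 2 + C b * X + C c : ℤ[X]) ^ (i + 1))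
        + C (((i : ℤ) + 1) * (b ^ 2 - 4 * c)) * (X ^ 2 * (X ^ 2 + C b * X + C c : ℤ[X]) ^ i) := by
    simp only [derivative_mul, derivative_pow, derivative_add, derivative_sub, derivative_X,
      derivative_C, map_add, map_mul, map_sub, map_pow]
    simp
    ring
  rw [hd] at key
  have h1 : (X * (X ^ 2 + C b * X + C c : ℤ[X]) ^ (i + 1)).coeff (i + 2)
      = trinom (i + 1) b c := by
    rw [show i + 2 = (i + 1) + 1 from rfl, coeff_X_mul]; rfl
  have h2 : (X ^ 2 * (X ^ 2 + C b * X + C c : ℤ[X]) ^ i).coeff (i + 2) = trinom i b c := by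
    rw [coeff_X_pow_mul]; rfl
  rw [coeff_add, coeff_sub, coeff_C_mul, coeff_C_mul, coeff_C_mul, h1, h2] at key
  have h3 : ((X ^ 2 + C b * X + C c : ℤ[X]) ^ (i + 2)).coeff (i + 2) = trinom (i + 2) b c := rfl
  rw [h3] at key
  linarith

/-- The sum `S_p` of the problem. -/
noncomputable def S (p : ℕ) : ℚ :=
  ∑ k ∈ range ((p - 1) / 2 + 1), ((2 * k).choose k : ℚ) / 16 ^ k * (trinom (2 * k) 2 3 : ℚ)

/-- The sum `S'_p` with the upper summation limit `p - 1` printed in the problem. -/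
noncomputable def S' (p : ℕ) : ℚ :=
  ∑ k ∈ range p, ((2 * k).choose k : ℚ) / 16 ^ k * (trinom (2 * k) 4 (-3) : ℚ)

/-- The sum `S'_p` with the upper summation limit `(p - 1) / 2`, the one of `S_p`. -/
noncomputable def S'half (p : ℕ) : ℚ :=
  ∑ k ∈ range ((p - 1) / 2 + 1), ((2 * k).choose k : ℚ) / 16 ^ k * (trinom (2 * k) 4 (-3) : ℚ)

/-- `r ≡ s (mod p ^ m)` for rational numbers: the `p`-adic valuation of `r - s` is at
least `m` (and `r = s` is allowed). -/
def CongMod (p m : ℕ) (r s : ℚ) : Prop :=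
  r = s ∨ (m : ℤ) ≤ padicValRat p (r - s)

end H27Tri
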